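import Pool.Agent.MP_a43263_nt.VV.Face
import Pool.Agent.MP_a43263_nt.UV.Wg

-- ======== part 0: formerly Pool.Agent.MP_a43263_nt.VA.Spec
section MrgPart0

/-! THEOREM V, part A: local theory. -/

set_option autoImplicit false

noncomputable section

namespace Pool.Agent.MP_a43263_nt.VA

open Polynomial Finset Filter Matrix JC VV
open UV (zK iq rq Nm Nx Dg Sp DIAGStmt PADStmt INTStmt PFStmt LAGStmt NXPStmt)

section
variable {R : Type} [CommRing R]

/-- the top coefficient of the remainder -/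
def ta (g : ℕ) (m P : R[X]) : R := (P %ₘ m).coeff (2 * g + 1)

/-- the Gram matrix of the form `ta (δ x y)` -/
def Gm (g : ℕ) (m δ : R[X]) : Mat g R := Matrix.of fun i j => ta g m (δ * X ^ (i.1 + j.1))

/-- the split form -/
def alt (g : ℕ) (R : Type) [CommRing R] : Fin (2 * (g + 1) + 1) → R := fun i => (-1) ^ i.1

end

section
variable {K : Type} [Field K]

structure Mq (g : ℕ) (m : K[X]) : Prop where
  monic : m.Monic
  deg : m.natDegree = 2 * g + 2
  sep : m.Separable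

/-- split forms -/
def IsoM (g : ℕ) (G : Mat g K) : Prop := ∃ S : Submodule K (Fin (2 * g + 2) → K),
  g + 1 ≤ Module.finrank K S ∧ ∀ z ∈ S, z ⬝ᵥ G *ᵥ z = 0

end

section
variable (p : ℕ) [Fact p.Prime]

/-- the factorisation at a prime of `Q` -/
structure Hd (g : ℕ) (f : ℤ[X]) (c a b : ℤ_[p]) (h : ℤ_[p][X]) : Prop where
  eq : zK f ℤ_[p] = C c * ((X - C a) * (X - C b) * h)
  unit : IsUnit c
  monic : h.Monic
  deg : h.natDegree = 2 * g
  zero : PadicInt.toZMod a = 0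
  one : PadicInt.toZMod b = 1
  irr : Irreducible (rq p h)
  ne : (rq p h).eval 0 * (rq p h).eval 1 ≠ 0
  sq : IsSquare ((rq p h).eval 0 * (rq p h).eval 1)

/-- the factorisation at a prime that divides the leading coefficient -/
structure Hi (g : ℕ) (f : ℤ[X]) (e : ℤ_[p]) (F : ℤ_[p][X]) : Prop where
  eq : zK f ℤ_[p] = (C (f.leadingCoeff : ℤ_[p]) * X + C e) * F
  unit : IsUnit e
  monic : F.Monic
  deg : F.natDegree = 2 * g + 1

end

/-- Gram matrices -/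
def GRAMStmt : Prop := ∀ (K : Type) [Field K] (g : ℕ) (m : K[X]), Mq g m →
  (∀ δ, (Gm g m δ).det = (-1) ^ (g + 1) * Nm m δ) ∧
  ∀ δ δ' x, IsCoprime x m → m ∣ δ * x ^ 2 - δ' →
    ∃ P : Mat g K, IsUnit P.det ∧ Pᵀ * Gm g m δ * P = Gm g m δ'

/-- the image of the descent map -/
def WGStmt : Prop := ∀ (K : Type) [Field K] [CharZero K] (g : ℕ) (f : K[X]), Sq g f →
  Wv f 1 0 ∧ (∀ δ δ' π π', Wv f δ π → Wv f δ' π' → Wv f (δ * δ') (π + π')) ∧
  (∀ δ, Wv f δ 0 → IsSquare (Nm (mo f) δ)) ∧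
  (∀ δ π (r : K), r ≠ 0 → (Wv (C (r ^ 2) * f) δ π ↔ Wv f δ π)) ∧
  (∀ U U₁, f = U * U₁ → U.natDegree = 2 → Wv f (U - U₁) 0) ∧
  (∀ δ z, IsCoprime δ f → f ∣ δ - z ^ 2 → Wv f δ 0) ∧
  ∀ (L : Type) [Field L] (φ : K →+* L) (δ : K[X]) (π : ZMod 2), Wv f δ π →
    Wv (f.map φ) (δ.map φ) π

def QSStmt : Prop := ∀ (K : Type) [Field K] [CharZero K] (g : ℕ) (f δ : K[X]), Sq g f →
  Wv f δ 0 → IsoM g (Gm g (mo f) δ)

/-- split forms of even rank, scaling -/
def HEVStmt : Prop := ∀ (K : Type) [Field K] [CharZero K] (s : K → K → ℤ), Sy s → ∀ g : ℕ,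
  (∀ (G : Mat g K) (e : Fin (2 * g + 2) → K), Dg G e → (∀ i, e i ≠ 0) → IsoM g G →
    IsSquare ((-1) ^ (g + 1) * G.det) → Hs s e = Hs s (alt g K)) ∧
  ∀ (e : Fin (2 * g + 2) → K) (r : K), r ≠ 0 → (∀ i, e i ≠ 0) →
    IsSquare ((-1) ^ (g + 1) * ∏ i, e i) → Hs s (fun i => r * e i) = Hs s e

/-- the Hasse symbol depends on the class only -/
def HMVStmt : Prop := ∀ (K : Type) [Field K] [CharZero K] (s : K → K → ℤ), Sy s →
  ∀ (g : ℕ) (m δ x w : K[X]) (r : K) (e e' : Fin (2 * g + 2) → K), Mq g m → r ≠ 0 →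
  IsSquare (Nm m δ) → m ∣ δ * x ^ 2 * C r - w → Dg (Gm g m δ) e → Dg (Gm g m w) e' →
  (∀ i, e' i ≠ 0) → Hs s e = Hs s e' ∧ IsSquare ((-1) ^ (g + 1) * ∏ i, e' i)

def HENSStmt : Prop := (∀ (p : ℕ) [Fact p.Prime] (g : ℕ) (f : ℤ[X]), Fam g f → Ty g p f →
    ∃ c a b h, Hd p g f c a b h) ∧
  ∀ (p : ℕ) [Fact p.Prime] (g : ℕ) (f : ℤ[X]), Fam g f → (p : ℤ) ∣ f.leadingCoeff →
    ∃ e F, Hi p g f e F

/-- the Hasse symbol of a unimodular form -/
def LOCUStmt : Prop := ∀ (p : ℕ) [Fact p.Prime] (g : ℕ) (f : ℤ[X]) (δ : ℚ_[p][X])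
  (s : ℚ_[p] → ℚ_[p] → ℤ) (e : Fin (2 * g + 2) → ℚ_[p]), p ≠ 2 → ¬(p : ℤ) ∣ f.leadingCoeff →
  Fam g f → Sp p s → IsSquare (Nm (mo (zK f ℚ_[p])) δ) → Dg (Gm g (mo (zK f ℚ_[p])) δ) e →
  Ev p f δ → Hs s e = 1

/-- the same at the primes that divide the leading coefficient -/
def LOCIStmt : Prop := ∀ (p : ℕ) [Fact p.Prime] (g : ℕ) (f : ℤ[X]) (δ : ℚ_[p][X])
  (s : ℚ_[p] → ℚ_[p] → ℤ) (e : Fin (2 * g + 2) → ℚ_[p]), p ≠ 2 → (p : ℤ) ∣ f.leadingCoeff →
  Fam g f → Sp p s → IsCoprime δ (zK f ℚ_[p]) → IsSquare (Nm (mo (zK f ℚ_[p])) δ) →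
  Dg (Gm g (mo (zK f ℚ_[p])) δ) e → Ev p f δ → Hs s e = 1

/-- the Hasse symbol at a prime of `Q` -/
def LOCQStmt : Prop := ∀ (p : ℕ) [Fact p.Prime] (g : ℕ) (f : ℤ[X]) (δ : ℚ_[p][X])
  (s : ℚ_[p] → ℚ_[p] → ℤ) (e : Fin (2 * g + 2) → ℚ_[p]) (u : ZMod 2), p % 4 = 1 → Fam g f →
  Ty g p f → Sp p s → IsSquare (Nm (mo (zK f ℚ_[p])) δ) → Dg (Gm g (mo (zK f ℚ_[p])) δ) e →
  NF p f δ u 1 → (Hs s e = 1 ↔ u = 0)

/-- the invariants from the components -/
def CMPStmt : Prop := ∀ (p : ℕ) [Fact p.Prime] (g : ℕ) (f : ℤ[X]) (c a b : ℤ_[p]) (h : ℤ_[p][X])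
  (δ : ℚ_[p][X]) (r x y : ℚ_[p]) (v w : ℤ_[p]) (k : ℤ) (z : ℤ_[p][X]) (u : ZMod 2), Fam g f →
  Hd p g f c a b h → r ≠ 0 → x ≠ 0 → y ≠ 0 → IsUnit v → IsUnit w →
  δ.eval (a : ℚ_[p]) * r = v * x ^ 2 → δ.eval (b : ℚ_[p]) * r = w * y ^ 2 →
  (IsSquare (PadicInt.toZMod (v * w)) ↔ u = 0) →
  iq p h ∣ δ * C r - C ((p : ℚ_[p]) ^ k) * iq p z → ¬rq p h ∣ rq p z → NF p f δ u k

/-- the invariants are additive -/
def NFMStmt : Prop := ∀ (p : ℕ) [Fact p.Prime] (g : ℕ) (f : ℤ[X]), Fam g f →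
  Ev p f 1 ∧ (∀ δ δ', Ev p f δ → Ev p f δ' → Ev p f (δ * δ')) ∧
  (∀ δ, Ev p f δ ↔ ∃ u, NF p f δ u 0) ∧
  (p ≠ 2 → Ty g p f → ∀ δ δ' u y u' y', NF p f δ u y → NF p f δ' u' y' →
    NF p f (δ * δ') (u + u') (y + y'))

/-- the invariants exist -/
def NFEStmt : Prop := ∀ (p : ℕ) [Fact p.Prime] (g : ℕ) (f : ℤ[X]) (δ : ℚ_[p][X]), Fam g f →
  Ty g p f → IsCoprime δ (zK f ℚ_[p]) → IsSquare (Nm (mo (zK f ℚ_[p])) δ) → ∃ u y, NF p f δ u y

/-- the local condition of a ramified twist -/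
def RAMStmt : Prop := ∀ (p : ℕ) [Fact p.Prime] (g : ℕ) (f : ℤ[X]) (δ : ℚ_[p][X]) (d : ℤ)
  (u y : ZMod 2), p % 4 = 1 → Fam g f → Ty g p f → (p : ℤ) ∣ d → ¬(p : ℤ) ^ 2 ∣ d →
  Wv (C (d : ℚ_[p]) * zK f ℚ_[p]) δ 0 → NF p f δ u y → u = 0

/-- the local condition of an unramified twist -/
def EVStmt : Prop := ∀ (p : ℕ) [Fact p.Prime] (g : ℕ) (f : ℤ[X]) (δ : ℚ_[p][X]) (d : ℤ)
  (π : ZMod 2), Fam g f → ¬Nx p f → ¬(p : ℤ) ∣ d → Wv (C (d : ℚ_[p]) * zK f ℚ_[p]) δ π → Ev p f δ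

/-- the real place -/
def REALStmt : Prop := ∀ F δ : ℝ[X], F.Separable → (∀ x, F.eval x ≠ 0) → IsCoprime δ F →
  ∃ z, F ∣ δ - z ^ 2

/-- reciprocity -/
def RECStmt : Prop := ∀ (g : ℕ) (f : ℤ[X]) (Q : Finset ℕ) (δ : ℚ[X]) (u y : ℕ → ZMod 2), Fam g f →
  (∀ q ∈ Q, q.Prime ∧ q % 4 = 1 ∧ Ty g q f) → IsCoprime δ (zK f ℚ) →
  IsSquare (Nm (mo (zK f ℚ)) δ) → Wv (zK f ℚ_[2]) (fK δ ℚ_[2]) 0 →
  (∀ (p : ℕ) [Fact p.Prime], p ∉ Q → Ev p f (fK δ ℚ_[p])) →
  (∀ (q : ℕ) [Fact q.Prime], q ∈ Q → NF q f (fK δ ℚ_[q]) (u q) (y q)) → ∑ q ∈ Q, u q * y q = 0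

theorem kill_of (symb : SYMBStmt) (diag : DIAGStmt) (pad : PADStmt) (intm : INTStmt) (pf : PFStmt)
    (lag : LAGStmt) (nxp : NXPStmt) (gram : GRAMStmt) (wg : WGStmt) (qs : QSStmt)
    (hev : HEVStmt) (hmv : GRAMStmt → HEVStmt → HMVStmt) (hens : HENSStmt)
    (locu : GRAMStmt → DIAGStmt → HMVStmt → PADStmt → LOCUStmt)
    (loci : GRAMStmt → DIAGStmt → HEVStmt → PADStmt → HENSStmt → LOCIStmt)
    (locq : GRAMStmt → DIAGStmt → HMVStmt → PADStmt → HENSStmt → LOCQStmt) (cmp : CMPStmt)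
    (nfm : NFMStmt) (nfe : HENSStmt → CMPStmt → NFEStmt)
    (ram : SYMBStmt → GRAMStmt → WGStmt → QSStmt → DIAGStmt → HEVStmt → PADStmt → LOCQStmt →
      HENSStmt → CMPStmt → NFMStmt → RAMStmt)
    (ev : INTStmt → NXPStmt → EVStmt) (hr : REALStmt)
    (recp : SYMBStmt → GRAMStmt → WGStmt → QSStmt → DIAGStmt → HEVStmt → LOCUStmt → LOCIStmt →
      LOCQStmt → NFMStmt → PFStmt → REALStmt → RECStmt)
    (kill : WGStmt → PADStmt → NFMStmt → NFEStmt → RAMStmt → EVStmt → REALStmt → RECStmt →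
      LAGStmt → KILLStmt) : KILLStmt :=
  have hm := hmv gram hev
  have hq := locq gram diag hm pad hens
  kill wg pad nfm (nfe hens cmp) (ram symb gram wg qs diag hev pad hq hens cmp nfm) (ev intm nxp) hr
    (recp symb gram wg qs diag hev (locu gram diag hm pad) (loci gram diag hev pad hens) hq nfm pf hr)
    lag

end Pool.Agent.MP_a43263_nt.VA

end
end MrgPart0

-- ======== part 1: formerly Pool.Agent.MP_a43263_nt.VA.Basic
section MrgPart1

/-! THEOREM V: elementary facts. -/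

set_option autoImplicit false

noncomputable section

namespace Pool.Agent.MP_a43263_nt.VA

open Polynomial Finset Matrix JC VV
open UV (zK iq rq Nm Nx Dg po ve zK_map fK_zK dvd_sub_mod)

section mo
variable {K L : Type} [Field K] [Field L] {g : ℕ} {f : K[X]}

theorem mo_unit (h : f ≠ 0) : IsUnit (C f.leadingCoeff⁻¹) :=
  isUnit_C.2 (inv_ne_zero (leadingCoeff_ne_zero.2 h)).isUnit

theorem mo_monic (h : f ≠ 0) : (mo f).Monic := by
  rw [Monic, mo, leadingCoeff_mul, leadingCoeff_C, inv_mul_cancel₀ (leadingCoeff_ne_zero.2 h)]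

theorem mo_dvd (h : f ≠ 0) {P : K[X]} : mo f ∣ P ↔ f ∣ P := (mo_unit h).mul_left_dvd

theorem mo_cop (h : f ≠ 0) {P : K[X]} : IsCoprime P (mo f) ↔ IsCoprime P f :=
  isCoprime_mul_unit_left_right (mo_unit h) _ _

theorem mo_deg (h : f ≠ 0) : (mo f).natDegree = f.natDegree :=
  natDegree_C_mul (inv_ne_zero (leadingCoeff_ne_zero.2 h))

theorem mo_map (φ : K →+* L) (f : K[X]) : mo (f.map φ) = (mo f).map φ := by
  simp [mo, leadingCoeff_map]

theorem mo_C_mul {c : K} (hc : c ≠ 0) (f : K[X]) : mo (C c * f) = mo f := by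
  rw [mo, mo, leadingCoeff_mul, leadingCoeff_C, ← mul_assoc, ← C_mul, mul_inv,
    mul_right_comm, inv_mul_cancel₀ hc, one_mul]

theorem mo_of_monic (h : f.Monic) : mo f = f := by rw [mo, h.leadingCoeff, inv_one, C_1, one_mul]

theorem C_mul_mo (h : f ≠ 0) : C f.leadingCoeff * mo f = f := by
  rw [mo, ← mul_assoc, ← C_mul, mul_inv_cancel₀ (leadingCoeff_ne_zero.2 h), C_1, one_mul]

theorem sq_ne (h : Sq g f) : f ≠ 0 := h.sep.ne_zero

theorem sq_map (h : Sq g f) (φ : K →+* L) : Sq g (f.map φ) :=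
  ⟨h.pos, by rw [natDegree_map, h.deg], h.sep.map⟩

theorem sq_C_mul (h : Sq g f) {c : K} (hc : c ≠ 0) : Sq g (C c * f) :=
  ⟨h.pos, by rw [natDegree_C_mul hc, h.deg], h.sep.unit_mul (isUnit_C.2 hc.isUnit)⟩

theorem sq_mq (h : Sq g f) : Mq g (mo f) :=
  ⟨mo_monic (sq_ne h), (mo_deg (sq_ne h)).trans h.deg, h.sep.unit_mul (mo_unit (sq_ne h))⟩

theorem Mq.map {m : K[X]} (h : Mq g m) (φ : K →+* L) : Mq g (m.map φ) :=
  ⟨h.monic.map φ, by rw [natDegree_map, h.deg], h.sep.map⟩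

end mo

section fam
variable {g : ℕ} {f : ℤ[X]}

theorem fam_sq (h : Fam g f) (K : Type) [Field K] [CharZero K] : Sq g (zK f K) :=
  fK_zK f K ▸ sq_map (⟨h.pos, by
    rw [natDegree_map_eq_of_injective (RingHom.injective_int _), h.deg], h.irr.separable⟩ :
      Sq g (zK f ℚ)) _

theorem fam_ne (h : Fam g f) : f ≠ 0 := fun e => by
  have := h.deg
  rw [e, natDegree_zero] at this
  omega

theorem fam_lc (K : Type) [Field K] [CharZero K] (f : ℤ[X]) :
    (zK f K).leadingCoeff = (f.leadingCoeff : K) :=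
  leadingCoeff_map_of_injective (RingHom.injective_int _) f

/-- the polynomial does not vanish modulo `p` -/
theorem fam_red (h : Fam g f) {p : ℕ} (hp : p.Prime) : zK f (ZMod p) ≠ 0 := fun e => by
  by_cases c : (p : ℤ) ∣ f.leadingCoeff
  · have := (h.inf p hp c).2
    rw [e, natDegree_zero] at this
    omega
  · have := congrArg (fun P => P.coeff f.natDegree) e
    simp only [coeff_map, coeff_zero, eq_intCast] at this
    exact c ((ZMod.intCast_zmod_eq_zero_iff_dvd _ p).1 this)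

/-- the primes of `Q` do not divide the leading coefficient -/
theorem ty_lc (hd : f.natDegree = 2 * g + 2) {p : ℕ} (hp : p.Prime) (t : Ty g p f) :
    ¬(p : ℤ) ∣ f.leadingCoeff := fun c => by
  have : Fact p.Prime := ⟨hp⟩
  obtain ⟨a, h, a0, e, m, -, d, -⟩ := t
  have mm : (X * (X - 1) * h : (ZMod p)[X]).Monic := (monic_X.mul (monic_X_sub_C 1)).mul m
  have dd : (X * (X - 1) * h : (ZMod p)[X]).natDegree = 2 * g + 2 := by
    show (X * (X - C 1) * h : (ZMod p)[X]).natDegree = 2 * g + 2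
    rw [(monic_X.mul (monic_X_sub_C (1 : ZMod p))).natDegree_mul m,
      monic_X.natDegree_mul (monic_X_sub_C (1 : ZMod p)), natDegree_X, natDegree_X_sub_C, d]
    omega
  have := congrArg (fun P => P.coeff (2 * g + 2)) e
  simp only [coeff_map, eq_intCast, coeff_C_mul] at this
  rw [← dd, mm.coeff_natDegree, mul_one, dd, ← hd, coeff_natDegree,
    (ZMod.intCast_zmod_eq_zero_iff_dvd _ p).2 c] at this
  exact a0 this.symm

/-- the integral monic model at a prime that does not divide the leading coefficient -/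
theorem exists_monic {p : ℕ} [Fact p.Prime] (h : Fam g f) (c : ¬(p : ℤ) ∣ f.leadingCoeff) :
    ∃ (m : ℤ_[p][X]) (u : ℤ_[p]ˣ), m.Monic ∧ m.natDegree = 2 * g + 2 ∧
      (u : ℤ_[p]) = f.leadingCoeff ∧ zK f ℤ_[p] = C (u : ℤ_[p]) * m ∧ iq p m = mo (zK f ℚ_[p]) := by
  obtain ⟨u, hu⟩ : IsUnit (f.leadingCoeff : ℤ_[p]) := PadicInt.isUnit_iff.2
    (le_antisymm (PadicInt.norm_le_one _) (not_lt.1 fun l => c (PadicInt.norm_int_lt_one_iff_dvd _ |>.1 l)))
  have l : (zK f ℤ_[p]).leadingCoeff = u := by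
    rw [hu]; exact leadingCoeff_map_of_injective (RingHom.injective_int _) f
  have e : zK f ℤ_[p] = C (u : ℤ_[p]) * (C ((u⁻¹ : ℤ_[p]ˣ) : ℤ_[p]) * zK f ℤ_[p]) := by
    rw [← mul_assoc, ← C_mul, Units.mul_inv, C_1, one_mul]
  have mm : (C ((u⁻¹ : ℤ_[p]ˣ) : ℤ_[p]) * zK f ℤ_[p]).Monic := by
    rw [Monic, leadingCoeff_mul, leadingCoeff_C, l, Units.inv_mul]
  refine ⟨_, u, mm, ?_, hu, e, ?_⟩
  · rw [natDegree_C_mul (Units.ne_zero _), natDegree_map_eq_of_injective (RingHom.injective_int _),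
      h.deg]
  · have u0 : ((u : ℤ_[p]) : ℚ_[p]) ≠ 0 := ((Units.isUnit u).map PadicInt.Coe.ringHom).ne_zero
    rw [← UV.iq_zK]
    conv_rhs => rw [e, iq, Polynomial.map_mul, map_C]
    exact ((mo_C_mul u0 _).trans (mo_of_monic (mm.map _))).symm

end fam

section ta
variable {R S : Type} [CommRing R] [CommRing S] {g : ℕ} {f : R[X]}

theorem ta_add (P Q : R[X]) : ta g f (P + Q) = ta g f P + ta g f Q := by
  rw [ta, ta, ta, add_modByMonic, coeff_add]

theorem ta_sub (P Q : R[X]) : ta g f (P - Q) = ta g f P - ta g f Q := by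
  rw [ta, ta, ta, sub_modByMonic, coeff_sub]

theorem ta_zero : ta g f 0 = 0 := by simp [ta]

theorem ta_C_mul (c : R) (P : R[X]) : ta g f (C c * P) = c * ta g f P := by
  rw [ta, ta, ← smul_eq_C_mul, smul_modByMonic, coeff_smul, smul_eq_mul]

theorem ta_sum {ι : Type} (s : Finset ι) (P : ι → R[X]) :
    ta g f (∑ i ∈ s, P i) = ∑ i ∈ s, ta g f (P i) := by
  classical
  induction s using Finset.induction_on with
  | empty => simp [ta_zero]
  | insert i s hi ih => rw [sum_insert hi, sum_insert hi, ta_add, ih]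

theorem ta_dvd (hf : f.Monic) {P : R[X]} (h : f ∣ P) : ta g f P = 0 := by
  rw [ta, (modByMonic_eq_zero_iff_dvd hf).2 h, coeff_zero]

theorem ta_congr (hf : f.Monic) {P Q : R[X]} (h : f ∣ P - Q) : ta g f P = ta g f Q := by
  rw [← sub_eq_zero, ← ta_sub, ta_dvd hf h]

theorem ta_map (hf : f.Monic) (φ : R →+* S) (P : R[X]) :
    ta g (f.map φ) (P.map φ) = φ (ta g f P) := by
  rw [ta, ta, ← map_modByMonic φ hf, coeff_map]

theorem ta_of_lt [Nontrivial R] (hf : f.Monic) {P : R[X]} (h : P.degree < f.degree) :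
    ta g f P = P.coeff (2 * g + 1) := by
  rw [ta, (modByMonic_eq_self_iff hf).2 h]

theorem ta_X_pow [Nontrivial R] (hf : f.Monic) (hd : f.natDegree = 2 * g + 2) {k : ℕ}
    (hk : k ≤ 2 * g + 1) : ta g f (X ^ k) = if k = 2 * g + 1 then 1 else 0 := by
  rw [ta_of_lt hf, coeff_X_pow]
  · simp only [eq_comm]
  · rw [degree_X_pow, degree_eq_natDegree hf.ne_zero, hd]
    exact_mod_cast by omega

theorem Gm_symm (δ : R[X]) : (Gm g f δ).IsSymm := by
  ext i j
  simp [Gm, add_comm]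

theorem Gm_map (hf : f.Monic) (φ : R →+* S) (δ : R[X]) :
    Gm g (f.map φ) (δ.map φ) = (Gm g f δ).map φ := by
  ext i j
  simp only [Gm, of_apply, map_apply, ← ta_map hf φ, Polynomial.map_mul, Polynomial.map_pow, map_X]

theorem Gm_congr (hf : f.Monic) {δ δ' : R[X]} (h : f ∣ δ - δ') : Gm g f δ = Gm g f δ' := by
  ext i j
  exact ta_congr hf (by rw [← sub_mul]; exact h.mul_right _)

theorem Gm_C_mul (c : R) (δ : R[X]) : Gm g f (C c * δ) = c • Gm g f δ := by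
  ext i j
  simp only [Gm, of_apply, Matrix.smul_apply, mul_assoc, ta_C_mul, smul_eq_mul]

theorem Gm_form (δ : R[X]) (x y : Fin (2 * g + 2) → R) :
    x ⬝ᵥ Gm g f δ *ᵥ y = ta g f (δ * po x * po y) := by
  simp only [po, mul_sum, sum_mul, ta_sum, dotProduct, mulVec, Gm, of_apply]
  rw [sum_comm]
  refine sum_congr rfl fun j _ => sum_congr rfl fun i _ => ?_
  rw [show δ * (C (x i) * X ^ i.1) * (C (y j) * X ^ j.1) =
    C (x i * y j) * (δ * X ^ (i.1 + j.1)) by rw [C_mul, pow_add]; ring, ta_C_mul]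
  ring

/-- the Gram matrix of any family -/
theorem gram_ve [Nontrivial R] (hf : f.Monic) (hd : f.natDegree = 2 * g + 2) (δ : R[X])
    (b : Fin (2 * g + 2) → R[X]) : ∃ P : Mat g R, ∀ i j,
      (Pᵀ * Gm g f δ * P) i j = ta g f (δ * b i * b j) := by
  refine ⟨Matrix.of fun k j => ve _ f (b j) k, fun i j => ?_⟩
  rw [Matrix.mul_assoc]
  refine (Gm_form δ (ve _ f (b i)) (ve _ f (b j))).trans ?_
  rw [UV.po_ve hf hd, UV.po_ve hf hd]
  refine (ta_congr hf ?_).symm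
  rw [show δ * b i * b j - δ * (b i %ₘ f) * (b j %ₘ f) =
    (b i - b i %ₘ f) * (δ * b j) + (b j - b j %ₘ f) * (δ * (b i %ₘ f)) by ring]
  exact dvd_add ((dvd_sub_mod _).mul_right _) ((dvd_sub_mod _).mul_right _)

theorem dg_smul {m : ℕ} {G : Matrix (Fin m) (Fin m) R} {e : Fin m → R} (h : Dg G e) (c : R) :
    Dg (c • G) fun i => c * e i := by
  obtain ⟨P, h1, h2⟩ := h
  refine ⟨P, h1, ?_⟩
  rw [Matrix.mul_smul, Matrix.smul_mul, h2, ← diagonal_smul]
  rfl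

end ta

section fm
variable {R S : Type} [CommRing R] [CommRing S] {n : ℕ}

theorem fm_po (c : Fin n → R) : fm c = po c := rfl

theorem fm_coeff (c : Fin n → R) (i : Fin n) : (fm c).coeff i.1 = c i := UV.po_coeff c i

theorem fm_degree (c : Fin n → R) : (fm c).degree < n := UV.po_degree c

theorem fm_of_lt {P : R[X]} (h : P.degree < n) : fm (fun i : Fin n => P.coeff i.1) = P :=
  UV.po_of_lt h

theorem fm_map (φ : R →+* S) (c : Fin n → R) : (fm c).map φ = fm fun i => φ (c i) := by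
  simp [fm, Polynomial.map_sum]

theorem fm_inj : Function.Injective (fm : (Fin n → R) → R[X]) := fun a b h =>
  _root_.funext fun i => by rw [← fm_coeff a i, h, fm_coeff]

theorem fm_natDegree {c : Fin (n + 1) → R} (h : c (Fin.last n) ≠ 0) :
    (fm c).natDegree = n ∧ (fm c).leadingCoeff = c (Fin.last n) := by
  have e : (fm c).natDegree = n := le_antisymm
    (natDegree_le_iff_degree_le.2 (Order.le_of_lt_succ (by exact_mod_cast fm_degree c)))
    (le_natDegree_of_ne_zero fun e => h ((fm_coeff c (Fin.last n)).symm.trans e))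
  exact ⟨e, by rw [leadingCoeff, e]; exact fm_coeff c (Fin.last n)⟩

end fm

end Pool.Agent.MP_a43263_nt.VA

end
end MrgPart1

-- ======== part 2: formerly Pool.Agent.MP_a43263_nt.VB.Basic
section MrgPart2

/-! THEOREM V, part B: Gram matrices of any size. -/

set_option autoImplicit false

noncomputable section

namespace Pool.Agent.MP_a43263_nt.VB

open Polynomial Finset Matrix JC VV
open UV (zK iq rq Nm Nx po ve po_ve po_coeff po_degree po_of_lt po_inj dvd_sub_mod zK_map)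

section ring
variable {R S : Type} [CommRing R] [CommRing S]

/-- the top coefficient of the remainder, `n` the degree of `m` -/
def tb (n : ℕ) (m P : R[X]) : R := (P %ₘ m).coeff (n - 1)

/-- the Gram matrix of the form `tb (δ x y)` -/
def Gn (n : ℕ) (m δ : R[X]) : Matrix (Fin n) (Fin n) R :=
  Matrix.of fun i j => tb n m (δ * X ^ (i.1 + j.1))

/-- the matrix of the multiplication by `x` -/
def Mx (n : ℕ) (m x : R[X]) : Matrix (Fin n) (Fin n) R :=
  Matrix.of fun i j => ve n m (x * X ^ j.1) i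

variable {n : ℕ} {m : R[X]}

theorem tb_add (P Q : R[X]) : tb n m (P + Q) = tb n m P + tb n m Q := by
  rw [tb, tb, tb, add_modByMonic, coeff_add]

theorem tb_sub (P Q : R[X]) : tb n m (P - Q) = tb n m P - tb n m Q := by
  rw [tb, tb, tb, sub_modByMonic, coeff_sub]

theorem tb_zero : tb n m 0 = 0 := by simp [tb]

theorem tb_C_mul (c : R) (P : R[X]) : tb n m (C c * P) = c * tb n m P := by
  rw [tb, tb, ← smul_eq_C_mul, smul_modByMonic, coeff_smul, smul_eq_mul]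

theorem tb_sum {ι : Type} (s : Finset ι) (P : ι → R[X]) :
    tb n m (∑ i ∈ s, P i) = ∑ i ∈ s, tb n m (P i) := by
  classical
  induction s using Finset.induction_on with
  | empty => simp [tb_zero]
  | insert i s hi ih => rw [sum_insert hi, sum_insert hi, tb_add, ih]

theorem tb_dvd (hm : m.Monic) {P : R[X]} (h : m ∣ P) : tb n m P = 0 := by
  rw [tb, (modByMonic_eq_zero_iff_dvd hm).2 h, coeff_zero]

theorem tb_congr (hm : m.Monic) {P Q : R[X]} (h : m ∣ P - Q) : tb n m P = tb n m Q := by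
  rw [← sub_eq_zero, ← tb_sub, tb_dvd hm h]

theorem tb_map (hm : m.Monic) (φ : R →+* S) (P : R[X]) :
    tb n (m.map φ) (P.map φ) = φ (tb n m P) := by
  rw [tb, tb, ← map_modByMonic φ hm, coeff_map]

theorem tb_of_lt (hm : m.Monic) (hd : m.natDegree = n) {P : R[X]} (h : P.degree < n) :
    tb n m P = P.coeff (n - 1) := by
  nontriviality R
  rw [tb, (modByMonic_eq_self_iff hm).2 (by rwa [degree_eq_natDegree hm.ne_zero, hd])]

theorem tb_X_pow (hm : m.Monic) (hd : m.natDegree = n) {k : ℕ} (hk : k < n) :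
    tb n m (X ^ k) = if k + 1 = n then 1 else 0 := by
  rw [tb_of_lt hm hd ((degree_X_pow_le k).trans_lt (by exact_mod_cast hk)), coeff_X_pow]
  exact if_congr (by omega) rfl rfl

/-- the value at a root -/
theorem tb_root {a : R} {F : R[X]} (hF : F.Monic) (hd : F.natDegree + 1 = n) (P : R[X]) :
    tb n ((X - C a) * F) (F * P) = P.eval a := by
  nontriviality R
  have hm := (monic_X_sub_C a).mul hF
  have e : ((X - C a) * F).natDegree = n := by
    rw [(monic_X_sub_C a).natDegree_mul hF, natDegree_X_sub_C]; omega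
  rw [tb_congr hm (Q := C (P.eval a) * F) (by
    rw [show F * P - C (P.eval a) * F = (P - C (P.eval a)) * F by ring]
    exact mul_dvd_mul_right (X_sub_C_dvd_sub_C_eval) F), tb_C_mul, tb_of_lt hm e (by
      rw [degree_eq_natDegree hF.ne_zero]; exact_mod_cast by omega),
    show n - 1 = F.natDegree by omega, hF.coeff_natDegree, mul_one]

/-- the component of the other factor -/
theorem tb_fac {a : R} {F : R[X]} (hF : F.Monic) (hd : F.natDegree = n) (hn : 0 < n) (P : R[X]) :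
    tb (n + 1) ((X - C a) * F) ((X - C a) * P) = tb n F P := by
  nontriviality R
  have hm := (monic_X_sub_C a).mul hF
  have e : ((X - C a) * F).natDegree = n + 1 := by
    rw [(monic_X_sub_C a).natDegree_mul hF, natDegree_X_sub_C]; omega
  have l : (P %ₘ F).degree < n := by
    rw [← hd, ← degree_eq_natDegree hF.ne_zero]; exact degree_modByMonic_lt _ hF
  obtain ⟨k, rfl⟩ : ∃ k, n = k + 1 := ⟨n - 1, by omega⟩
  rw [tb_congr hm (Q := (X - C a) * (P %ₘ F)) (by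
    rw [← mul_sub]; exact mul_dvd_mul_left _ (dvd_sub_mod P)), tb_of_lt hm e (by
      refine (degree_mul_le _ _).trans_lt ?_
      rw [degree_X_sub_C, Nat.cast_succ (k + 1), add_comm]
      exact WithBot.add_lt_add_right (by simp) l), tb, Nat.add_sub_cancel, Nat.add_sub_cancel,
    sub_mul, coeff_sub, coeff_X_mul, coeff_C_mul, coeff_eq_zero_of_degree_lt l, mul_zero, sub_zero]

theorem Gn_symm (δ : R[X]) : (Gn n m δ).IsSymm := by
  ext i j
  simp [Gn, add_comm]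

theorem Gn_map (hm : m.Monic) (φ : R →+* S) (δ : R[X]) :
    Gn n (m.map φ) (δ.map φ) = (Gn n m δ).map φ := by
  ext i j
  simp only [Gn, of_apply, map_apply, ← tb_map hm φ, Polynomial.map_mul, Polynomial.map_pow, map_X]

theorem Gn_congr (hm : m.Monic) {δ δ' : R[X]} (h : m ∣ δ - δ') : Gn n m δ = Gn n m δ' := by
  ext i j
  exact tb_congr hm (by rw [← sub_mul]; exact h.mul_right _)

theorem Gn_C_mul (c : R) (δ : R[X]) : Gn n m (C c * δ) = c • Gn n m δ := by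
  ext i j
  rw [Gn, Gn, Matrix.smul_apply, of_apply, of_apply, mul_assoc, tb_C_mul, smul_eq_mul]

theorem Gn_form (δ : R[X]) (x y : Fin n → R) :
    x ⬝ᵥ Gn n m δ *ᵥ y = tb n m (δ * po x * po y) := by
  simp only [po, mul_sum, sum_mul, tb_sum, dotProduct, mulVec, Gn, of_apply]
  rw [sum_comm]
  refine sum_congr rfl fun j _ => sum_congr rfl fun i _ => ?_
  rw [show δ * (C (x i) * X ^ i.1) * (C (y j) * X ^ j.1) =
    C (x i * y j) * (δ * X ^ (i.1 + j.1)) by rw [C_mul, pow_add]; ring, tb_C_mul]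
  ring

/-- the entries of the Gram matrix in a new basis, the columns of `P` and `P'` -/
theorem Gn_entry {k l : Type} (δ : R[X]) (P : Matrix (Fin n) k R) (P' : Matrix (Fin n) l R)
    (i : k) (j : l) :
    (Pᵀ * Gn n m δ * P') i j = tb n m (δ * po (fun a => P a i) * po fun a => P' a j) := by
  rw [Matrix.mul_assoc]
  exact Gn_form δ (fun a => P a i) fun a => P' a j

theorem Mx_map (hm : m.Monic) (φ : R →+* S) (x : R[X]) :
    Mx n (m.map φ) (x.map φ) = (Mx n m x).map φ := by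
  ext i j
  simp only [Mx, ve, of_apply, map_apply, ← coeff_map, map_modByMonic φ hm, Polynomial.map_mul,
    Polynomial.map_pow, map_X]

theorem Mx_col (hm : m.Monic) (hd : m.natDegree = n) (x : R[X]) (j : Fin n) :
    m ∣ x * X ^ j.1 - po fun a => Mx n m x a j := by
  nontriviality R
  exact (po_ve hm hd (x * X ^ j.1)).symm ▸ dvd_sub_mod _

theorem Mx_one (hm : m.Monic) (hd : m.natDegree = n) : Mx n m 1 = 1 := by
  nontriviality R
  ext i j
  rw [Mx, of_apply, ve, one_mul, (modByMonic_eq_self_iff hm).2 (by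
    rw [degree_X_pow, degree_eq_natDegree hm.ne_zero, hd]; exact_mod_cast j.2), coeff_X_pow,
    one_apply]
  exact if_congr Fin.val_inj rfl rfl

theorem Mx_vec (hm : m.Monic) (hd : m.natDegree = n) (x : R[X]) (v : Fin n → R) :
    m ∣ x * po v - po (Mx n m x *ᵥ v) := by
  have e : po (Mx n m x *ᵥ v) = ∑ j, C (v j) * po fun a => Mx n m x a j := by
    simp only [po, mulVec, dotProduct, map_sum, sum_mul, mul_sum, C_mul]
    rw [sum_comm]
    exact sum_congr rfl fun _ _ => sum_congr rfl fun _ _ => by ring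
  rw [e, po, mul_sum, ← sum_sub_distrib]
  refine dvd_sum fun j _ => ?_
  rw [mul_left_comm, ← mul_sub]
  exact (Mx_col hm hd x j).mul_left _

theorem Mx_form (hm : m.Monic) (hd : m.natDegree = n) (δ x y : R[X]) :
    (Mx n m x)ᵀ * Gn n m δ * Mx n m y = Gn n m (δ * x * y) := by
  ext i j
  rw [Gn_entry]
  refine tb_congr hm ?_
  have a := Mx_col hm hd x i
  have b := Mx_col hm hd y j
  rw [pow_add, show ∀ u v u' v' : R[X], δ * u' * v' - δ * x * y * (u * v) =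
    -(δ * v') * (x * u - u') - δ * (x * u) * (y * v - v') from fun _ _ _ _ => by ring]
  exact dvd_sub (a.mul_left _) (b.mul_left _)

theorem Gn_Mx (hm : m.Monic) (hd : m.natDegree = n) (δ y : R[X]) :
    Gn n m δ * Mx n m y = Gn n m (δ * y) := by
  have := Mx_form hm hd δ 1 y
  rwa [Mx_one hm hd, transpose_one, Matrix.one_mul, mul_one] at this

/-- determinants of matrices that vanish above the antidiagonal -/
theorem det_anti {H : Matrix (Fin n) (Fin n) R} {c : R} (h0 : ∀ i j, i.1 + j.1 + 1 < n → H i j = 0)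
    (h1 : ∀ i j, i.1 + j.1 + 1 = n → H i j = c) : H.det = c ^ n ∨ H.det = -c ^ n := by
  have e := det_permute' (Fin.revPerm (n := n)) H
  have k : (H.submatrix id (Fin.revPerm (n := n))).det = c ^ n := by
    rw [det_of_isLowerTriangular (H.submatrix id (Fin.revPerm (n := n)))
      (fun i j (h : i < j) => h0 i j.rev (by
      have : i.1 < j.1 := h
      have := j.2
      rw [Fin.val_rev]; omega)),
    ← Fin.prod_const]
    exact prod_congr rfl fun i _ => h1 i i.rev (by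
      have := i.2
      rw [Fin.val_rev]; omega)
  rw [k] at e
  rcases Int.units_eq_one_or (Equiv.Perm.sign (Fin.revPerm (n := n))) with s | s <;> rw [s] at e
  · exact Or.inl (by simpa using e.symm)
  · exact Or.inr (by rw [e]; simp)

theorem det_Gn_one (hm : m.Monic) (hd : m.natDegree = n) :
    (Gn n m 1).det = 1 ∨ (Gn n m 1).det = -1 := by
  have := det_anti (H := Gn n m 1) (c := 1)
    (fun i j h => by rw [Gn, of_apply, one_mul, tb_X_pow hm hd (by omega), if_neg (by omega)])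
    (fun i j h => by rw [Gn, of_apply, one_mul, tb_X_pow hm hd (by omega), if_pos h])
  rwa [one_pow] at this

theorem unit_Gn (hm : m.Monic) (hd : m.natDegree = n) {δ : R[X]} (h : IsCoprime δ m) :
    IsUnit (Gn n m δ).det := by
  obtain ⟨a, b, e⟩ := h
  have k : Gn n m δ * Mx n m a = Gn n m 1 := by
    rw [Gn_Mx hm hd]
    exact Gn_congr hm ⟨-b, by linear_combination e⟩
  have u : IsUnit (Gn n m 1).det := by
    rcases det_Gn_one hm hd with s | s <;> rw [s]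
    exacts [isUnit_one, isUnit_one.neg]
  rw [← k, det_mul] at u
  exact isUnit_of_mul_isUnit_left u

/-! ### norms -/

theorem nm_eq (hm : m.Monic) (δ : R[X]) {k : ℕ} (hk : δ.natDegree ≤ k) :
    Nm m δ = resultant m δ m.natDegree k := by
  obtain ⟨k, rfl⟩ := Nat.exists_eq_add_of_le hk
  rw [resultant_add_right_deg _ _ _ _ _ le_rfl, hm.coeff_natDegree, one_pow, one_mul, Nm]

theorem nm_congr (hm : m.Monic) {δ δ' : R[X]} (h : m ∣ δ - δ') : Nm m δ = Nm m δ' := by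
  obtain ⟨w, hw⟩ := h
  rw [nm_eq hm δ (k := δ.natDegree + δ'.natDegree + (w.natDegree + m.natDegree)) (by omega),
    nm_eq hm δ' (k := δ.natDegree + δ'.natDegree + (w.natDegree + m.natDegree)) (by omega),
    ← resultant_add_mul_right m δ' w _ _ (by omega) le_rfl, ← hw, add_sub_cancel]

theorem nm_map (hm : m.Monic) (φ : R →+* S) (δ : R[X]) :
    Nm (m.map φ) (δ.map φ) = φ (Nm m δ) := by
  nontriviality S
  rw [nm_eq (hm.map φ) _ natDegree_map_le, hm.natDegree_map, resultant_map_map, Nm]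

theorem nm_mul_left (hm : m.Monic) {m' : R[X]} (hm' : m'.Monic) (δ : R[X]) :
    Nm (m * m') δ = Nm m δ * Nm m' δ := by
  rw [Nm, hm.natDegree_mul hm', resultant_mul_left _ _ _ _ le_rfl, Nm, Nm]

theorem nm_mul (hm : m.Monic) (δ δ' : R[X]) : Nm m (δ * δ') = Nm m δ * Nm m δ' := by
  rw [nm_eq hm _ natDegree_mul_le, resultant_mul_right _ _ _ _ le_rfl, Nm, Nm]

theorem nm_C (c : R) : Nm m (C c) = c ^ m.natDegree := by
  rw [Nm, natDegree_C, resultant_C_zero_right]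

theorem nm_unit (hm : m.Monic) (δ : R[X]) : IsUnit (Nm m δ) ↔ IsCoprime δ m :=
  (isUnit_resultant_iff_isCoprime hm).trans isCoprime_comm

theorem nm_lin (a : R) (δ : R[X]) : Nm (X - C a) δ = δ.eval a := by
  nontriviality R
  rw [Nm, natDegree_X_sub_C, resultant_X_sub_C_left _ _ _ le_rfl]

end ring

section field
variable {K L : Type} [Field K] [Field L]

/-- the monic multiple of an integral polynomial -/
abbrev mf (f : ℤ[X]) (K : Type) [Field K] : K[X] := mo (zK f K)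

/-- the Gram matrix of the unimodular form -/
def GA (g : ℕ) (f : ℤ[X]) (δ : K[X]) : Mat g K :=
  Gn (2 * g + 2) (mf f K) (C (f.leadingCoeff : K)⁻¹ * δ)

/-- the Gram matrix of the second form -/
def GS (g : ℕ) (f : ℤ[X]) (δ : K[X]) : Mat g K := Gn (2 * g + 2) (mf f K) (δ * X)

variable {f : ℤ[X]}

theorem zK_lc (h : (f.leadingCoeff : K) ≠ 0) : (zK f K).leadingCoeff = f.leadingCoeff :=
  leadingCoeff_map_of_leadingCoeff_ne_zero _ h

theorem zK_deg (h : (f.leadingCoeff : K) ≠ 0) : (zK f K).natDegree = f.natDegree :=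
  natDegree_map_of_leadingCoeff_ne_zero _ h

theorem mf_eq (h : (f.leadingCoeff : K) ≠ 0) : mf f K = C (f.leadingCoeff : K)⁻¹ * zK f K := by
  rw [mf, mo, zK_lc h]

theorem mf_mul (h : (f.leadingCoeff : K) ≠ 0) : C (f.leadingCoeff : K) * mf f K = zK f K := by
  rw [mf_eq h, ← mul_assoc, ← C_mul, mul_inv_cancel₀ h, C_1, one_mul]

theorem mf_monic (h : (f.leadingCoeff : K) ≠ 0) : (mf f K).Monic := by
  rw [Monic, mf_eq h, leadingCoeff_mul, leadingCoeff_C, zK_lc h, inv_mul_cancel₀ h]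

theorem mf_deg (h : (f.leadingCoeff : K) ≠ 0) : (mf f K).natDegree = f.natDegree := by
  rw [mf_eq h, natDegree_C_mul (inv_ne_zero h), zK_deg h]

theorem mf_dvd (h : (f.leadingCoeff : K) ≠ 0) {P : K[X]} : mf f K ∣ P ↔ zK f K ∣ P := by
  rw [mf_eq h, C_mul_dvd (inv_ne_zero h)]

theorem mf_coprime (h : (f.leadingCoeff : K) ≠ 0) {P : K[X]} :
    IsCoprime P (mf f K) ↔ IsCoprime P (zK f K) := by
  rw [mf_eq h, isCoprime_mul_unit_left_right (isUnit_C.2 (inv_ne_zero h).isUnit)]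

theorem mf_map (h : (f.leadingCoeff : K) ≠ 0) (φ : K →+* L) : (mf f K).map φ = mf f L := by
  have h' : (f.leadingCoeff : L) ≠ 0 := by rw [← map_intCast φ]; exact (map_ne_zero φ).2 h
  rw [mf_eq h, mf_eq h', Polynomial.map_mul, map_C, zK_map, map_inv₀, map_intCast]

theorem GA_map {g : ℕ} (h : (f.leadingCoeff : K) ≠ 0) (φ : K →+* L) (δ : K[X]) :
    GA g f (δ.map φ) = (GA g f δ).map φ := by
  rw [GA, GA, ← Gn_map (mf_monic h), mf_map h, Polynomial.map_mul, map_C, map_inv₀ φ, map_intCast φ]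

theorem GS_map {g : ℕ} (h : (f.leadingCoeff : K) ≠ 0) (φ : K →+* L) (δ : K[X]) :
    GS g f (δ.map φ) = (GS g f δ).map φ := by
  rw [GS, GS, ← Gn_map (mf_monic h), mf_map h, Polynomial.map_mul, map_X]

end field

section padic
variable {p : ℕ} [Fact p.Prime] {f : ℤ[X]}

theorem unit_of {x : ℤ_[p]} (h : PadicInt.toZMod x ≠ 0) : IsUnit x := by
  by_contra k
  exact h (RingHom.mem_ker.1 (PadicInt.ker_toZMod (p := p) ▸ (IsLocalRing.mem_maximalIdeal x).2 k))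

/-- coprime modulo `p` to a monic polynomial -/
theorem cop_of {m w : ℤ_[p][X]} (hm : m.Monic) (h : IsCoprime (rq p w) (rq p m)) :
    IsCoprime w m :=
  (nm_unit hm w).1 (unit_of (by
    rw [← nm_map hm]; exact ((nm_unit (hm.map _) _).2 h).ne_zero))

theorem lift (n : ℕ) (P : (ZMod n)[X]) : ∃ Q : ℤ[X], zK Q (ZMod n) = P :=
  Polynomial.map_surjective _ (ZMod.ringHom_surjective _) P

theorem dvd_of_zK {n : ℕ} {P : ℤ[X]} (h : zK P (ZMod n) = 0) : C (n : ℤ) ∣ P :=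
  (C_dvd_iff_dvd_coeff _ _).2 fun i => (ZMod.intCast_zmod_eq_zero_iff_dvd _ _).1 (by
    simpa using congrArg (coeff · i) h)

theorem unit_lc (h : ¬(p : ℤ) ∣ f.leadingCoeff) : IsUnit (f.leadingCoeff : ℤ_[p]) :=
  PadicInt.isUnit_iff.2 (le_antisymm (PadicInt.norm_le_one _)
    (not_lt.1 fun k => h ((PadicInt.norm_int_lt_one_iff_dvd _).1 k)))

theorem lc_ne (h : ¬(p : ℤ) ∣ f.leadingCoeff) : (f.leadingCoeff : ZMod p) ≠ 0 :=
  fun k => h ((ZMod.intCast_zmod_eq_zero_iff_dvd _ _).1 k)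

/-- the monic multiple at a prime that does not divide the leading coefficient -/
theorem mon (h : ¬(p : ℤ) ∣ f.leadingCoeff) : ∃ (m : ℤ_[p][X]) (u : ℤ_[p]), m.Monic ∧
    m.natDegree = f.natDegree ∧ iq p m = mf f ℚ_[p] ∧ rq p m = mf f (ZMod p) ∧
    (u : ℚ_[p]) = (f.leadingCoeff : ℚ_[p])⁻¹ ∧
    PadicInt.toZMod u = (f.leadingCoeff : ZMod p)⁻¹ ∧ u * f.leadingCoeff = 1 := by
  obtain ⟨u, hu⟩ := (unit_lc h).exists_left_inv
  have h0 : (f.leadingCoeff : ℚ_[p]) ≠ 0 := Int.cast_ne_zero.2 fun k => h (k ▸ dvd_zero _)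
  have e1 : (u : ℚ_[p]) = (f.leadingCoeff : ℚ_[p])⁻¹ :=
    eq_inv_of_mul_eq_one_left (by exact_mod_cast congrArg ((↑) : ℤ_[p] → ℚ_[p]) hu)
  have e2 : PadicInt.toZMod u = (f.leadingCoeff : ZMod p)⁻¹ :=
    eq_inv_of_mul_eq_one_left (by simpa using congrArg PadicInt.toZMod hu)
  have e3 : iq p (C u * zK f ℤ_[p]) = mf f ℚ_[p] := by
    rw [mf_eq h0, iq, Polynomial.map_mul, map_C, zK_map, ← e1]; rfl
  have inj : Function.Injective (PadicInt.Coe.ringHom (p := p)) := Subtype.val_injective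
  refine ⟨C u * zK f ℤ_[p], u, monic_of_injective inj (by
    have := mf_monic h0; rwa [← e3] at this), ?_, e3, ?_, e1, e2, hu⟩
  · rw [← natDegree_map_eq_of_injective inj, ← mf_deg h0, ← e3]
  · rw [mf_eq (lc_ne h), rq, Polynomial.map_mul, map_C, zK_map, e2]

end padic

end Pool.Agent.MP_a43263_nt.VB

end
end MrgPart2

-- ======== part 3: formerly Pool.Agent.MP_a43263_nt.VB.Spec
section MrgPart3

/-! THEOREM V, part B: the bad polynomials are counted. Statements of the rows. -/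

set_option autoImplicit false

noncomputable section

namespace Pool.Agent.MP_a43263_nt.VB

open Polynomial Finset Matrix JC VV
open UV (zK iq rq Nm Nx po)

/-- the condition `St` without the operator -/
def Sw {R : Type} [CommRing R] {g : ℕ} (a : R) (A S : Mat g R) : Prop :=
  ∃ (x y : Fin (2 * g + 2) → R) (s : R), s ≠ 0 ∧ S *ᵥ x = 0 ∧ S *ᵥ y = a • A *ᵥ y ∧
    (x ⬝ᵥ A *ᵥ x) * (y ⬝ᵥ A *ᵥ y) = s ^ 2

section
variable (p : ℕ) [Fact p.Prime]

/-- a matrix over the `p`-adic integers as a matrix over the `p`-adic numbers -/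
abbrev iM {n : ℕ} (A : Matrix (Fin n) (Fin n) ℤ_[p]) : Matrix (Fin n) (Fin n) ℚ_[p] :=
  A.map PadicInt.Coe.ringHom

/-- the reduction of a matrix -/
abbrev rM {n : ℕ} (A : Matrix (Fin n) (Fin n) ℤ_[p]) : Matrix (Fin n) (Fin n) (ZMod p) :=
  A.map PadicInt.toZMod

/-- a rational matrix over the `p`-adic numbers -/
abbrev qM {n : ℕ} (A : Matrix (Fin n) (Fin n) ℚ) : Matrix (Fin n) (Fin n) ℚ_[p] :=
  A.map (algebraMap ℚ ℚ_[p])

/-- the columns of `P` span a good lattice at `p` -/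
def Loc (g : ℕ) (f : ℤ[X]) (b : Prop) (δ : ℚ_[p][X]) (P : Mat g ℚ_[p]) : Prop :=
  ∃ A S : Mat g ℤ_[p], iM p A = Pᵀ * GA g f δ * P ∧ iM p S = Pᵀ * GS g f δ * P ∧ IsUnit A.det ∧
    ((p : ℤ) ∣ f.leadingCoeff → ∀ i j k l, (p : ℤ_[p]) ∣ S i j * S k l - S i l * S k j) ∧
    (b → Sw (f.leadingCoeff : ZMod p) (rM p A) (rM p S))

/-- lattice vectors of small degree are integral and divisible by `ψ` modulo `p` -/
def Low (g : ℕ) (ψ : (ZMod p)[X]) (P : Mat g ℚ_[p]) : Prop :=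
  ∀ v : Fin (2 * g + 2) → ℤ_[p], (po (P *ᵥ fun i => (v i : ℚ_[p]))).degree < (g + 1 : ℕ) →
    ∃ w : ℤ_[p][X], po (P *ᵥ fun i => (v i : ℚ_[p])) = iq p w ∧ ψ ∣ rq p w

/-- `δ x ^ 2` is a unit -/
def E1 (f : ℤ[X]) (b : Prop) (δ x : ℚ_[p][X]) : Prop := ∃ w : ℤ_[p][X],
  zK f ℚ_[p] ∣ δ * x ^ 2 - iq p w ∧ IsCoprime (rq p w) (zK f (ZMod p)) ∧
    (b → IsSquare ((rq p w).eval 0 * (rq p w).eval 1))

end

/-- the polynomial of a lattice vector -/
def pz {g : ℕ} (γ : Mat g ℚ) (x : Fin (2 * g + 2) → ℤ) : ℚ[X] := po (γ *ᵥ fun i => (x i : ℚ))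

/-- the matrices of the form and of the operator in the basis `γ` -/
def Lk (g : ℕ) (f : ℤ[X]) (δ : ℚ[X]) (γ : Mat g ℚ) (A T : Mat g ℤ) : Prop := γ.det ≠ 0 ∧
  ∀ (k : ℕ) (x y : Fin (2 * g + 2) → ℤ), ((x ⬝ᵥ (A * T ^ k) *ᵥ y : ℤ) : ℚ) =
    tb (2 * g + 2) (mf f ℚ) (C (f.leadingCoeff : ℚ)⁻¹ * δ *
      (C (f.leadingCoeff : ℚ) * X) ^ k * pz γ x * pz γ y)

/-- the hypotheses of `Cusp` -/
structure Ds {g : ℕ} (A T : Mat g ℤ) (e : Fin (g + 1) → Fin (2 * g + 2) → ℤ) : Prop where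
  ind : LinearIndependent ℤ e
  iso : ∀ i j, e i ⬝ᵥ A *ᵥ e j = 0
  rk : ∀ i j k l, (e i ⬝ᵥ (A * T) *ᵥ e j) * (e k ⬝ᵥ (A * T) *ᵥ e l) =
    (e i ⬝ᵥ (A * T) *ᵥ e l) * (e k ⬝ᵥ (A * T) *ᵥ e j)

/-- the coefficients of the vectors `e` -/
def cm {g : ℕ} (γ : Mat g ℚ) (e : Fin (g + 1) → Fin (2 * g + 2) → ℤ) :
    Matrix (Fin (g + 1)) (Fin (g + 1)) ℚ := Matrix.of fun i k => (pz γ (e i)).coeff k.1

/-! ### the rows -/

/-- the characteristic polynomial -/
def CHStmt : Prop := ∀ (K : Type) [Field K] (n : ℕ) (f : ℤ[X]), f.natDegree = n → 0 < n →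
  (f.leadingCoeff : K) ≠ 0 →
  (Mx n (mf f K) (C (f.leadingCoeff : K) * X)).charpoly = zK (nz f) K

/-- strong approximation, one prime -/
def GL1Stmt : Prop := ∀ (n p : ℕ) [Fact p.Prime] (P : Matrix (Fin n) (Fin n) ℚ_[p]), P.det ≠ 0 →
  ∃ γ : Matrix (Fin n) (Fin n) ℚ, (∃ U, IsUnit (det U) ∧ qM p γ = P * iM p U) ∧
    ∀ (l : ℕ) [Fact l.Prime], l ≠ p → ∃ U, IsUnit (det U) ∧ qM l γ = iM l U

/-- strong approximation -/
def GLNStmt : Prop := ∀ (n : ℕ) (N : ℤ)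
  (R : ∀ (p : ℕ) [Fact p.Prime], Matrix (Fin n) (Fin n) ℚ_[p] → Prop), N ≠ 0 →
  (∀ (p : ℕ) [Fact p.Prime], ∃ P, P.det ≠ 0 ∧ R p P ∧ (¬(p : ℤ) ∣ N → P = 1)) →
  ∃ γ : Matrix (Fin n) (Fin n) ℚ, ∀ (p : ℕ) [Fact p.Prime],
    ∃ P U, R p P ∧ IsUnit (det U) ∧ qM p γ = P * iM p U

/-- change of the basis -/
def INVStmt : Prop := ∀ (p : ℕ) [Fact p.Prime] (g : ℕ) (P : Mat g ℚ_[p]) (U : Mat g ℤ_[p]),
  IsUnit U.det → (∀ f b δ, Loc p g f b δ P → Loc p g f b δ (P * iM p U)) ∧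
    ∀ ψ, Low p g ψ P → Low p g ψ (P * iM p U)

/-- the global lattice -/
def ASMStmt : Prop := ∀ (g : ℕ) (f : ℤ[X]) (Q : Finset ℕ) (δ : ℚ[X]) (γ : Mat g ℚ),
  f.natDegree = 2 * g + 2 → Squarefree f.leadingCoeff → (∀ q ∈ Q, q.Prime) →
  (∀ (p : ℕ) [Fact p.Prime], Loc p g f (p ∈ Q) (fK δ ℚ_[p]) (qM p γ)) →
  ∃ A T : Mat g ℤ, Rep g f.leadingCoeff (nz f) A T ∧
    (∀ q ∈ Q, St (f.leadingCoeff : ZMod q) (zK (nz f) (ZMod q)) (mK A (ZMod q))
      (mK (A * T) (ZMod q))) ∧ Lk g f δ γ A T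

/-- the condition at a prime of `Q` -/
def STQStmt : Prop := ∀ (q : ℕ) [Fact q.Prime] (g : ℕ) (f : ℤ[X]) (w : (ZMod q)[X]), 1 ≤ g →
  f.natDegree = 2 * g + 2 → q % 4 = 1 → Ty g q f → IsCoprime w (zK f (ZMod q)) →
  IsSquare (w.eval 0 * w.eval 1) → Sw (f.leadingCoeff : ZMod q) (GA g f w) (GS g f w)

/-- primes that do not divide the leading coefficient -/
def LOC1Stmt : Prop := ∀ (p : ℕ) [Fact p.Prime] (g : ℕ) (f : ℤ[X]) (b : Prop) (δ x : ℚ_[p][X]),
  1 ≤ g → f.natDegree = 2 * g + 2 → ¬(p : ℤ) ∣ f.leadingCoeff → (b → p % 4 = 1 ∧ Ty g p f) →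
  E1 p f b δ x → Loc p g f b δ (Mx (2 * g + 2) (mf f ℚ_[p]) x)

/-- the value at the root of negative valuation -/
def PARStmt : Prop := ∀ (p : ℕ) [Fact p.Prime] (g : ℕ) (f : ℤ[X]) (e : ℤ_[p]) (F : ℤ_[p][X])
  (δ x : ℚ_[p][X]), f.natDegree = 2 * g + 2 → Squarefree f.leadingCoeff →
  (p : ℤ) ∣ f.leadingCoeff → VA.Hi p g f e F → IsCoprime δ (zK f ℚ_[p]) →
  IsSquare (Nm (mf f ℚ_[p]) δ) → E1 p f False δ x →
  ∃ (c : ℚ_[p]) (u : ℤ_[p]), IsUnit u ∧
    c ^ 2 * (f.leadingCoeff : ℚ_[p])⁻¹ * (δ * iq p F).eval (-(e : ℚ_[p]) / f.leadingCoeff) = u ∧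
    ((∃ r : ℤ_[p], IsUnit r ∧ δ = C (r : ℚ_[p])) → ∃ d : ℤ_[p], c = d)

/-- primes that divide the leading coefficient -/
def LOC2Stmt : Prop := ∀ (p : ℕ) [Fact p.Prime] (g : ℕ) (f : ℤ[X]) (e : ℤ_[p]) (F : ℤ_[p][X])
  (δ x : ℚ_[p][X]) (c : ℚ_[p]) (u : ℤ_[p]), f.natDegree = 2 * g + 2 →
  (p : ℤ) ∣ f.leadingCoeff → VA.Hi p g f e F → E1 p f False δ x → IsUnit u →
  c ^ 2 * (f.leadingCoeff : ℚ_[p])⁻¹ * (δ * iq p F).eval (-(e : ℚ_[p]) / f.leadingCoeff) = u →
  ∃ P, Loc p g f False δ P ∧ (x = 1 → (∃ d : ℤ_[p], c = d) → Low p g 1 P)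

/-- triangular bases -/
def TRIStmt : Prop := ∀ (p : ℕ) [Fact p.Prime] (g : ℕ) (f : ℤ[X]) (r : ℚ_[p]) (ψ : (ZMod p)[X])
  (u : Fin (2 * g + 2) → ℚ_[p][X]), f.natDegree = 2 * g + 2 → ¬(p : ℤ) ∣ f.leadingCoeff →
  (∀ j, (u j).degree = (j.1 : ℕ)) →
  (∀ i j, ∃ w : ℤ_[p][X], zK f ℚ_[p] ∣ C r * u i * u j - iq p w) →
  ‖r ^ (g + 1) * ∏ j, (u j).leadingCoeff‖ = 1 →
  (∀ j, j.1 < g + 1 → ∃ w : ℤ_[p][X], u j = iq p w ∧ ψ ∣ rq p w) →
  ∃ P, Loc p g f False (C r) P ∧ Low p g ψ P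

/-- the prime where the order is not maximal -/
def LOCNStmt : Prop := ∀ (p : ℕ) [Fact p.Prime] (g : ℕ) (f : ℤ[X]), f.natDegree = 2 * g + 2 →
  p ≠ 2 → ¬(p : ℤ) ∣ f.leadingCoeff → Nx p f →
  ∃ P ψ, Loc p g f False (C 1) P ∧ Low p g ψ P ∧ 0 < ψ.natDegree

/-- the prime where `f` is a constant times a square -/
def LOCSStmt : Prop := ∀ (p : ℕ) [Fact p.Prime] (g : ℕ) (f : ℤ[X]), f.natDegree = 2 * g + 2 →
  ¬(p : ℤ) ∣ f.leadingCoeff → Sx p f → ∃ P, Loc p g f False (C (p : ℚ_[p])⁻¹) P ∧ Low p g 0 P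

/-- scaling -/
def SCALEStmt : Prop := ∀ (g : ℕ) (f : ℤ[X]) (Q : Finset ℕ), f.natDegree = 2 * g + 2 →
  ¬Str Q f → ∃ (δ : ℚ[X]) (N : ℤ), N ≠ 0 ∧ IsCoprime δ (zK f ℚ) ∧ IsSquare (Nm (mf f ℚ) δ) ∧
    ¬Sqc (zK f ℚ) δ ∧ ∀ (p : ℕ) [Fact p.Prime],
      ∃ x, E1 p f (p ∈ Q) (fK δ ℚ_[p]) x ∧ (¬(p : ℤ) ∣ N → x = 1)

/-- distinguished subspaces -/
def UNIQStmt : Prop := ∀ (K : Type) [Field K] (g : ℕ) (m δ : K[X]) (u : Fin (g + 1) → K[X]),
  m.Monic → m.natDegree = 2 * g + 2 → Irreducible m → IsCoprime δ m →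
  (∀ z : Fin (g + 1) → K, m ∣ ∑ i, C (z i) * u i → z = 0) →
  (∀ i j, tb (2 * g + 2) m (δ * u i * u j) = 0) →
  (∀ i j k l, tb (2 * g + 2) m (δ * X * u i * u j) * tb (2 * g + 2) m (δ * X * u k * u l) =
    tb (2 * g + 2) m (δ * X * u i * u l) * tb (2 * g + 2) m (δ * X * u k * u j)) →
  ∃ (x : K[X]) (c : K), ¬m ∣ x ∧ m ∣ δ * x ^ 2 - C c ∧
    ∀ i, ∃ z : K[X], z.degree < (g + 1 : ℕ) ∧ m ∣ u i - x * z

/-- no quadratic subfield -/
def NOQStmt : Prop := ∀ (g : ℕ) (f : ℤ[X]) (x : ℚ[X]) (c : ℚ), Fam g f →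
  zK f ℚ ∣ x ^ 2 - C c → ∃ t : ℚ, zK f ℚ ∣ x - C t

/-- distinguished subspaces of the lattice -/
def DSQStmt : Prop := ∀ (g : ℕ) (f : ℤ[X]) (δ : ℚ[X]) (γ : Mat g ℚ) (A T : Mat g ℤ)
  (e : Fin (g + 1) → Fin (2 * g + 2) → ℤ), Fam g f → IsCoprime δ (zK f ℚ) → Lk g f δ γ A T →
  Ds A T e → Sqc (zK f ℚ) δ ∧
    ((∃ r : ℚ, δ = C r) → ∀ i, (pz γ (e i)).degree < (g + 1 : ℕ))

/-- the determinant -/
def DETStmt : Prop := ∀ (g : ℕ) (f : ℤ[X]) (r : ℚ) (γ : Mat g ℚ) (A T : Mat g ℤ)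
  (e : Fin (g + 1) → Fin (2 * g + 2) → ℤ), f.natDegree = 2 * g + 2 → Lk g f (C r) γ A T →
  LinearIndependent ℤ e → (∀ i, (pz γ (e i)).degree < (g + 1 : ℕ)) → (cm γ e).det ≠ 0 ∧
  |(((Matrix.of fun i j => e i ⬝ᵥ (A * T ^ (g + 1)) *ᵥ e j).det : ℤ) : ℚ)| =
    |r| ^ (g + 1) * |(f.leadingCoeff : ℚ)| ^ (g * (g + 1)) * (cm γ e).det ^ 2

/-- the coefficients are integers -/
def INTCStmt : Prop := ∀ (p : ℕ) [Fact p.Prime] (g : ℕ) (γ : Mat g ℚ) (ψ : (ZMod p)[X])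
  (e : Fin (g + 1) → Fin (2 * g + 2) → ℤ), (∀ i, (pz γ (e i)).degree < (g + 1 : ℕ)) →
  (∀ (l : ℕ) [Fact l.Prime], ∃ φ, Low l g φ (qM l γ)) → Low p g ψ (qM p γ) →
  ∃ d : ℤ, (cm γ e).det = d ∧ (0 < ψ.natDegree → (p : ℤ) ∣ d) ∧ (ψ = 0 → (p : ℤ) ^ (g + 1) ∣ d)

end Pool.Agent.MP_a43263_nt.VB

end
end MrgPart3

-- ======== part 4: formerly Pool.Agent.MP_a43263_nt.VB.Loc2
section MrgPart4

/-! THEOREM V, part B, row LOC2: the lattice at a prime that divides the leading coefficient. -/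

set_option autoImplicit false

noncomputable section

namespace Pool.Agent.MP_a43263_nt.VB

open Polynomial Finset Matrix JC VV
open UV (zK iq rq Nm Nx po po_of_lt dvd_sub_mod iq_zK rq_zK)

namespace Loc2

section ring
variable {R S : Type} [CommRing R] [CommRing S] {N : ℕ}

/-- a block matrix with a last block of size one -/
def blk (G : Matrix (Fin N) (Fin N) R) (a : R) : Matrix (Fin (N + 1)) (Fin (N + 1)) R :=
  Matrix.of fun i j => Fin.lastCases (motive := fun _ => R)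
    (Fin.lastCases (motive := fun _ => R) a (fun _ => 0) j)
    (fun i => Fin.lastCases (motive := fun _ => R) 0 (fun j => G i j) j) i

variable (G : Matrix (Fin N) (Fin N) R) (a : R)

theorem blk_ll : blk G a (Fin.last N) (Fin.last N) = a := by simp [blk]
theorem blk_lc (j : Fin N) : blk G a (Fin.last N) j.castSucc = 0 := by simp [blk]
theorem blk_cl (i : Fin N) : blk G a i.castSucc (Fin.last N) = 0 := by simp [blk]
theorem blk_cc (i j : Fin N) : blk G a i.castSucc j.castSucc = G i j := by simp [blk]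

theorem blk_det : (blk G a).det = a * G.det := by
  rw [det_succ_row _ (Fin.last N), Fin.sum_univ_castSucc, sum_eq_zero fun j _ => by
    rw [blk_lc, mul_zero, zero_mul], zero_add, blk_ll, Fin.succAbove_last,
    show (blk G a).submatrix Fin.castSucc Fin.castSucc = G from by
      ext i j; exact blk_cc G a i j, ← two_mul, pow_mul]
  simp

theorem blk_map (φ : R →+* S) : (blk G a).map φ = blk (G.map φ) (φ a) := by
  ext i j
  induction i using Fin.lastCases <;> induction j using Fin.lastCases <;>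
    simp [blk_ll, blk_lc, blk_cl, blk_cc]

theorem blk_minor {q : R} (h : ∀ i j, q ∣ G i j) (i j k l : Fin (N + 1)) :
    q ∣ blk G a i j * blk G a k l - blk G a i l * blk G a k j := by
  have e : ∀ i j, ¬(i = Fin.last N ∧ j = Fin.last N) → q ∣ blk G a i j := fun i j => by
    induction i using Fin.lastCases <;> induction j using Fin.lastCases <;> intro c
    · exact absurd ⟨rfl, rfl⟩ c
    · rw [blk_lc]; exact dvd_zero _
    · rw [blk_cl]; exact dvd_zero _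
    · rw [blk_cc]; exact h _ _
  by_cases c : i = Fin.last N ∧ j = Fin.last N ∧ k = Fin.last N ∧ l = Fin.last N
  · obtain ⟨rfl, rfl, rfl, rfl⟩ := c
    rw [sub_self]; exact dvd_zero _
  refine dvd_sub ?_ ?_
  · by_cases c1 : i = Fin.last N ∧ j = Fin.last N
    · exact (e k l fun c2 => c ⟨c1.1, c1.2, c2.1, c2.2⟩).mul_left _
    · exact (e i j c1).mul_right _
  · by_cases c1 : i = Fin.last N ∧ l = Fin.last N
    · exact (e k j fun c2 => c ⟨c1.1, c2.2, c2.1, c1.2⟩).mul_left _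
    · exact (e i l c1).mul_right _

theorem po_mulVec {n : ℕ} (P : Matrix (Fin n) (Fin n) R) (v : Fin n → R) :
    po (P *ᵥ v) = ∑ j, C (v j) * po fun a => P a j := by
  simp only [po, mulVec, dotProduct, map_sum, sum_mul, mul_sum, C_mul]
  rw [sum_comm]
  exact sum_congr rfl fun _ _ => sum_congr rfl fun _ _ => by ring

/-- the basis -/
def bas (N : ℕ) (l F x : R[X]) (c : R) (j : Fin (N + 1)) : R[X] :=
  Fin.lastCases (motive := fun _ => R[X]) (C c * F) (fun j => l * ((x * X ^ j.1) %ₘ F)) j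

variable {l F x : R[X]} {c : R}

theorem bas_l : bas N l F x c (Fin.last N) = C c * F := by simp [bas]
theorem bas_c (j : Fin N) : bas N l F x c j.castSucc = l * ((x * X ^ j.1) %ₘ F) := by simp [bas]

theorem bas_map (hF : F.Monic) (φ : R →+* S) (j : Fin (N + 1)) :
    (bas N l F x c j).map φ = bas N (l.map φ) (F.map φ) (x.map φ) (φ c) j := by
  induction j using Fin.lastCases
  · rw [bas_l, bas_l, Polynomial.map_mul, map_C]
  · rw [bas_c, bas_c, Polynomial.map_mul, map_modByMonic φ hF, Polynomial.map_mul,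
      Polynomial.map_pow, map_X]

theorem bas_deg (hF : F.Monic) (hd : F.natDegree = N) (hl : l.degree ≤ 1) (j : Fin (N + 1)) :
    (bas N l F x c j).degree < (N + 1 : ℕ) := by
  nontriviality R
  induction j using Fin.lastCases with
  | last =>
    rw [bas_l, ← smul_eq_C_mul]
    refine (degree_smul_le _ _).trans_lt ?_
    rw [degree_eq_natDegree hF.ne_zero, hd]
    exact_mod_cast Nat.lt_succ_self N
  | cast j =>
    have k : ((x * X ^ j.1) %ₘ F).degree < N := by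
      have := degree_modByMonic_lt (x * X ^ j.1) hF
      rwa [degree_eq_natDegree hF.ne_zero, hd] at this
    rw [bas_c]
    refine (degree_mul_le _ _).trans_lt ((add_le_add_left hl _).trans_lt ?_)
    rw [Nat.cast_succ N, add_comm]
    exact WithBot.add_lt_add_right (by simp) k

/-- the matrix of the basis -/
def bm (N : ℕ) (l F x : R[X]) (c : R) : Matrix (Fin (N + 1)) (Fin (N + 1)) R :=
  Matrix.of fun a j => (bas N l F x c j).coeff a.1

theorem po_bm (hF : F.Monic) (hd : F.natDegree = N) (hl : l.degree ≤ 1) (j : Fin (N + 1)) :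
    (po fun a => bm N l F x c a j) = bas N l F x c j := po_of_lt (bas_deg hF hd hl j)

/-- the Gram matrix in the basis -/
theorem gram (hF : F.Monic) (hd : F.natDegree = N) (hN : 0 < N) (t al : R) (δ : R[X]) :
    (bm N (C t * (X - C al)) F x c)ᵀ * Gn (N + 1) ((X - C al) * F) δ *
        bm N (C t * (X - C al)) F x c =
      blk (Gn N F (C t * δ * x ^ 2 * (C t * (X - C al)))) (c ^ 2 * (δ * F).eval al) := by
  have hl : (C t * (X - C al)).degree ≤ 1 := by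
    rw [← smul_eq_C_mul]
    exact (degree_smul_le _ _).trans (degree_X_sub_C_le al)
  have hm := (monic_X_sub_C al).mul hF
  ext i j
  rw [Gn_entry, po_bm hF hd hl, po_bm hF hd hl]
  induction i using Fin.lastCases with
  | last =>
    induction j using Fin.lastCases with
    | last =>
      rw [bas_l, blk_ll, show δ * (C c * F) * (C c * F) = F * (C (c ^ 2) * (δ * F)) by
        rw [C_pow]; ring, tb_root hF (by rw [hd]), eval_mul, eval_C]
    | cast j =>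
      rw [bas_l, bas_c, blk_lc]
      exact tb_dvd hm ⟨δ * C c * C t * ((x * X ^ j.1) %ₘ F), by ring⟩
  | cast i =>
    induction j using Fin.lastCases with
    | last =>
      rw [bas_l, bas_c, blk_cl]
      exact tb_dvd hm ⟨δ * C c * C t * ((x * X ^ i.1) %ₘ F), by ring⟩
    | cast j =>
      have a := dvd_sub_mod (f := F) (x * X ^ i.1)
      have b := dvd_sub_mod (f := F) (x * X ^ j.1)
      rw [bas_c, bas_c, blk_cc, Gn, of_apply, show ∀ u v : R[X],
        δ * (C t * (X - C al) * u) * (C t * (X - C al) * v) =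
          (X - C al) * (C t * δ * (C t * (X - C al)) * u * v) from fun _ _ => by ring,
        tb_fac hF hd hN]
      refine tb_congr hF ?_
      rw [pow_add, show ∀ y u v u' v' : R[X], C t * δ * y * u' * v' - C t * δ * x ^ 2 * y * (u * v) =
        -(C t * δ * y * v') * (x * u - u') - C t * δ * y * (x * u) * (x * v - v') from
          fun _ _ _ _ _ => by ring]
      exact dvd_sub (a.mul_left _) (b.mul_left _)

end ring

end Loc2

open Loc2 in
theorem loc2 : LOC2Stmt := by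
  intro p _ g f e F δ x c u hf hp H ⟨w, hw, hc, _⟩ hu hcu
  have h0 : (f.leadingCoeff : ℚ_[p]) ≠ 0 := Int.cast_ne_zero.2 fun k => by
    rw [leadingCoeff_eq_zero.1 k, natDegree_zero] at hf; omega
  set t : ℚ_[p] := ((f.leadingCoeff : ℤ) : ℚ_[p]) with ht
  set al : ℚ_[p] := -(e : ℚ_[p]) / t with hal
  set l : ℤ_[p][X] := C (f.leadingCoeff : ℤ_[p]) * X + C e with hl
  have hF : (iq p F).Monic := H.monic.map _
  have hd : (iq p F).natDegree = 2 * g + 1 := by rw [H.monic.natDegree_map, H.deg]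
  have ta : t * al = -(e : ℚ_[p]) := by rw [hal]; field_simp
  have el : iq p l = C t * (X - C al) := by
    rw [mul_sub, ← C_mul, ta, C_neg, sub_neg_eq_add, hl, iq, Polynomial.map_add,
      Polynomial.map_mul, map_C, map_C, map_X, map_intCast]
    rfl
  have ez : zK f ℚ_[p] = C t * (X - C al) * iq p F := by
    rw [← iq_zK, H.eq, ← el]; exact Polynomial.map_mul _
  have em : mf f ℚ_[p] = (X - C al) * iq p F := by
    rw [mf_eq h0, ez, mul_assoc, ← mul_assoc, ← C_mul, inv_mul_cancel₀ h0, C_1, one_mul]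
  have hw' : iq p F ∣ δ * x ^ 2 - iq p w := (Dvd.intro_left _ ez.symm).trans hw
  have tt : C t * C t⁻¹ = (1 : ℚ_[p][X]) := by rw [← C_mul, mul_inv_cancel₀ h0, C_1]
  have p0 : PadicInt.toZMod (f.leadingCoeff : ℤ_[p]) = 0 := by
    rw [map_intCast]; exact (ZMod.intCast_zmod_eq_zero_iff_dvd _ _).2 hp
  have rl : rq p l = C (PadicInt.toZMod e) := by
    rw [hl, rq, Polynomial.map_add, Polynomial.map_mul, map_C, map_C, p0, C_0, zero_mul, zero_add]
  have cop : IsCoprime (w * l) F := by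
    refine cop_of H.monic ?_
    rw [← rq_zK, H.eq, rq, rq, Polynomial.map_mul] at hc
    rw [rq, Polynomial.map_mul]
    refine hc.of_mul_right_right.mul_left ?_
    rw [show l.map PadicInt.toZMod = _ from rl]
    obtain ⟨v, hv⟩ := (isUnit_C.2 (H.unit.map PadicInt.toZMod)).exists_left_inv
    exact ⟨v, 0, by rw [hv, zero_mul, add_zero]⟩
  refine ⟨bm (2 * g + 1) (C t * (X - C al)) (iq p F) x c,
    ⟨blk (Gn (2 * g + 1) F (w * l)) u,
      blk (Gn (2 * g + 1) F (C (f.leadingCoeff : ℤ_[p]) * (w * l * X))) (-e * u), ?_, ?_, ?_,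
      fun _ => blk_minor _ _ fun i j => ?_, False.elim⟩, ?_⟩
  · rw [GA, em]
    refine (blk_map _ _ _).trans (Eq.trans ?_ (gram hF hd (by omega) t al _).symm)
    congr 1
    · rw [← Gn_map H.monic]
      refine Gn_congr hF ?_
      rw [Polynomial.map_mul, show l.map PadicInt.Coe.ringHom = _ from el, ← mul_assoc (C t), tt,
        one_mul, ← sub_mul, ← neg_sub]
      exact (hw'.neg_right).mul_right _
    · rw [mul_assoc (C _), eval_mul, eval_C, ← mul_assoc, hcu]; rfl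
  · rw [GS, em]
    refine (blk_map _ _ _).trans (Eq.trans ?_ (gram hF hd (by omega) t al _).symm)
    congr 1
    · rw [← Gn_map H.monic]
      refine Gn_congr hF ?_
      rw [Polynomial.map_mul, Polynomial.map_mul, Polynomial.map_mul,
        show l.map PadicInt.Coe.ringHom = _ from el, map_C, map_X, map_intCast, ← ht,
        show ∀ y v : ℚ_[p][X], C t * (v * y * X) - C t * (δ * X) * x ^ 2 * y =
          -(C t * X * y) * (δ * x ^ 2 - v) from fun _ _ => by ring]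
      exact hw'.mul_left _
    · rw [mul_right_comm δ, eval_mul (q := X), eval_X, map_mul, map_neg]
      change -(e : ℚ_[p]) * (u : ℚ_[p]) = _
      rw [← hcu, ← ta]
      field_simp
  · rw [blk_det]
    exact hu.mul (unit_Gn H.monic H.deg cop)
  · rw [Gn_C_mul, Matrix.smul_apply, smul_eq_mul]
    obtain ⟨k, hk⟩ := hp
    refine Dvd.dvd.mul_right ⟨(k : ℤ_[p]), ?_⟩ _
    rw [hk, Int.cast_mul, Int.cast_natCast]
  · rintro rfl ⟨d, rfl⟩ v _
    have hl1 : (C t * (X - C al)).degree ≤ 1 := by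
      rw [← smul_eq_C_mul]
      exact (degree_smul_le _ _).trans (degree_X_sub_C_le al)
    refine ⟨∑ j, C (v j) * bas (2 * g + 1) l F 1 d j, ?_, one_dvd _⟩
    refine (po_mulVec _ _).trans (Eq.trans (sum_congr rfl fun j _ => ?_)
      (Polynomial.map_sum _ _ _).symm)
    rw [po_bm hF hd hl1, Polynomial.map_mul, map_C, bas_map H.monic, Polynomial.map_one, ← el]
    rfl

end Pool.Agent.MP_a43263_nt.VB

end
end MrgPart4

-- ======== part 5: formerly Pool.Agent.MP_a43263_nt.VB.Uniq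
section MrgPart5

/-! THEOREM V, part B: distinguished subspaces. -/

set_option autoImplicit false

namespace Pool.Agent.MP_a43263_nt.VB

open Polynomial Module Submodule
open UV (po po_coeff po_degree dvd_sub_mod)

namespace Uniq

/-- a form of rank at most one on a span -/
theorem rk1 {K L ι : Type} [Field K] [AddCommGroup L] [Module K L] (S : L →ₗ[K] L →ₗ[K] K)
    (u : ι → L) (h : ∀ i j k l, S (u i) (u j) * S (u k) (u l) = S (u i) (u l) * S (u k) (u j)) :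
    ∃ l : L →ₗ[K] K, ∀ y ∈ span K (Set.range u), l y = 0 →
      ∀ x ∈ span K (Set.range u), S x y = 0 := by
  by_cases h0 : ∀ i j, S (u i) (u j) = 0
  · refine ⟨0, fun y hy _ x hx => ?_⟩
    exact LinearMap.eqOn_span' (f := S.flip y) (g := 0) (by
      rintro _ ⟨k, rfl⟩
      exact LinearMap.eqOn_span' (f := S (u k)) (g := 0) (by
        rintro _ ⟨l, rfl⟩
        exact h0 k l) hy) hx
  · obtain ⟨i, j, n⟩ : ∃ i j, S (u i) (u j) ≠ 0 := by simpa using h0
    refine ⟨S (u i), fun y hy e x hx => ?_⟩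
    refine LinearMap.eqOn_span' (f := S.flip y) (g := 0) ?_ hx
    rintro _ ⟨k, rfl⟩
    have : S (u i) (u j) * S (u k) y = S (u k) (u j) * S (u i) y :=
      LinearMap.eqOn_span' (f := S (u i) (u j) • S (u k)) (g := S (u k) (u j) • S (u i)) (by
        rintro _ ⟨l, rfl⟩
        exact (h i j k l).trans (mul_comm _ _)) hy
    rw [e, mul_zero] at this
    exact (mul_eq_zero.1 this).resolve_left n

/-- a distinguished subspace contains a string -/
theorem str {K L : Type} [Field K] [Field L] [Algebra K L] [FiniteDimensional K L] {g : ℕ}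
    (hn : finrank K L = 2 * g + 2) (τ : L →ₗ[K] K) {o d θ : L} (ho : τ o ≠ 0)
    (hd : d ≠ 0) (E : Submodule K L) (hE : finrank K E = g + 1)
    (h : ∀ x ∈ E, ∀ y ∈ E, τ (d * x * y) = 0) (l : L →ₗ[K] K)
    (hl : ∀ y ∈ E, l y = 0 → ∀ x ∈ E, τ (d * θ * x * y) = 0) :
    ∃ v, v ≠ 0 ∧ ∀ j ≤ g, θ ^ j * v ∈ E := by
  let B : LinearMap.BilinForm K L := ((LinearMap.mul K L).comp (LinearMap.mul K L d)).compr₂ τ
  have hB : B.Nondegenerate := ⟨fun x hx => by_contra fun n => ho (by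
    rw [← mul_inv_cancel_left₀ (mul_ne_zero hd n) o]
    exact hx _), fun y hy => by_contra fun n => ho (by
    rw [← inv_mul_cancel_right₀ n o, ← mul_inv_cancel_left₀ hd (o * y⁻¹)]
    exact hy _)⟩
  have h2 : E = B.orthogonal E := eq_of_le_of_finrank_le (fun y hy x hx => h x hx y hy) (by
    rw [LinearMap.BilinForm.finrank_orthogonal hB, hn, hE]
    omega)
  obtain ⟨v, hv, v0⟩ := (Submodule.ne_bot_iff _).1 (LinearMap.ker_ne_bot_of_finrank_lt
    (f := LinearMap.pi fun j : Fin g =>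
      l ∘ₗ LinearMap.mul K L (θ ^ j.1) ∘ₗ E.subtype) (by simp; omega))
  refine ⟨v, fun e => v0 (Subtype.ext e), fun j hj => ?_⟩
  induction j with
  | zero => simp
  | succ j ih =>
    refine h2.ge fun x hx => ?_
    have := hl _ (ih (by omega)) (congrFun hv ⟨j, by omega⟩) x hx
    rw [show d * θ * x * (θ ^ j * v) = d * x * (θ ^ (j + 1) * v) by ring] at this
    exact this

/-- the top coefficient argument -/
theorem const {K : Type} [Field K] {n : ℕ} {f P : K[X]} (hm : f.Monic) (hd : f.natDegree = n + 1)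
    (hP : ∀ k < n, tb (n + 1) f (X ^ k * P) = 0) : ∃ c, f ∣ P - C c := by
  have d := degree_modByMonic_lt P hm
  refine ⟨(P %ₘ f).coeff 0, eq_C_of_natDegree_eq_zero (p := P %ₘ f) (by_contra fun n0 => ?_) ▸
    dvd_sub_mod P⟩
  have z : P %ₘ f ≠ 0 := fun e => n0 (by rw [e, natDegree_zero])
  have b := natDegree_lt_natDegree z d
  rw [hd] at b
  have := hP (n - (P %ₘ f).natDegree) (by omega)
  rw [tb_congr hm (Q := X ^ (n - (P %ₘ f).natDegree) * (P %ₘ f))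
    (by rw [← mul_sub]; exact (dvd_sub_mod P).mul_left _), tb_of_lt hm hd (by
      rw [degree_eq_natDegree (mul_ne_zero (pow_ne_zero _ X_ne_zero) z), natDegree_X_pow_mul _ z]
      exact_mod_cast by omega), coeff_X_pow_mul', if_pos (by omega),
    show n + 1 - 1 - (n - (P %ₘ f).natDegree) = (P %ₘ f).natDegree by omega] at this
  exact z (leadingCoeff_eq_zero.1 this)

end Uniq

open AdjoinRoot in
theorem uniq : UNIQStmt := by
  intro K _ g f δ e hm hd hi hδ he h1 h2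
  have := Fact.mk hi
  have := hm.finite_adjoinRoot
  let τ := lcoeff K (2 * g + 2 - 1) ∘ₗ modByMonicHom hm
  have hτ : ∀ P, τ (mk f P) = tb (2 * g + 2) f P := fun _ => rfl
  have sm : ∀ {n : ℕ} (z : Fin n → K) (w : Fin n → K[X]),
      ∑ i, z i • mk f (w i) = mk f (∑ i, C (z i) * w i) := fun z w => by
    simp [map_sum, Algebra.smul_def]
  have li : LinearIndependent K fun i => mk f (e i) :=
    Fintype.linearIndependent_iff.2 fun z hz => congrFun (he z (mk_eq_zero.1 (sm z e ▸ hz)))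
  have hE := (finrank_span_eq_card li).trans (Fintype.card_fin (g + 1))
  have d0 : mk f δ ≠ 0 := fun k => hi.not_isUnit (hδ.isUnit_of_dvd' (mk_eq_zero.1 k) dvd_rfl)
  have iso : ∀ x ∈ span K (Set.range fun i => mk f (e i)),
      ∀ y ∈ span K (Set.range fun i => mk f (e i)), τ (mk f δ * x * y) = 0 := fun x hx y hy => by
    obtain ⟨a, rfl⟩ := (mem_span_range_iff_exists_fun K).1 hx
    obtain ⟨b, rfl⟩ := (mem_span_range_iff_exists_fun K).1 hy
    simp only [Finset.mul_sum, Finset.sum_mul, mul_smul_comm, smul_mul_assoc, map_sum, map_smul,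
      ← map_mul, hτ, h1, smul_zero, Finset.sum_const_zero]
  obtain ⟨l, hl⟩ := Uniq.rk1 (((LinearMap.mul K _).comp
    (LinearMap.mul K _ (mk f δ * root f))).compr₂ τ) (fun i => mk f (e i)) fun i j k l => by
      have := h2 i j k l
      simp only [← hτ, map_mul, mk_X] at this
      exact this
  obtain ⟨v, v0, hv⟩ := Uniq.str (θ := root f) (o := mk f (X ^ (2 * g + 1)))
    (finrank_quotient_span_eq_natDegree.trans hd) τ
    (by rw [hτ, tb_X_pow hm hd (by omega)]; simp) d0 _ hE iso l hl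
  obtain ⟨V, rfl⟩ := mk_surjective v
  obtain ⟨c, hc⟩ := Uniq.const (P := δ * V ^ 2) (n := 2 * g + 1) hm hd fun k hk => by
    rw [← hτ, ← iso _ (hv (min k g) (by omega)) _ (hv (k - min k g) (by omega))]
    simp only [map_mul, map_pow, mk_X]
    congr 1
    conv_lhs => rw [show k = min k g + (k - min k g) by omega]
    ring
  refine ⟨V, c, fun k => v0 (mk_eq_zero.2 k), hc, fun i => ?_⟩
  have sp : ∀ z : Fin (g + 1) → K, ∑ j, z j • (root f ^ j.1 * mk f V) = mk f (V * po z) := by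
    intro z
    simp only [po, map_mul, map_sum, mk_C, map_pow, mk_X, Finset.mul_sum, Algebra.smul_def,
      AdjoinRoot.algebraMap_eq]
    exact Finset.sum_congr rfl fun _ _ => by ring
  have lj : LinearIndependent K fun j : Fin (g + 1) => root f ^ j.1 * mk f V :=
    Fintype.linearIndependent_iff.2 fun z hz j => by
      rw [sp, map_mul] at hz
      rw [← po_coeff z j, eq_zero_of_dvd_of_degree_lt
        (mk_eq_zero.1 ((mul_eq_zero.1 hz).resolve_left v0)) ((po_degree z).trans (by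
          rw [degree_eq_natDegree hm.ne_zero, hd]
          exact_mod_cast by omega)), coeff_zero]
  have le : span K (Set.range fun j : Fin (g + 1) => root f ^ j.1 * mk f V) ≤
      span K (Set.range fun i => mk f (e i)) := span_le.2 (by
    rintro _ ⟨j, rfl⟩
    exact hv j (Nat.lt_succ_iff.1 j.2))
  obtain ⟨z, hz⟩ := (mem_span_range_iff_exists_fun K).1 ((eq_of_le_of_finrank_le le (by
    rw [hE, finrank_span_eq_card lj, Fintype.card_fin])).ge (subset_span ⟨i, rfl⟩))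
  exact ⟨po z, po_degree z, mk_eq_mk.1 ((sp z).symm.trans hz).symm⟩

end Pool.Agent.MP_a43263_nt.VB

end MrgPart5

-- ======== part 6: formerly Pool.Agent.MP_a43263_nt.VE.Spec
section MrgPart6

/-! THEOREM V, part E: the sieve. -/

set_option autoImplicit false

noncomputable section

namespace Pool.Agent.MP_a43263_nt.VE

open Polynomial Finset Filter JC VV
open UV (zK Nx BXCStmt IRRStmt)

/-- a box of negative definite polynomials -/
def Sb {n : ℕ} (k : ℕ) (c : Fin n → ℤ) : Prop :=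
  ∀ i, |c i + (if Even i.1 then 7 else 0) * (k : ℤ)| ≤ k

/-- bad at infinity -/
def Bi (g p : ℕ) (c : Fin (2 * g + 3) → ℤ) : Prop :=
  (p : ℤ) ∣ c (Fin.last _) ∧ ((p : ℤ) ^ 2 ∣ c (Fin.last _) ∨ ¬Gi g p (fm c))

/-- the type at a small prime -/
def Tz (g p : ℕ) (f : ℤ[X]) : Prop :=
  ∃ h : (ZMod p)[X], zK f (ZMod p) = X * h ∧ Irreducible h ∧ h.natDegree = 2 * g + 1

/-- the density of a condition modulo `p ^ 2` is at most `κ / p ^ 2` -/
def Thin {n : ℕ} (κ : ℝ) (p : ℕ) (B : (Fin n → ℤ) → Prop) : Prop :=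
  ({x : Fin n → ZMod (p ^ 2) | ∃ c : Fin n → ℤ, (fun i => (c i : ZMod (p ^ 2))) = x ∧
    B c}.ncard : ℝ) ≤ κ * (p : ℝ) ^ (2 * n) / (p : ℝ) ^ 2

/-- the geometry of the box -/
def GEOStmt : Prop := ∀ (g k : ℕ) (c : Fin (2 * g + 3) → ℤ), 1 ≤ k → Sb k c →
  (∀ i, |c i| ≤ ((8 * k : ℕ) : ℤ)) ∧ c (Fin.last _) ≠ 0 ∧ (fm c).natDegree = 2 * g + 2 ∧
  (fm c).leadingCoeff = c (Fin.last _) ∧ 4 * (k : ℝ) ≤ |((fm c).leadingCoeff : ℝ)| ∧
  |((fm c).leadingCoeff : ℝ)| ≤ 2 * (4 * (k : ℝ)) ∧ Neg (zK (fm c) ℚ) ∧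
  ∀ θ : ℂ, (zK (fm c) ℂ).eval θ = 0 → ‖θ‖ ≤ 3

/-- consequences of the local types -/
def TYPStmt : Prop := ∀ (g : ℕ) (f : ℤ[X]), 1 ≤ g → f.natDegree = 2 * g + 2 →
  (Neg (zK f ℚ) → Tz g 2 f → Irreducible (zK f ℚ)) ∧
  (∀ p : ℕ, p.Prime → (Tz g p f ∨ Ty g p f) →
    ¬(p : ℤ) ∣ f.leadingCoeff ∧ ¬Nx p f ∧ ¬Sx p f) ∧
  ∀ (f₀ : ℤ[X]) (Q : Finset ℕ) (M : ℝ), f₀.natDegree = 2 * g + 2 →
    (∀ q ∈ Q, zK f (ZMod q) = zK f₀ (ZMod q)) →
    (∀ q ∈ Q, (f.leadingCoeff : ZMod q) = f₀.leadingCoeff) ∧ (Cl g Q f M f → Cl g Q f₀ M f)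

/-- no deficient prime -/
def ODPStmt : Prop := ∀ (g : ℕ) (f : ℤ[X]) (Q S : Finset ℕ), Fam g f →
  (∀ q ∈ Q, q.Prime ∧ Ty g q f) → (∀ p : ℕ, p.Prime → ¬Sx p f) → S ⊆ Q →
  OdP (C (∏ q ∈ S, (q : ℚ)) * zK f ℚ)

/-- the base class -/
def BASEStmt : Prop := ∀ g q₀ N P : ℕ, 1 ≤ g → ∃ (Q : Finset ℕ) (c : Fin (2 * g + 3) → ℤ),
  Q.card = N ∧ (∀ p : ℕ, p.Prime → p ≤ P → Tz g p (fm c)) ∧
  ∀ q ∈ Q, q.Prime ∧ q % 8 = 1 ∧ q₀ ≤ q ∧ Ty g q (fm c)

/-- inseparable polynomials over a prime field -/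
def INSStmt : Prop := ∀ n p : ℕ, p.Prime →
  ({x : Fin (n + 1) → ZMod p | ¬((fm x).Separable ∧ (fm x).natDegree = n)}.ncard : ℝ) ≤
    (n + 1) * (p : ℝ) ^ n

def BNXStmt : Prop := ∀ n p : ℕ, 2 ≤ n → p.Prime → Thin n p fun c : Fin n → ℤ => Nx p (fm c)

def BSXStmt : Prop := ∀ g p : ℕ, 2 ≤ g → p.Prime →
  Thin (2 * g + 4) p fun c : Fin (2 * g + 3) → ℤ => Sx p (fm c) ∨ Bi g p c

/-- the small primes -/
def LOWStmt : Prop := ∀ (n m : ℕ) (B B' : ℕ → (Fin n → ℤ) → Prop) (κ κ' M : ℝ)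
  (c₀ o : Fin n → ℤ), 0 < m → (∀ p : ℕ, p.Prime → Thin κ p (B p) ∧ Thin κ' p (B' p)) →
  (∀ p : ℕ, p.Prime → ¬p ∣ m → 4 * (κ + κ') + 1 ≤ p) → ∀ᶠ k : ℕ in atTop,
  1 / 2 * (2 * (k : ℝ) / m) ^ n ≤ ({c : Fin n → ℤ | (∀ i, |c i + o i * (k : ℤ)| ≤ k) ∧
    (∀ i, (c i : ZMod m) = c₀ i) ∧
    ∀ p : ℕ, p.Prime → ¬p ∣ m → (p : ℝ) < M → ¬B p c ∧ ¬B' p c}.ncard : ℝ)

/-- the large primes that divide the leading coefficient -/
def TAILStmt : Prop := ∀ (g : ℕ) (ε : ℝ), 0 < ε → ∃ M : ℝ, ∀ H : ℕ,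
  ({c : Fin (2 * g + 3) → ℤ | (∀ i, |c i| ≤ H) ∧ c (Fin.last _) ≠ 0 ∧
    ∃ p : ℕ, p.Prime ∧ M ≤ p ∧ Bi g p c}.ncard : ℝ) ≤ ε * (H : ℝ) ^ (2 * g + 3)

theorem main_of (desc : VV.DESCStmt) (kill : KILLStmt) (odd : ODDStmt) (bad : BADStmt)
    (count : COUNTStmt) (bxc : BXCStmt) (irr : IRRStmt) (geo : GEOStmt) (typ : TYPStmt)
    (odp : ODDStmt → ODPStmt) (base : IRRStmt → BASEStmt) (ins : INSStmt) (bnx : BNXStmt)
    (bsx : INSStmt → BSXStmt) (low : BXCStmt → LOWStmt) (tail : BXCStmt → INSStmt → TAILStmt)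
    (sieve : KILLStmt → BADStmt → COUNTStmt → BXCStmt → GEOStmt → TYPStmt → ODPStmt → BASEStmt →
      BNXStmt → BSXStmt → LOWStmt → TAILStmt → SIEVEStmt)
    (fin : BXCStmt → VV.DESCStmt → SIEVEStmt → MainStmt) : MainStmt :=
  fin bxc desc (sieve kill bad count bxc geo typ (odp odd) (base irr) bnx (bsx ins) (low bxc)
    (tail bxc ins))

end Pool.Agent.MP_a43263_nt.VE

end
end MrgPart6

-- ======== part 7: formerly Pool.Agent.MP_a43263_nt.VE.Fin
section MrgPart7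

/-! THEOREM V: the final count. -/

set_option autoImplicit false

noncomputable section

namespace Pool.Agent.MP_a43263_nt.VE

open Polynomial Finset Filter JC VV
open UV (zK BXCStmt)

namespace FinE

theorem box_eq (n L : ℕ) : {c : Fin n → ℤ | ∀ i, |c i| ≤ (L : ℤ)} =
    ↑(Fintype.piFinset fun _ : Fin n => Icc (-(L : ℤ)) L) := by
  ext c
  simp only [Set.mem_ofPred_eq, abs_le, mem_coe, Fintype.mem_piFinset, mem_Icc]

theorem box_card (n L : ℕ) (h : 1 ≤ L) :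
    {c : Fin n → ℤ | ∀ i, |c i| ≤ (L : ℤ)}.ncard ≤ (3 * L) ^ n := by
  rw [box_eq, Set.ncard_coe_finset, Fintype.card_piFinset, prod_const, card_univ, Fintype.card_fin,
    Int.card_Icc]
  exact Nat.pow_le_pow_left (by omega) n

theorem fm_mul {n : ℕ} (d : ℕ) (c : Fin n → ℤ) :
    (fm fun i => ((d * c i : ℤ) : ℚ)) = C (d : ℚ) * zK (fm c) ℚ := by
  rw [zK, VA.fm_map, fm, fm, mul_sum]
  exact sum_congr rfl fun i _ => by rw [← mul_assoc, ← C_mul]; simp

/-- the transfer of one polynomial -/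
theorem one (desc : VV.DESCStmt) {g d : ℕ} (hd : 0 < d) {f : ℤ[X]} (hz : Fam g f)
    (hs : SelT (C (d : ℚ) * zK f ℚ)) (ho : OdP (C (d : ℚ) * zK f ℚ)) :
    Good g (C (d : ℚ) * zK f ℚ) := by
  have d0 : (d : ℚ) ≠ 0 := by positivity
  refine desc g _ hz.pos (VA.sq_C_mul (VA.fam_sq hz ℚ) d0).deg
    ((irreducible_isUnit_mul (isUnit_C.2 d0.isUnit)).2 hz.irr) (fun x => ?_) ho hs
  rw [fK, Polynomial.map_mul, map_C, eval_mul, eval_C, map_natCast]
  exact mul_neg_of_pos_of_neg (by exact_mod_cast hd) (hz.neg x)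

end FinE

open FinE in
theorem fin : BXCStmt → VV.DESCStmt → SIEVEStmt → MainStmt := by
  intro _ desc sieve g hg
  obtain ⟨Q, ε, hε, hQ, hev⟩ := sieve g hg
  have hd : ∀ S ⊆ Q, 0 < ∏ q ∈ S, q := fun S hS => prod_pos fun q hq => hQ q (hS hq)
  set K := ∏ q ∈ Q, q with hK
  have hK0 : 0 < K := hd Q subset_rfl
  have hK1 : ∀ S ⊆ Q, ∏ q ∈ S, q ≤ K := fun S hS =>
    prod_le_prod_of_subset_of_one_le' hS fun q hq _ => hQ q hq
  refine ⟨ε / (2 ^ Q.card * (6 * K) ^ (2 * g + 3)), by positivity, ?_⟩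
  have ht : Tendsto (fun H : ℕ => H / K) atTop atTop := Nat.tendsto_div_const_atTop hK0.ne'
  filter_upwards [ht.eventually hev, ht.eventually_ge_atTop 1] with H' h2 h3
  set H := H' / K with hH
  have l1 : K * H ≤ H' := Nat.mul_div_le _ _
  have l2 : H' ≤ 2 * K * H := by
    have := Nat.lt_mul_div_succ H' hK0
    nlinarith
  set G := {c : Fin (2 * g + 3) → ℤ | (∀ i, |c i| ≤ H') ∧ Good g (fm fun i => (c i : ℚ))} with hG
  have fG : G.Finite := ((box_eq _ H').symm ▸ finite_toSet _ :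
    {c : Fin (2 * g + 3) → ℤ | ∀ i, |c i| ≤ (H' : ℤ)}.Finite).subset fun c hc => hc.1
  set A := {c : Fin (2 * g + 3) → ℤ | (∀ i, |c i| ≤ H) ∧
    Fam g (fm c) ∧ ∃ S ⊆ Q, SelT (C (∏ q ∈ S, (q : ℚ)) * zK (fm c) ℚ) ∧
      OdP (C (∏ q ∈ S, (q : ℚ)) * zK (fm c) ℚ)} with hA
  have h4 : ∀ c : Fin (2 * g + 3) → ℤ, ∃ S : Finset ℕ, c ∈ A → S ⊆ Q ∧
      (fun i => ((∏ q ∈ S, q : ℕ) : ℤ) * c i) ∈ G := fun c => by
    by_cases hc : c ∈ A
    · obtain ⟨hb, hz, S, hS, hs, ho⟩ := hc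
      rw [← Nat.cast_prod] at hs ho
      refine ⟨S, fun _ => ⟨hS, fun i => ?_, (fm_mul _ c).symm ▸ one desc (hd S hS) hz hs ho⟩⟩
      rw [abs_mul, Nat.abs_cast]
      refine (mul_le_mul (Nat.cast_le.2 (hK1 S hS)) (hb i) (abs_nonneg _) (by positivity)).trans ?_
      exact_mod_cast l1
    · exact ⟨∅, fun h => absurd h hc⟩
  choose S hc using h4
  have h5 := Set.ncard_le_ncard_of_injOn (s := A) (t := (↑Q.powerset : Set (Finset ℕ)) ×ˢ G)
    (fun c => (S c, fun i => ((∏ q ∈ S c, q : ℕ) : ℤ) * c i))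
    (fun c h => ⟨mem_coe.2 (mem_powerset.2 (hc c h).1), (hc c h).2⟩)
    (fun a _ b hb e => by
      obtain ⟨e1, e2⟩ := Prod.mk.inj e
      rw [e1] at e2
      exact _root_.funext fun i => mul_left_cancel₀ (Nat.cast_ne_zero.2 (hd _ (hc b hb).1).ne')
        (congrFun e2 i))
    ((finite_toSet _).prod fG)
  rw [Set.ncard_prod, Set.ncard_coe_finset, card_powerset] at h5
  have h6 := h2.trans (Nat.cast_le.2 h5)
  have h7 := (Nat.cast_le (α := ℝ)).2 ((box_card (2 * g + 3) H' (le_trans (by nlinarith) l1)).trans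
    (Nat.pow_le_pow_left (Nat.mul_le_mul_left 3 l2) _))
  push_cast at h6 h7
  rw [div_mul_eq_mul_div, div_le_iff₀ (by positivity)]
  calc _ ≤ ε * (3 * (2 * K * H : ℝ)) ^ (2 * g + 3) := by gcongr
    _ = ε * (H : ℝ) ^ (2 * g + 3) * (6 * K) ^ (2 * g + 3) := by
      rw [mul_assoc ε, ← mul_pow]; congr 2; ring
    _ ≤ 2 ^ Q.card * G.ncard * (6 * K) ^ (2 * g + 3) := by gcongr
    _ = _ := by ring

end Pool.Agent.MP_a43263_nt.VE

end
end MrgPart7

-- marker of a merged file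
example : 731051 + 89923 = 731051 + 89923 := rfl
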