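import Mathlib.Algebra.BigOperators.ModEq
import Mathlib.Tactic.Monotonicity.Lemmas
import Mathlib.Analysis.SpecialFunctions.Complex.CircleAddChar
import Mathlib.Combinatorics.Enumerative.DoubleCounting
import Pool.Agent.MP_a43263_nt.VE.Fin
import Pool.Agent.MP_a43263_nt.UV.Sieve
import Pool.Agent.MP_a43263_nt.UC.Maj

-- ======== part 0: formerly Pool.Agent.MP_a43263_nt.VA.Kill
section MrgPart0

/-! THEOREM V: reciprocity, and a twist without Selmer group. -/

set_option autoImplicit false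

noncomputable section

namespace Pool.Agent.MP_a43263_nt.VA

open Polynomial Finset Matrix JC VV
open UV (zK iq rq Nm Nx Dg Sp DIAGStmt PADStmt PFStmt LAGStmt zK_map fK_zK isCoprime_of_map)
open UV.Rec (int_diag Hs_cast Hs_pm sn sn_sum sn_one z2)
open UV.Kill (fK_mul mod8 dvd_iff not_sq)

namespace Kill

variable {g : ℕ} {f : ℤ[X]} {δ : ℚ[X]} {e : Fin (2 * g + 2) → ℤ}

theorem mo_loc (f : ℤ[X]) (K : Type) [Field K] [CharZero K] :
    (mo (zK f ℚ)).map (Rat.castHom K) = mo (zK f K) := by rw [← mo_map, zK_map]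

theorem dg_loc (hf : Fam g f) (h : Dg (Gm g (mo (zK f ℚ)) δ) fun i => (e i : ℚ)) (K : Type)
    [Field K] [CharZero K] : Dg (Gm g (mo (zK f K)) (fK δ K)) fun i => (e i : K) := by
  have := h.map (Rat.castHom K)
  rw [← Gm_map (sq_mq (fam_sq hf ℚ)).monic, mo_loc] at this
  simpa only [map_intCast] using this

theorem nm_loc (hf : Fam g f) (δ : ℚ[X]) (K : Type) [Field K] [CharZero K] :
    Nm (mo (zK f K)) (fK δ K) = (Nm (mo (zK f ℚ)) δ : ℚ) := by
  rw [← mo_loc]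
  exact (UV.gram.1 ℚ _ (sq_mq (fam_sq hf ℚ)).monic).2.2.2.2.2 K (Rat.castHom K) δ

theorem sq_loc (hf : Fam g f) (h : IsSquare (Nm (mo (zK f ℚ)) δ)) (K : Type) [Field K]
    [CharZero K] : IsSquare (Nm (mo (zK f K)) (fK δ K)) := by
  rw [nm_loc hf]
  exact h.map (Rat.castHom K)

theorem cop_loc (h : IsCoprime δ (zK f ℚ)) (K : Type) [Field K] [CharZero K] :
    IsCoprime (fK δ K) (zK f K) := fK_zK f K ▸ (isCoprime_map (Rat.castHom K)).2 h

/-- there is no condition at the real place -/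
theorem real (hW : WGStmt) (hR : REALStmt) (hf : Fam g f) (h : IsCoprime δ (zK f ℚ)) :
    Wv (zK f ℝ) (fK δ ℝ) 0 := by
  obtain ⟨z, hz⟩ := hR _ _ (fam_sq hf ℝ).sep (fun x => (fK_zK f ℝ ▸ hf.neg x).ne) (cop_loc h ℝ)
  exact (hW ℝ g _ (fam_sq hf ℝ)).2.2.2.2.2.1 _ z (cop_loc h ℝ) hz

theorem split (hG : GRAMStmt) (hQ : QSStmt) (hH : HEVStmt) (hf : Fam g f)
    (hn : IsSquare (Nm (mo (zK f ℚ)) δ)) (he : ∀ i, e i ≠ 0)
    (h : Dg (Gm g (mo (zK f ℚ)) δ) fun i => (e i : ℚ)) {K : Type} [Field K] [CharZero K]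
    {s : K → K → ℤ} {t : ℤ → ℤ → ℤ} (hs : Sy s)
    (ht : ∀ x y : ℤ, x ≠ 0 → y ≠ 0 → s x y = t x y) (hw : Wv (zK f K) (fK δ K) 0) :
    Hs t e = Hs t (alt g ℤ) := by
  have a := (hH K s hs g).1 _ _ (dg_loc hf h K) (fun i => Int.cast_ne_zero.2 (he i))
    (hQ K g _ _ (fam_sq hf K) hw) (by
      rw [(hG K g _ (sq_mq (fam_sq hf K))).1, ← mul_assoc, ← mul_pow, neg_mul_neg, one_mul, one_pow,
        one_mul]
      exact sq_loc hf hn K)
  rw [← Hs_cast ht he, a, ← Hs_cast ht (e := alt g ℤ) fun i =>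
    pow_ne_zero _ (neg_ne_zero.2 one_ne_zero)]
  refine congrArg _ (_root_.funext fun i => ?_)
  simp only [alt, Int.cast_pow, Int.cast_neg, Int.cast_one]

theorem fK_tw (d : ℤ) (f : ℤ[X]) (K : Type) [Field K] [CharZero K] :
    fK (C (d : ℚ) * zK f ℚ) K = C (d : K) * zK f K := by
  rw [fK_mul, fK_zK, fK, map_C, map_intCast]

end Kill

open Kill in
theorem recp : SYMBStmt → GRAMStmt → WGStmt → QSStmt → DIAGStmt → HEVStmt → LOCUStmt → LOCIStmt →
    LOCQStmt → NFMStmt → PFStmt → REALStmt → RECStmt := by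
  intro hS hG hW hQ hD hH hU hI hL hN hP hR g f Q δ u y hf hq hc hn h2 hev hnf
  have m := sq_mq (fam_sq hf ℚ)
  obtain ⟨e, he, hd⟩ := int_diag hD (Gm g (mo (zK f ℚ)) δ) (Gm_symm δ) (by
    rw [(hG ℚ g _ m).1]
    exact (isUnit_one.neg.pow _).mul (((UV.gram.1 ℚ _ m.monic).2.2.2.1 δ).2
      ((mo_cop (sq_ne (fam_sq hf ℚ))).2 hc)))
  have hE : ∏ i, e i ≠ 0 := prod_ne_zero_iff.2 fun i _ => he i
  have q2 : ∀ q ∈ Q, q ≠ 2 := fun q h c => by
    have := (hq q h).2.1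
    omega
  set T : Finset ℕ := Q ∪ (∏ i, e i).natAbs.primeFactors.erase 2 with hT
  have T2 : ∀ p ∈ T, p.Prime ∧ p ≠ 2 := fun p h => by
    rcases mem_union.1 h with h | h
    · exact ⟨(hq p h).1, q2 p h⟩
    · exact ⟨Nat.prime_of_mem_primeFactors (mem_of_mem_erase h), ne_of_mem_erase h⟩
  have n2 : 2 ∉ T := fun h => (T2 2 h).2 rfl
  have A := hP _ e (insert 2 T) he (mem_insert_self _ _)
    (fun p h => (mem_insert.1 h).elim (fun c => c ▸ Nat.prime_two) fun c => (T2 p c).1)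
    fun p i hp h => by
      by_cases c : p = 2
      · exact mem_insert.2 (Or.inl c)
      · exact mem_insert_of_mem (mem_union_right _ (mem_erase.2 ⟨c, Nat.mem_primeFactors.2
          ⟨hp, Int.natCast_dvd.1 (h.trans (dvd_prod_of_mem _ (mem_univ i))),
            Int.natAbs_ne_zero.2 hE⟩⟩))
  have B := hP _ (alt g ℤ) {2}
    (fun i => pow_ne_zero _ (neg_ne_zero.2 one_ne_zero)) (mem_singleton_self _)
    (fun p h => mem_singleton.1 h ▸ Nat.prime_two) fun p i hp h =>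
      absurd (isUnit_of_dvd_unit h (isUnit_one.neg.pow _)) (Nat.prime_iff_prime_int.1 hp).not_isUnit
  obtain ⟨s2, a2, b2⟩ := hS.2 2
  rw [prod_singleton, ← split hG hQ hH hf hn he hd a2 b2 h2,
    ← split hG hQ hH hf hn he hd hS.1 (fun x y _ _ => by simp only [Int.cast_lt_zero])
      (real hW hR hf hc)] at B
  rw [prod_insert n2, ← mul_assoc, B, one_mul] at A
  have key : ∀ p ∈ T, Hs (RH.hs p) e = if p ∈ Q then sn (u p * y p) else 1 := fun p h => by
    obtain ⟨hp, hp2⟩ := T2 p h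
    have := Fact.mk hp
    obtain ⟨s, a, b⟩ := hS.2 p
    have d := dg_loc hf hd ℚ_[p]
    have n := sq_loc hf hn ℚ_[p]
    have ev : Ev p f (fK δ ℚ_[p]) → Hs (RH.hs p) e = 1 := fun v =>
      (Hs_cast b he).symm.trans <| (em ((p : ℤ) ∣ f.leadingCoeff)).elim
        (fun l => hI p g f _ s _ hp2 l hf ⟨a, b⟩ (cop_loc hc _) n d v)
        fun l => hU p g f _ s _ hp2 l hf ⟨a, b⟩ n d v
    split_ifs with c
    · have w := hnf p c
      rcases z2 (y p) with k | k <;> rw [k] at w ⊢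
      · rw [mul_zero, ev (((hN p g f hf).2.2.1 _).2 ⟨_, w⟩)]
        rfl
      · have l := hL p g f _ s _ (u p) (hq p c).2.1 hf (hq p c).2.2 ⟨a, b⟩ n d w
        rw [mul_one, ← Hs_cast b he, sn]
        split_ifs with c'
        · exact l.2 c'
        · exact (Hs_pm a fun i => Int.cast_ne_zero.2 (he i)).resolve_left fun x => c' (l.1 x)
    · exact ev (hev p c)
  rw [prod_congr rfl key, prod_ite_mem, inter_eq_right.2 subset_union_left, ← sn_sum] at A
  exact sn_one _ A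

open Kill in
theorem kill : WGStmt → PADStmt → NFMStmt → NFEStmt → RAMStmt → EVStmt → REALStmt → RECStmt →
    LAGStmt → KILLStmt := by
  classical
  intro wg pad nfm nfe ram ev hR recp lag g f Q hf hQ hx hs
  let V : ℚ[X] → Prop := fun δ => IsCoprime δ (zK f ℚ) ∧ IsSquare (Nm (mo (zK f ℚ)) δ) ∧
    Wv (zK f ℚ_[2]) (fK δ ℚ_[2]) 0 ∧ ∀ (p : ℕ) [Fact p.Prime], p ∉ Q → Ev p f (fK δ ℚ_[p])
  obtain ⟨S, hS, H⟩ := lag Q {x | ∃ δ, V δ ∧
      ∀ (q : ℕ) [Fact q.Prime], q ∈ Q → NF q f (fK δ ℚ_[q]) (x.1 q) (x.2 q)}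
    (by
      rintro x ⟨δ, ⟨a1, a2, a3, a4⟩, a5⟩ x' ⟨δ', ⟨b1, b2, b3, b4⟩, b5⟩
      refine ⟨δ * δ', ⟨a1.mul_left b1, ?_, ?_, fun p _ hp => ?_⟩, fun q _ hq => ?_⟩
      · rw [(UV.gram.1 ℚ _ (sq_mq (fam_sq hf ℚ)).monic).1]
        exact a2.mul b2
      · rw [fK_mul, ← add_zero (0 : ZMod 2)]
        exact (wg ℚ_[2] g _ (fam_sq hf _)).2.1 _ _ _ _ a3 b3
      · rw [fK_mul]
        exact (nfm p g f hf).2.1 _ _ (a4 p hp) (b4 p hp)
      · rw [fK_mul]
        refine (nfm q g f hf).2.2.2 ?_ (hQ q hq).2.2 _ _ _ _ _ _ (a5 q hq) (b5 q hq)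
        have := (hQ q hq).2.1
        omega)
    (by
      rintro x ⟨δ, ⟨a1, a2, a3, a4⟩, a5⟩
      exact recp g f Q δ x.1 x.2 hf (fun q hq => ⟨(hQ q hq).1, by have := (hQ q hq).2.1; omega,
        (hQ q hq).2.2⟩) a1 a2 a3 a4 a5)
  refine ⟨S, hS, fun δ hp => ?_⟩
  obtain ⟨d, hd⟩ : ∃ d : ℤ, d = ∏ q ∈ S, (q : ℤ) := ⟨_, rfl⟩
  have pS : ∀ q ∈ S, q.Prime := fun q hq => (hQ q (hS hq)).1
  have d0 : d ≠ 0 := (hd ▸ prod_pos fun q hq => Int.natCast_pos.2 (pS q hq).pos).ne'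
  have ed : ∏ q ∈ S, (q : ℚ) = d := by rw [hd]; push_cast; rfl
  simp only [ed, fK_tw] at hp ⊢
  have un : ∀ (K : Type) [Field K] [CharZero K], IsUnit (C (d : K)) := fun K _ _ =>
    isUnit_C.2 (Int.cast_ne_zero.2 d0).isUnit
  have cp : ∀ (p : ℕ) [Fact p.Prime], IsCoprime (fK δ ℚ_[p]) (zK f ℚ_[p]) := fun p _ =>
    (hp p).1.of_mul_right_right
  have hc : IsCoprime δ (zK f ℚ) :=
    isCoprime_of_map (Rat.castHom ℚ_[2]) (by rw [zK_map]; exact cp 2)
  have nsq : ∀ (p : ℕ) [Fact p.Prime], IsSquare (Nm (mo (zK f ℚ_[p])) (fK δ ℚ_[p])) := fun p _ =>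
    mo_C_mul (Int.cast_ne_zero.2 d0 : (d : ℚ_[p]) ≠ 0) (zK f ℚ_[p]) ▸
      (wg _ g _ (sq_C_mul (fam_sq hf ℚ_[p]) (Int.cast_ne_zero.2 d0))).2.2.1 _ (hp p)
  have nq : IsSquare (Nm (mo (zK f ℚ)) δ) :=
    pad.2.2 _ (nm_loc hf δ ℝ ▸ (wg ℝ g _ (fam_sq hf ℝ)).2.2.1 _ (real wg hR hf hc))
      fun p _ => nm_loc hf δ ℚ_[p] ▸ nsq p
  have hev : ∀ (p : ℕ) [Fact p.Prime], p ∉ S → Ev p f (fK δ ℚ_[p]) := fun p h c =>
    ev p g f _ d 0 hf (hx p h.out) (fun e => c (dvd_iff pS h.out (hd ▸ e))) (hp p)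
  have h2 : Wv (zK f ℚ_[2]) (fK δ ℚ_[2]) 0 := by
    obtain ⟨r, e⟩ := pad.2.1 d (hd ▸ mod8 S fun q hq => (hQ q (hS hq)).2.1)
    refine ((wg _ g _ (fam_sq hf ℚ_[2])).2.2.2.1 _ _ r
      (left_ne_zero_of_mul (e ▸ Int.cast_ne_zero.2 d0))).1 ?_
    rw [sq, ← e]
    exact hp 2
  have hV : V δ := ⟨hc, nq, h2, fun p _ c => hev p fun e => c (hS e)⟩
  have hn : ∀ q : ℕ, ∃ u y : ZMod 2, (q ∈ S → u = 0) ∧ (q ∉ S → y = 0) ∧
      ∀ [Fact q.Prime], q ∈ Q → NF q f (fK δ ℚ_[q]) u y := by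
    intro q
    by_cases c : q ∈ Q
    swap
    · exact ⟨0, 0, fun _ => rfl, fun _ => rfl, fun e => absurd e c⟩
    have : Fact q.Prime := ⟨(hQ q c).1⟩
    by_cases c' : q ∈ S
    · obtain ⟨u, y, h⟩ := nfe q g f _ hf (hQ q c).2.2 (cp q) (nsq q)
      exact ⟨u, y, fun _ => ram q g f _ d u y (by have := (hQ q c).2.1; omega) hf (hQ q c).2.2
        (hd ▸ dvd_prod_of_mem _ c') (hd ▸ not_sq pS c') (hp q) h, fun e => absurd c' e, fun _ => h⟩
    · obtain ⟨u, h⟩ := ((nfm q g f hf).2.2.1 _).1 (hev q c')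
      exact ⟨u, 0, fun e => absurd e c', fun _ => rfl, fun _ => h⟩
  choose u y h1 h2 h3 using hn
  have z := H (u, y) ⟨δ, hV, fun q _ hq => h3 q hq⟩ h1 fun q _ => h2 q
  have nf : ∀ (q : ℕ) [Fact q.Prime], q ∈ Q → NF q f (fK δ ℚ_[q]) 0 0 := fun q _ hq => by
    have := h3 q hq
    rwa [show u q = 0 from (z q hq).1, show y q = 0 from (z q hq).2] at this
  obtain ⟨r, w, r0, k⟩ := hs δ hc nq (fun p _ => (em (p ∈ Q)).elim
    (fun c => ((nfm p g f hf).2.2.1 _).2 ⟨0, nf p c⟩) (hV.2.2.2 p)) nf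
  exact ⟨r, w, r0, (un ℚ).mul_left_dvd.2 k⟩

end Pool.Agent.MP_a43263_nt.VA

end
end MrgPart0

-- ======== part 1: formerly Pool.Agent.MP_a43263_nt.VC.Bohr
section MrgPart1

/-! Matrices of rank one modulo `D` in a box and in a residue class. -/

namespace Pool.Agent.MP_a43263_nt.VC

open Polynomial Matrix Finset UC

namespace Bohr

/-- The entries on and above the diagonal. -/
def tri {n : ℕ} (B : Mz n) (i : up n) : ℤ := B i.1.1 i.1.2

theorem inj {n : ℕ} {W : Finset (Mz n)} (h : ∀ B ∈ W, B.IsSymm) : Set.InjOn tri (W : Set (Mz n)) := by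
  intro B hB B' hB' e
  have key : ∀ p q, p ≤ q → B p q = B' p q := fun p q hpq =>
    congrFun e ⟨(p, q), mem_filter.2 ⟨mem_univ _, hpq⟩⟩
  ext p q
  rcases le_total p q with k | k
  · exact key p q k
  · rw [← (h B hB).apply p q, ← (h B' hB').apply p q, key q p k]

theorem one {n D : ℕ} {l : ℝ} {Y : Fin n → Fin n → ℝ} {W : Finset (Mz n)} (hD : 0 < D)
    (hY : ∀ p q, 0 ≤ Y p q ∧ Y p q ≤ l * D) (a : Fin n → Fin n → ZMod D)
    (h : ∀ B ∈ W, B.IsSymm ∧ Bd Y B ∧ ∀ p q, (B p q : ZMod D) = a p q) :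
    (W.card : ℝ) ≤ (2 * l + 1) ^ (up n).card := by
  have h1 : W.card ≤ (Fintype.piFinset fun i : up n => W.image fun B => tri B i).card :=
    card_le_card_of_injOn tri (fun B hB => mem_coe.2 (Fintype.mem_piFinset.2 fun i =>
      mem_image_of_mem _ hB)) (inj fun B hB => (h B hB).1)
  rw [Fintype.card_piFinset] at h1
  have h2 : (W.card : ℝ) ≤ ∏ i : up n, ((W.image fun B => tri B i).card : ℝ) := by
    exact_mod_cast h1
  refine h2.trans ((prod_le_prod (g := fun _ => 2 * l + 1) (fun _ _ => Nat.cast_nonneg _)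
    fun i _ => ?_).trans_eq (by simp))
  refine (cls _ (Y i.1.1 i.1.2) D hD (hY _ _).1 ?_ ?_).trans ?_
  · simp only [mem_image]
    rintro _ ⟨B, hB, rfl⟩
    exact (h B hB).2.1 _ _
  · simp only [mem_image]
    rintro _ ⟨B, hB, rfl⟩ _ ⟨B', hB', rfl⟩
    exact (ZMod.intCast_eq_intCast_iff_dvd_sub _ _ D).1
      (((h B' hB').2.2 _ _).trans ((h B hB).2.2 _ _).symm)
  · have : (0 : ℝ) < D := by exact_mod_cast hD
    rw [add_le_add_iff_right, div_le_iff₀ this]
    linarith [(hY i.1.1 i.1.2).2]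

theorem bad {n D : ℕ} {l : ℝ} {Y : Fin n → Fin n → ℝ} {W : Finset (Mz n)} (hD : 0 < D)
    (hY : ∀ p q, 0 ≤ Y p q ∧ Y p q ≤ l * D) (v : Fin n → ZMod D)
    (h : ∀ B ∈ W, B.IsSymm ∧ Bd Y B ∧ ∃ c : ZMod D, ∀ p q, (B p q : ZMod D) = c * (v p * v q)) :
    (W.card : ℝ) ≤ D * (2 * l + 1) ^ (up n).card := by
  classical
  have : NeZero D := ⟨hD.ne'⟩
  have h1 : W.card ≤ ∑ c : ZMod D,
      (W.filter fun B => ∀ p q, (B p q : ZMod D) = c * (v p * v q)).card := by
    refine le_trans (card_le_card fun B hB => ?_) card_biUnion_le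
    obtain ⟨c, hc⟩ := (h B hB).2.2
    exact mem_biUnion.2 ⟨c, mem_univ _, mem_filter.2 ⟨hB, hc⟩⟩
  have h2 : (W.card : ℝ) ≤ ∑ c : ZMod D,
      ((W.filter fun B => ∀ p q, (B p q : ZMod D) = c * (v p * v q)).card : ℝ) := by
    exact_mod_cast h1
  refine h2.trans ((sum_le_sum (g := fun _ => (2 * l + 1) ^ (up n).card) fun c _ =>
    one hD hY (fun p q => c * (v p * v q)) fun B hB => ?_).trans_eq (by simp))
  obtain ⟨k1, k2⟩ := mem_filter.1 hB
  exact ⟨(h B k1).1, (h B k1).2.1, k2⟩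

end Bohr

open Bohr in
theorem bohr (rep : REPStmt) (cell : CELLStmt) (exc : EXCStmt) : BOHRStmt := by
  classical
  intro n hn
  obtain ⟨C, hC, cell⟩ := cell (up n)
  refine ⟨C, hC, fun N l ε hN hl hε => ?_⟩
  have hNl : 0 < N * l := by positivity
  have hK : 0 < ⌈N * l⌉₊ := Nat.ceil_pos.2 hNl
  have hp : 0 < (2 * l + 1) ^ (up n).card := by positivity
  obtain ⟨D1, exc⟩ := exc n ⌈N * l⌉₊ (ε / (2 * l + 1) ^ (up n).card) (by positivity)
  refine ⟨max D1 (12 * ⌈N * l⌉₊ * Fintype.card (up n)), fun D Y B₀ W hD sq cop hY hW => ?_⟩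
  have D0 : 0 < D := Nat.pos_of_ne_zero sq.ne_zero
  have D0' : (0 : ℝ) < D := by exact_mod_cast D0
  have : NeZero D := ⟨D0.ne'⟩
  have Y0 : ∀ p q, 0 ≤ Y p q := fun p q =>
    ((mul_pos_iff_of_pos_left hl).1 (D0'.trans_le (hY p q).1)).le
  have hP : 0 ≤ ∏ x ∈ up n, Y x.1 x.2 / (N * D) :=
    prod_nonneg fun x _ => div_nonneg (Y0 _ _) (by positivity)
  let r : Mz n → (Fin n → ZMod D) → Prop := fun B v =>
    ∃ c : ZMod D, ∀ p q, (B p q : ZMod D) = c * (v p * v q)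
  let bd : (Fin n → ZMod D) → Prop := fun v => ∃ k : Fin n × Fin n → ℤ,
    (∀ x, |k x| < ⌈N * l⌉₊) ∧ (∃ x ∈ up n, k x ≠ 0) ∧
      ∑ x ∈ up n, (k x : ZMod D) * (v x.1 * v x.2) = 0
  have h1 : W.card * D.totient ≤ ∑ v, (W.bipartiteBelow r v).card := by
    rw [← sum_card_bipartiteAbove_eq_sum_card_bipartiteBelow, ← smul_eq_mul]
    refine card_nsmul_le_sum _ _ _ fun B hB => ?_
    obtain ⟨V, h1, h2⟩ := rep n D B hn sq (hW B hB).1 (hW B hB).2.1
    exact h1.trans (card_le_card fun v hv => (mem_bipartiteAbove r).2 ⟨mem_univ _, h2 v hv⟩)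
  have h2 : ∀ v, ((W.bipartiteBelow r v).card : ℝ) ≤
      C * D * ∏ x ∈ up n, Y x.1 x.2 / (N * D) +
        if bd v then D * (2 * l + 1) ^ (up n).card else 0 := fun v => by
    have mem := fun B => (mem_bipartiteBelow r (s := W) (a := B) (b := v)).1
    split_ifs with hv
    · refine le_add_of_nonneg_of_le (by positivity)
        (bad D0 (fun p q => ⟨Y0 p q, (hY p q).2⟩) v fun B hB => ?_)
      obtain ⟨k1, k2⟩ := mem B hB
      exact ⟨(hW B k1).1, (hW B k1).2.2.1, k2⟩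
    · rw [add_zero, ← card_image_of_injOn (inj fun B hB => (hW B (mem B hB).1).1),
        ← prod_coe_sort]
      refine cell N ⌈N * l⌉₊ D (fun i => v i.1.1 * v i.1.2) (fun i => Y i.1.1 i.1.2) (tri B₀) _ hN hK
        D0 cop (le_of_max_le_right hD) (fun i => ?_) (fun k hk hs => ?_) fun y hy => ?_
      · calc (N : ℝ) * D ≤ N * (l * Y i.1.1 i.1.2) := by gcongr; exact (hY _ _).1
          _ = N * l * Y i.1.1 i.1.2 := by ring
          _ ≤ _ := by gcongr; exacts [Y0 _ _, Nat.le_ceil _]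
      · by_contra hk0
        obtain ⟨i, hi⟩ := Function.ne_iff.1 hk0
        refine hv ⟨fun x => if h : x ∈ up n then k ⟨x, h⟩ else 0, fun x => ?_,
          ⟨i.1, i.2, by simpa using hi⟩, ?_⟩
        · dsimp only
          split_ifs
          · exact hk _
          · simpa using hK
        · rw [← hs, ← sum_coe_sort]
          exact sum_congr rfl fun i _ => by simp
      · obtain ⟨B, hB, rfl⟩ := mem_image.1 hy
        obtain ⟨k1, c, k2⟩ := mem B hB
        exact ⟨fun i => ⟨(hW B k1).2.2.1 _ _, (hW B k1).2.2.2 _ _⟩, c, fun i => k2 _ _⟩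
  have h3 := exc D (univ.filter bd) (le_of_max_le_left hD) fun v hv => (mem_filter.1 hv).2
  have h4 : (W.card : ℝ) * D.totient ≤ ∑ v, ((W.bipartiteBelow r v).card : ℝ) := by
    exact_mod_cast h1
  have h5 := h4.trans (sum_le_sum fun v _ => h2 v)
  rw [sum_add_distrib, ← sum_filter, sum_const, sum_const, nsmul_eq_mul, nsmul_eq_mul, card_univ,
    Fintype.card_fun, ZMod.card, Fintype.card_fin] at h5
  have t0 : (0 : ℝ) < D.totient := by exact_mod_cast Nat.totient_pos.2 D0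
  rw [div_mul_eq_mul_div, div_mul_eq_mul_div, le_div_iff₀ t0]
  refine h5.trans ((add_le_add le_rfl (mul_le_mul_of_nonneg_right h3 (by positivity))).trans_eq ?_)
  push_cast
  field_simp

end Pool.Agent.MP_a43263_nt.VC

end MrgPart1

-- ======== part 2: formerly Pool.Agent.MP_a43263_nt.VC.Exc
section MrgPart2

/-!
Roots of a quadratic polynomial modulo `D`, and vectors on small quadrics.
-/

namespace Pool.Agent.MP_a43263_nt.VC

open Finset UC

theorem root : ROOTStmt := by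
  intro D L a b c W hL ha hD hW
  have ha1 : (1 : ℤ) ≤ |a| := Int.one_le_abs ha
  have hL1 : (1 : ℤ) ≤ (L : ℤ) := by exact_mod_cast hL
  have hD0 : 0 < D := by
    have : (0 : ℤ) < |a| * (L : ℤ) ^ 3 := by positivity
    omega
  have : NeZero D := ⟨hD0.ne'⟩
  have key : W.card ≤ 2 * (range (D / L + 1)).card := by
    refine card_le_mul_card_image_of_maps_to (f := fun t : ZMod D => t.val / L)
      (fun t _ => mem_range.2 (Nat.lt_succ_of_le (Nat.div_le_div_right (ZMod.val_lt t).le))) 2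
      fun j _ => ?_
    by_contra hlt
    obtain ⟨t1, t2, t3, h1, h2, h3, n12, n13, n23⟩ := two_lt_card_iff.1 (not_le.1 hlt)
    simp only [mem_filter] at h1 h2 h3
    have near : ∀ s t : ZMod D, s.val / L = j → t.val / L = j → s ≠ t →
        ((s.val : ℤ) - t.val) ≠ 0 ∧ |(s.val : ℤ) - t.val| < L := by
      intro s t hs ht ne
      refine ⟨fun h => ne (ZMod.val_injective D (by omega)), ?_⟩
      have a1 := Nat.div_add_mod s.val L
      have a2 := Nat.div_add_mod t.val L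
      have a3 := Nat.mod_lt s.val hL
      have a4 := Nat.mod_lt t.val hL
      rw [hs] at a1
      rw [ht] at a2
      rw [abs_lt]
      generalize L * j = z at a1 a2
      omega
    obtain ⟨p12, q12⟩ := near t1 t2 h1.2 h2.2 n12
    obtain ⟨p13, q13⟩ := near t1 t3 h1.2 h3.2 n13
    obtain ⟨p23, q23⟩ := near t2 t3 h2.2 h3.2 n23
    set u : ℤ := (t1.val : ℤ) - t2.val with hu
    set v : ℤ := (t1.val : ℤ) - t3.val with hv
    set w : ℤ := (t2.val : ℤ) - t3.val with hw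
    have hz : ((a * (u * v * w) : ℤ) : ZMod D) = 0 := by
      simp only [hu, hv, hw]
      push_cast
      simp only [ZMod.natCast_val, ZMod.cast_id', id]
      linear_combination (t2 - t3) * hW t1 h1.1 - (t1 - t3) * hW t2 h2.1 + (t1 - t2) * hW t3 h3.1
    have hdvd := (ZMod.intCast_zmod_eq_zero_iff_dvd _ _).1 hz
    have hne : a * (u * v * w) ≠ 0 := mul_ne_zero ha (mul_ne_zero (mul_ne_zero p12 p13) p23)
    have hle := Int.le_of_dvd (abs_pos.2 hne) ((dvd_abs _ _).2 hdvd)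
    rw [abs_mul, abs_mul, abs_mul] at hle
    have hb : |u| * |v| * |w| < (L : ℤ) ^ 3 := by
      have e1 : |u| * |v| < (L : ℤ) * L := mul_lt_mul'' q12 q13 (abs_nonneg _) (abs_nonneg _)
      have e2 := mul_lt_mul'' e1 q23 (by positivity) (abs_nonneg _)
      calc _ < _ := e2
        _ = _ := by ring
    have := mul_lt_mul_of_pos_left hb (abs_pos.2 ha)
    omega
  rw [card_range] at key
  have k2 : (W.card : ℝ) ≤ ((2 * (D / L + 1) : ℕ) : ℝ) := by exact_mod_cast key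
  push_cast at k2
  have := @Nat.cast_div_le ℝ _ _ _ D L
  linarith

namespace Exc

/-- The quadratic form with coefficients `k`. -/
def Q {n : ℕ} {R : Type} [CommRing R] (k : Fin n × Fin n → ℤ) (v : Fin n → R) : R :=
  ∑ x ∈ up n, (k x : R) * (v x.1 * v x.2)

theorem exists_dir {n K : ℕ} (k : Fin n × Fin n → ℤ) (hk : ∀ x, |k x| < K)
    (h0 : ∃ x ∈ up n, k x ≠ 0) : ∃ y : Fin n → ℤ, Q k y ≠ 0 ∧ |Q k y| < K := by
  obtain ⟨x, hx, hx0, hd⟩ : ∃ x ∈ up n, k x ≠ 0 ∧ (x.1 = x.2 ∨ ∀ p, k (p, p) = 0) := by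
    by_cases h : ∀ p, k (p, p) = 0
    · obtain ⟨x, hx, h1⟩ := h0
      exact ⟨x, hx, h1, Or.inr h⟩
    · obtain ⟨p, hp⟩ := not_forall.1 h
      exact ⟨(p, p), by simp [up], hp, Or.inl rfl⟩
  have hQ : Q k (fun i => if i = x.1 ∨ i = x.2 then (1 : ℤ) else 0) = k x := by
    unfold Q
    rw [sum_eq_single_of_mem x hx]
    · simp
    · intro z hz ne
      have hz' : z.1 ≤ z.2 := by simpa [up] using hz
      have hx' : x.1 ≤ x.2 := by simpa [up] using hx
      by_cases h1 : z.1 = x.1 ∨ z.1 = x.2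
      · by_cases h2 : z.2 = x.1 ∨ z.2 = x.2
        · have hne : ¬ (z.1 = x.1 ∧ z.2 = x.2) := fun h => ne (Prod.ext h.1 h.2)
          have hzz : z.1 = z.2 ∧ x.1 ≠ x.2 := by
            simp only [Fin.ext_iff, Fin.le_def, ne_eq] at *
            omega
          have : k z = 0 := by
            rcases hd with hd | hd
            · exact absurd hd hzz.2
            · have := hd z.1
              rwa [show (z.1, z.1) = z from Prod.ext rfl hzz.1] at this
          simp [this]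
        · simp [h2]
      · simp [h1]
  exact ⟨_, by rw [hQ]; exact hx0, by rw [hQ]; exact hk x⟩

theorem one (hr : ROOTStmt) {n K L D : ℕ} [NeZero D] (hL : 0 < L) (hD : K * L ^ 3 ≤ D)
    (hLD : L ≤ D) (k : Fin n × Fin n → ℤ) (hk : ∀ x, |k x| < K) (h0 : ∃ x ∈ up n, k x ≠ 0) :
    ((univ.filter fun v : Fin n → ZMod D => Q k v = 0).card : ℝ) ≤ 4 / L * (D : ℝ) ^ n := by
  obtain ⟨y, hy0, hyK⟩ := exists_dir k hk h0
  set y' : Fin n → ZMod D := fun i => (y i : ZMod D) with hy'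
  have hD0 : (0 : ℝ) < D := by exact_mod_cast Nat.pos_of_ne_zero (NeZero.ne D)
  have hL0 : (0 : ℝ) < L := by exact_mod_cast hL
  have h1 : ∀ t : ZMod D, (univ.filter fun v : Fin n → ZMod D => Q k (v + t • y') = 0).card
      = (univ.filter fun v : Fin n → ZMod D => Q k v = 0).card := fun t =>
    card_equiv (Equiv.addRight (t • y')) (by simp)
  have h2 : ∀ v : Fin n → ZMod D,
      ((univ.filter fun t : ZMod D => Q k (v + t • y') = 0).card : ℝ) ≤ 2 * ((D : ℝ) / L + 1) := by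
    intro v
    refine hr D L (Q k y) (∑ x ∈ up n, (k x : ZMod D) * (v x.1 * y' x.2 + y' x.1 * v x.2)) (Q k v)
      _ hL hy0 ?_ fun t ht => ?_
    · have : (K : ℤ) * (L : ℤ) ^ 3 ≤ D := by exact_mod_cast hD
      have h3 : |Q k y| * (L : ℤ) ^ 3 ≤ (K : ℤ) * (L : ℤ) ^ 3 := by gcongr
      linarith
    · rw [← (mem_filter.1 ht).2]
      simp only [Q, Int.cast_sum, Int.cast_mul, Int.cast_id, sum_mul, ← sum_add_distrib,
        Pi.add_apply, Pi.smul_apply, smul_eq_mul, hy']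
      exact sum_congr rfl fun x _ => by ring
  have h3 : ∑ t : ZMod D, (univ.filter fun v : Fin n → ZMod D => Q k (v + t • y') = 0).card
      = ∑ v : Fin n → ZMod D, (univ.filter fun t : ZMod D => Q k (v + t • y') = 0).card := by
    simp only [card_filter]
    exact sum_comm
  simp only [h1, sum_const, card_univ, ZMod.card, smul_eq_mul] at h3
  have h4 : (D : ℝ) * ((univ.filter fun v : Fin n → ZMod D => Q k v = 0).card : ℝ)
      ≤ (D : ℝ) ^ n * (2 * ((D : ℝ) / L + 1)) := by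
    have h5 := congrArg (Nat.cast : ℕ → ℝ) h3
    push_cast at h5
    rw [h5]
    refine (sum_le_sum fun v _ => h2 v).trans ?_
    simp [ZMod.card]
  have h6 : (1 : ℝ) ≤ (D : ℝ) / L := by
    rw [le_div_iff₀ hL0, one_mul]
    exact_mod_cast hLD
  refine le_of_mul_le_mul_left (h4.trans ?_) hD0
  calc (D : ℝ) ^ n * (2 * ((D : ℝ) / L + 1)) ≤ (D : ℝ) ^ n * (4 * ((D : ℝ) / L)) :=
        mul_le_mul_of_nonneg_left (by linarith) (by positivity)
    _ = _ := by ring

end Exc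

theorem exc : ROOTStmt → EXCStmt := by
  intro hr n K ε hε
  classical
  set S : Finset (Fin n × Fin n → ℤ) :=
    (Fintype.piFinset fun _ => Ioo (-(K : ℤ)) K).filter fun k => ∃ x ∈ up n, k x ≠ 0 with hS
  set L : ℕ := ⌈4 * S.card / ε⌉₊ + 1 with hLdef
  have hL : 0 < L := Nat.succ_pos _
  have hL0 : (0 : ℝ) < L := by exact_mod_cast hL
  refine ⟨K * L ^ 3 + L, fun D V hD hV => ?_⟩
  have : NeZero D := ⟨by omega⟩
  have hsub : V ⊆ S.biUnion fun k => univ.filter fun v : Fin n → ZMod D => Exc.Q k v = 0 := by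
    intro v hv
    obtain ⟨k, hk, h0, hq⟩ := hV v hv
    refine mem_biUnion.2 ⟨k, mem_filter.2 ⟨Fintype.mem_piFinset.2 fun x => ?_, h0⟩,
      mem_filter.2 ⟨mem_univ _, hq⟩⟩
    exact mem_Ioo.2 (abs_lt.1 (hk x))
  have h1 : (V.card : ℝ) ≤
      ∑ k ∈ S, ((univ.filter fun v : Fin n → ZMod D => Exc.Q k v = 0).card : ℝ) := by
    exact_mod_cast (card_le_card hsub).trans card_biUnion_le
  have h2 : ∀ k ∈ S, ((univ.filter fun v : Fin n → ZMod D => Exc.Q k v = 0).card : ℝ)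
      ≤ 4 / L * (D : ℝ) ^ n := fun k hk =>
    Exc.one hr hL (by omega) (by omega) k
      (fun x => abs_lt.2 (mem_Ioo.1 (Fintype.mem_piFinset.1 (mem_filter.1 hk).1 x)))
      (mem_filter.1 hk).2
  have h3 : (S.card : ℝ) * (4 / L) ≤ ε := by
    have : 4 * S.card / ε ≤ (L : ℝ) := by
      rw [hLdef]
      push_cast
      linarith [Nat.le_ceil (4 * S.card / ε)]
    rw [div_le_iff₀ hε] at this
    rw [← mul_div_assoc, div_le_iff₀ hL0]
    linarith
  refine h1.trans ((sum_le_sum h2).trans ?_)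
  rw [sum_const, nsmul_eq_mul, ← mul_assoc]
  gcongr

end Pool.Agent.MP_a43263_nt.VC

end MrgPart2

-- ======== part 3: formerly Pool.Agent.MP_a43263_nt.VC.Rep
section MrgPart3

/-! Rank one matrices modulo a squarefree number, and the large sieve. -/

namespace Pool.Agent.MP_a43263_nt.VC

open Finset UC

namespace Rep

/-- The integral form of the representation. -/
def R {n : ℕ} (D : ℤ) (B : Mz n) : Prop := ∃ (c : ℤ) (v lam : Fin n → ℤ),
  (∀ p q, B p q ≡ c * (v p * v q) [ZMOD D]) ∧ ∑ p, lam p * v p ≡ 1 [ZMOD D]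

theorem crt {m m' : ℤ} (h : IsCoprime m m') (x y : ℤ) :
    ∃ z, z ≡ x [ZMOD m] ∧ z ≡ y [ZMOD m'] := by
  obtain ⟨u, w, e⟩ := h
  refine ⟨w * m' * x + u * m * y, Int.modEq_iff_dvd.2 ⟨u * (x - y), ?_⟩,
    Int.modEq_iff_dvd.2 ⟨w * (y - x), ?_⟩⟩
  · linear_combination (-x) * e
  · linear_combination (-y) * e

theorem mul {n : ℕ} {m m' : ℤ} {B : Mz n} (h : IsCoprime m m') (h1 : R m B) (h2 : R m' B) :
    R (m * m') B := by
  obtain ⟨c, v, lam, a1, a2⟩ := h1
  obtain ⟨c', v', lam', b1, b2⟩ := h2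
  obtain ⟨C, c1, c2⟩ := crt h c c'
  choose V v1 v2 using fun p => crt h (v p) (v' p)
  choose Λ l1 l2 using fun p => crt h (lam p) (lam' p)
  have k : ∀ x y : ℤ, x ≡ y [ZMOD m] → x ≡ y [ZMOD m'] → x ≡ y [ZMOD m * m'] := fun x y e e' =>
    Int.modEq_iff_dvd.2 (h.mul_dvd e.dvd e'.dvd)
  refine ⟨C, V, Λ, fun p q => k _ _ ((a1 p q).trans (c1.mul ((v1 p).mul (v1 q))).symm)
    ((b1 p q).trans (c2.mul ((v2 p).mul (v2 q))).symm), k _ _ (Int.ModEq.trans ?_ a2)
    (Int.ModEq.trans ?_ b2)⟩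
  · exact Int.ModEq.sum fun p _ => (l1 p).mul (v1 p)
  · exact Int.ModEq.sum fun p _ => (l2 p).mul (v2 p)

theorem prime {n l : ℕ} {B : Mz n} (hn : 1 ≤ n) (hl : l.Prime) (hs : B.IsSymm) (h : Mn l B) :
    R l B := by
  have hp : Prime (l : ℤ) := Nat.prime_iff_prime_int.1 hl
  by_cases h0 : ∀ r, (l : ℤ) ∣ B r r
  · refine ⟨0, fun _ => 1, Pi.single ⟨0, hn⟩ 1, fun p q => ?_, ?_⟩
    · rw [zero_mul, Int.modEq_zero_iff_dvd]
      have a := h p q q p
      rw [hs.apply p q] at a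
      have b : (l : ℤ) ∣ B p q * B p q := by
        simpa using a.add ((h0 p).mul_right (B q q))
      exact (hp.dvd_or_dvd b).elim id id
    · simp
  · obtain ⟨r, hr⟩ := not_forall.1 h0
    obtain ⟨u, i, e⟩ := (hp.irreducible.coprime_iff_not_dvd).2 hr
    refine ⟨B r r, fun p => i * B r p, Pi.single r 1, fun p q => ?_, ?_⟩
    · obtain ⟨t, ht⟩ := h r r p q
      rw [hs.apply r p] at ht
      refine Int.modEq_iff_dvd.2 ⟨-(B r r * i * i * t) - u * (1 + i * B r r) * B p q, ?_⟩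
      linear_combination (-(B r r * i * i)) * ht + (1 + i * B r r) * B p q * e
    · have : ∑ p, (Pi.single r 1 : Fin n → ℤ) p * (i * B r p) = i * B r r := by
        simp [Pi.single_apply]
      rw [this]
      exact Int.modEq_iff_dvd.2 ⟨u, by linear_combination (-1) * e⟩

theorem all {n : ℕ} {B : Mz n} (hn : 1 ≤ n) (hs : B.IsSymm) (D : ℕ) :
    Squarefree D → Mn D B → R D B := by
  induction D using induction_on_primes with
  | zero => exact fun h => absurd h not_squarefree_zero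
  | one => exact fun _ _ => ⟨0, 0, 0, fun _ _ => by simpa using Int.modEq_one,
      by simpa using Int.modEq_one⟩
  | prime_mul l a hl ih =>
    intro h hm
    obtain ⟨h1, -, h3⟩ := Nat.squarefree_mul_iff.1 h
    rw [Nat.cast_mul]
    refine mul (Nat.isCoprime_iff_coprime.2 h1) (prime hn hl hs fun p q p' q' => ?_)
      (ih h3 fun p q p' q' => ?_)
    · exact (Int.natCast_dvd_natCast.2 (dvd_mul_right l a)).trans (hm p q p' q')
    · exact (Int.natCast_dvd_natCast.2 (dvd_mul_left a l)).trans (hm p q p' q')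

theorem re_ge {D : ℕ} [NeZero D] (y : ℤ) (h : 6 * |y| ≤ D) :
    1 / 2 ≤ (ZMod.stdAddChar (y : ZMod D)).re := by
  have hD : (0 : ℝ) < D := by exact_mod_cast NeZero.pos D
  have e : (2 * Real.pi * Complex.I * y / D : ℂ) = ((2 * Real.pi * y / D : ℝ) : ℂ) * Complex.I := by
    push_cast; ring
  rw [ZMod.stdAddChar_coe, e, Complex.exp_ofReal_mul_I_re, ← Real.cos_abs, ← Real.cos_pi_div_three]
  refine Real.cos_le_cos_of_nonneg_of_le_pi (abs_nonneg _) (by linarith [Real.pi_pos]) ?_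
  have h' : 6 * |(y : ℝ)| ≤ D := by exact_mod_cast h
  rw [abs_div, abs_mul, abs_of_pos hD, abs_of_pos (by positivity : 0 < 2 * Real.pi),
    div_le_iff₀ hD]
  nlinarith [Real.pi_pos]

theorem pars {D : ℕ} [NeZero D] (P : Finset (ZMod D)) :
    ∑ c : ZMod D, ‖∑ ξ ∈ P, ZMod.stdAddChar (c * ξ)‖ ^ 2 = D * P.card := by
  have k : ∀ c : ZMod D, ((‖∑ ξ ∈ P, ZMod.stdAddChar (c * ξ)‖ ^ 2 : ℝ) : ℂ) =
      ∑ ξ ∈ P, ∑ ξ' ∈ P, ZMod.stdAddChar (c * (ξ - ξ')) := fun c => by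
    rw [Complex.ofReal_pow, ← Complex.mul_conj', map_sum, sum_mul_sum]
    refine sum_congr rfl fun ξ _ => sum_congr rfl fun ξ' _ => ?_
    rw [← AddChar.map_neg_eq_conj, ← AddChar.map_add_eq_mul]
    congr 1
    ring
  apply Complex.ofReal_injective
  rw [Complex.ofReal_sum, sum_congr rfl fun c _ => k c, sum_comm]
  have : ∀ ξ ∈ P, ∑ c : ZMod D, ∑ ξ' ∈ P, ZMod.stdAddChar (c * (ξ - ξ')) = (D : ℂ) := by
    intro ξ hξ
    rw [sum_comm]
    simp only [AddChar.sum_mulShift _ (ZMod.isPrimitive_stdAddChar D), sub_eq_zero, ZMod.card]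
    simp [hξ]
  rw [sum_congr rfl this]
  simp [mul_comm]

end Rep

theorem rep : REPStmt := by
  intro n D B hn hD hs hm
  have : NeZero D := ⟨hD.ne_zero⟩
  obtain ⟨c, v, lam, h1, h2⟩ := Rep.all hn hs D hD hm
  have h3 : ∑ p, (lam p : ZMod D) * (v p : ZMod D) = 1 := by
    simpa using (ZMod.intCast_eq_intCast_iff _ _ _).2 h2
  refine ⟨univ.image fun u : (ZMod D)ˣ => fun p => (u : ZMod D) * (v p : ZMod D), ?_, ?_⟩
  · rw [card_image_of_injective, card_univ, ZMod.card_units_eq_totient]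
    intro u u' e
    have k : ∀ w : ZMod D, w = ∑ p, (lam p : ZMod D) * (w * (v p : ZMod D)) := fun w => by
      conv_lhs => rw [← mul_one w, ← h3, mul_sum]
      exact sum_congr rfl fun p _ => by ring
    refine Units.ext ((k u).trans (Eq.trans ?_ (k u').symm))
    exact sum_congr rfl fun p _ => congrArg _ (congrFun e p)
  · intro w hw
    obtain ⟨u, -, rfl⟩ := mem_image.1 hw
    refine ⟨c * ((u⁻¹ : (ZMod D)ˣ) * (u⁻¹ : (ZMod D)ˣ)), fun p q => ?_⟩
    have a := (ZMod.intCast_eq_intCast_iff _ _ _).2 (h1 p q)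
    have b := u.mul_inv
    push_cast at a
    rw [a]
    linear_combination (-(c * (v p * v q) * (1 + u * (u⁻¹ : (ZMod D)ˣ))) : ZMod D) * b

theorem arc : ARCStmt := by
  intro D B P hD h
  have : NeZero D := ⟨hD.ne'⟩
  rcases P.card.eq_zero_or_pos with h0 | h0
  · simp [h0]
  have hP : (0 : ℝ) < P.card := by exact_mod_cast h0
  have k : ∀ c ∈ B, ((P.card : ℝ) / 2) ^ 2 ≤ ‖∑ ξ ∈ P, ZMod.stdAddChar (c * ξ)‖ ^ 2 := by
    intro c hc
    refine pow_le_pow_left₀ (by positivity) (le_trans ?_ (Complex.re_le_norm _)) 2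
    rw [Complex.re_sum]
    have := card_nsmul_le_sum P (fun ξ => (ZMod.stdAddChar (c * ξ)).re) (1 / 2) fun ξ hξ => by
      obtain ⟨y, y1, y2⟩ := h c hc ξ hξ
      rw [← y2]
      exact Rep.re_ge y y1
    rw [nsmul_eq_mul] at this
    linarith
  have k2 := (card_nsmul_le_sum B _ _ k).trans
    (sum_le_sum_of_subset_of_nonneg (subset_univ B) fun _ _ _ => sq_nonneg _)
  rw [Rep.pars, nsmul_eq_mul] at k2
  have k3 : (B.card : ℝ) * P.card ≤ 4 * D := by
    refine le_of_mul_le_mul_right ?_ hP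
    nlinarith
  exact_mod_cast k3

end Pool.Agent.MP_a43263_nt.VC

end MrgPart3

-- ======== part 4: formerly Pool.Agent.MP_a43263_nt.VC.Row
section MrgPart4

/-!
Integer symmetric matrices of rank one modulo `D` with three given entries.
-/

namespace Pool.Agent.MP_a43263_nt.VC

open Polynomial Matrix Finset UC

namespace Row

theorem pi_le {α ι : Type} [DecidableEq ι] (W : Finset α) (I : Finset ι) (f : α → ι → ℤ)
    (c : ι → ℝ) (hinj : ∀ B ∈ W, ∀ B' ∈ W, (∀ i ∈ I, f B i = f B' i) → B = B')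
    (hc : ∀ i ∈ I, ((W.image fun B => f B i).card : ℝ) ≤ c i) :
    (W.card : ℝ) ≤ ∏ i ∈ I, c i := by
  classical
  have h1 : W.card ≤ (I.pi fun i => W.image fun B => f B i).card := by
    refine card_le_card_of_injOn (fun B i _ => f B i) (fun B hB => ?_) fun B hB B' hB' e => ?_
    · exact mem_coe.2 (mem_pi.2 fun i _ => mem_image_of_mem _ hB)
    · exact hinj B hB B' hB' fun i hi => congrFun (congrFun e i) hi
  rw [card_pi] at h1
  have h2 : (W.card : ℝ) ≤ ∏ i ∈ I, ((W.image fun B => f B i).card : ℝ) := by exact_mod_cast h1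
  exact h2.trans (prod_le_prod (fun i _ => Nat.cast_nonneg _) hc)

theorem fib_le {α β : Type} [DecidableEq β] (W : Finset α) (g : α → β) (c : ℝ)
    (hc : ∀ B ∈ W, ((W.filter fun B' => g B' = g B).card : ℝ) ≤ c) :
    (W.card : ℝ) ≤ (W.image g).card * c := by
  rw [card_eq_sum_card_image g W]
  push_cast
  refine (sum_le_card_nsmul _ _ c fun b hb => ?_).trans (by rw [nsmul_eq_mul])
  obtain ⟨B, hB, rfl⟩ := mem_image.1 hb
  exact hc B hB

theorem dvd_of_sq {h : ℕ} (hh : Squarefree h) {x : ℤ} (hx : (h : ℤ) ∣ x * x) : (h : ℤ) ∣ x := by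
  have h1 : Squarefree (h : ℤ) := Int.squarefree_natCast.2 hh
  exact h1.isRadical 2 x (by rwa [sq])

end Row

open Row in
theorem row : RKStmt → ROWStmt := by
  classical
  intro hRK n D r r' Y s t u W hD hrr hs hY hsY hW
  have hD0 : 0 < D := Nat.pos_of_ne_zero hD.ne_zero
  have hh0 : 0 < Int.gcd s D := Int.gcd_pos_of_ne_zero_left _ hs
  have hhD : Int.gcd s D ∣ D := Int.natCast_dvd_natCast.1 (Int.gcd_dvd_right s D)
  have hhsq : Squarefree (Int.gcd s D) := hD.squarefree_of_dvd hhD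
  have hhs : ((Int.gcd s D : ℕ) : ℝ) ≤ |(s : ℝ)| := by
    have h1 : ((Int.gcd s D : ℕ) : ℤ) ≤ |s| :=
      Int.le_of_dvd (abs_pos.2 hs) ((dvd_abs _ _).2 (Int.gcd_dvd_left s D))
    exact_mod_cast h1
  have hmin : ∀ B ∈ W, ∀ q, (D : ℤ) ∣ s * B q q - B r q * B r q := by
    intro B hB q
    obtain ⟨h1, h2, -, -, h5, -⟩ := hW B hB
    have h3 := h2 r r q q
    rwa [h5, h1.apply r q] at h3
  have hP : 0 ≤ ∏ x ∈ ((up n).filter fun x => x.1 ≠ r).erase (r', r'),
      (2 * Y x.1 x.2 / D + 1) :=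
    prod_nonneg fun x _ => by have := hY x.1 x.2; positivity
  -- the values of the row
  have s1 : ((W.image fun B q => if q ∈ (Ioi r).erase r' then B r q else 0).card : ℝ) ≤
      ∏ q ∈ (Ioi r).erase r', 3 * Y r q / Int.gcd s D := by
    refine pi_le _ _ (fun b q => b q) _ (fun b hb b' hb' e => ?_) fun q hq => ?_
    · obtain ⟨B, -, rfl⟩ := mem_image.1 hb
      obtain ⟨B', -, rfl⟩ := mem_image.1 hb'
      funext q
      by_cases hq : q ∈ (Ioi r).erase r'
      · exact e q hq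
      · simp only [if_neg hq]
    · have hv : ∀ x ∈ (W.image fun B q => if q ∈ (Ioi r).erase r' then B r q else 0).image
          fun b => b q, ∃ B ∈ W, x = B r q := by
        intro x hx
        obtain ⟨b, hb, rfl⟩ := mem_image.1 hx
        obtain ⟨B, hB, rfl⟩ := mem_image.1 hb
        exact ⟨B, hB, if_pos hq⟩
      have hd : ∀ B ∈ W, ((Int.gcd s D : ℕ) : ℤ) ∣ B r q := by
        intro B hB
        refine dvd_of_sq hhsq ?_
        have h1 := (Int.gcd_dvd_right s D).trans (hmin B hB q)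
        have h2 := (Int.gcd_dvd_left s D).mul_right (B q q)
        have h3 := h2.sub h1
        rwa [sub_sub_cancel] at h3
      refine (cls _ (Y r q) _ hh0 (hY r q) (fun x hx => ?_) fun x hx x' hx' => ?_).trans ?_
      · obtain ⟨B, hB, rfl⟩ := hv x hx
        exact (hW B hB).2.2.1 r q
      · obtain ⟨B, hB, rfl⟩ := hv x hx
        obtain ⟨B', hB', rfl⟩ := hv x' hx'
        exact (hd B hB).sub (hd B' hB')
      · have h1 := hhs.trans (hsY q (mem_Ioi.1 (mem_of_mem_erase hq)))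
        have h2 : (0 : ℝ) < Int.gcd s D := by exact_mod_cast hh0
        rw [div_add_one h2.ne']
        gcongr
        linarith
  -- one value of the row
  have s2 : ∀ B ∈ W, ((W.filter fun B' =>
      (fun q => if q ∈ (Ioi r).erase r' then B' r q else 0) =
        fun q => if q ∈ (Ioi r).erase r' then B r q else 0).card : ℝ) ≤
      ((Int.gcd s D : ℕ) : ℝ) ^ ((Ioi r).erase r').card *
        ∏ x ∈ ((up n).filter fun x => x.1 ≠ r).erase (r', r'), (2 * Y x.1 x.2 / D + 1) := by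
    intro B hB
    set W1 := W.filter fun B' => (fun q => if q ∈ (Ioi r).erase r' then B' r q else 0) =
        fun q => if q ∈ (Ioi r).erase r' then B r q else 0 with hW1
    have hsub : ∀ B' ∈ W1, B' ∈ W := fun B' h => (mem_filter.1 h).1
    have hrow : ∀ B' ∈ W1, ∀ q, r ≤ q → B' r q = B r q := by
      intro B' h q hq
      obtain ⟨h1, h2⟩ := mem_filter.1 h
      rcases hq.eq_or_lt with rfl | hq
      · rw [(hW B' h1).2.2.2.2.1, (hW B hB).2.2.2.2.1]
      · by_cases h3 : q = r'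
        · rw [h3, (hW B' h1).2.2.2.2.2.1, (hW B hB).2.2.2.2.2.1]
        · have h4 : q ∈ (Ioi r).erase r' := mem_erase.2 ⟨h3, mem_Ioi.2 hq⟩
          have h5 := congrFun h2 q
          simpa only [if_pos h4] using h5
    have hlow : ∀ B' ∈ W, ∀ q, q < r → ((B' r q : ℤ) : ZMod D) = 0 := by
      intro B' h q hq
      have h1 := hmin B' h q
      rw [(hW B' h).2.2.2.1 q hq, mul_zero, zero_sub, dvd_neg] at h1
      exact (ZMod.intCast_zmod_eq_zero_iff_dvd _ _).2 (dvd_of_sq hD h1)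
    refine (fib_le W1 (fun B' => B'.map (Int.castRingHom (ZMod D))) _ fun B1 hB1 => ?_).trans
      (mul_le_mul_of_nonneg_right ?_ hP)
    · refine pi_le _ _ (fun B' x => B' x.1 x.2) _ (fun B2 h2 B3 h3 e => ?_) fun x _ => ?_
      · have a2 := (mem_filter.1 h2).1
        have a3 := (mem_filter.1 h3).1
        have key : ∀ p q, p ≤ q → B2 p q = B3 p q := by
          intro p q hpq
          by_cases hp : p = r
          · subst hp
            rw [hrow B2 a2 q hpq, hrow B3 a3 q hpq]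
          · by_cases hx : (p, q) = (r', r')
            · obtain ⟨rfl, rfl⟩ := Prod.mk.inj hx
              rw [(hW B2 (hsub _ a2)).2.2.2.2.2.2, (hW B3 (hsub _ a3)).2.2.2.2.2.2]
            · exact e (p, q) (mem_erase.2 ⟨hx, mem_filter.2
                ⟨mem_filter.2 ⟨mem_univ _, hpq⟩, hp⟩⟩)
        ext p q
        rcases le_total p q with h | h
        · exact key p q h
        · rw [← (hW B2 (hsub _ a2)).1.apply p q, ← (hW B3 (hsub _ a3)).1.apply p q]
          exact key q p h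
      · refine cls _ (Y x.1 x.2) D hD0 (hY _ _) (fun z hz => ?_) fun z hz z' hz' => ?_
        · obtain ⟨B2, h2, rfl⟩ := mem_image.1 hz
          exact (hW B2 (hsub _ (mem_filter.1 h2).1)).2.2.1 _ _
        · obtain ⟨B2, h2, rfl⟩ := mem_image.1 hz
          obtain ⟨B3, h3, rfl⟩ := mem_image.1 hz'
          have e := (mem_filter.1 h3).2.trans (mem_filter.1 h2).2.symm
          exact (ZMod.intCast_eq_intCast_iff_dvd_sub _ _ _).1 (congrFun (congrFun e x.1) x.2)
    · have h1 := hRK n D r r' s (fun q => ((B r q : ℤ) : ZMod D)) (u : ZMod D)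
        (W1.image fun B' => B'.map (Int.castRingHom (ZMod D))) hD hrr
        (by simp only [(hW B hB).2.2.2.2.1]) fun C hC => ?_
      · exact_mod_cast h1
      · obtain ⟨B', hB', rfl⟩ := mem_image.1 hC
        obtain ⟨c1, c2, -, c4, -, -, c7⟩ := hW B' (hsub _ hB')
        refine ⟨c1.map _, fun p q p' q' => ?_, fun j hj => ?_, fun q => ?_, ?_⟩
        · have h2 := (ZMod.intCast_zmod_eq_zero_iff_dvd _ _).2 (c2 p q p' q')
          push_cast at h2
          exact sub_eq_zero.1 h2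
        · simp only [map_apply, c4 j hj, map_zero]
        · change ((B' r q : ℤ) : ZMod D) = ((B r q : ℤ) : ZMod D)
          rcases lt_or_ge q r with hq | hq
          · rw [hlow B' (hsub _ hB') q hq, hlow B hB q hq]
          · rw [hrow B' hB' q hq]
        · change ((B' r' r' : ℤ) : ZMod D) = (u : ZMod D)
          rw [c7]
  have h2 : (0 : ℝ) < Int.gcd s D := by exact_mod_cast hh0
  refine (fib_le W (fun B q => if q ∈ (Ioi r).erase r' then B r q else 0) _ s2).trans ?_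
  refine (mul_le_mul_of_nonneg_right s1 (mul_nonneg (by positivity) hP)).trans (le_of_eq ?_)
  rw [← mul_assoc, prod_div_distrib, prod_const, div_mul_cancel₀ _ (pow_pos h2 _).ne']

end Pool.Agent.MP_a43263_nt.VC

end MrgPart4

-- ======== part 5: formerly Pool.Agent.MP_a43263_nt.VC.Sum
section MrgPart5

/-! Sums over the exponent vectors. -/

namespace Pool.Agent.MP_a43263_nt.VC

open Finset UC Filter Topology

namespace Sum

theorem summable (d t : ℕ) (x : ℝ) (h0 : 0 < x) (h1 : x < 1) :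
    Summable fun a : ℕ => ((a + t + 1 : ℕ) : ℝ) ^ d * x ^ a := by
  have h2 := summable_pow_mul_geometric_of_norm_lt_one (R := ℝ) d (r := x)
    (by rwa [Real.norm_eq_abs, abs_of_pos h0])
  refine (((summable_nat_add_iff (t + 1)).2 h2).mul_right (x ^ (t + 1))⁻¹).congr fun a => ?_
  rw [pow_add x, ← mul_assoc, mul_inv_cancel_right₀ (pow_pos h0 _).ne', add_assoc]

theorem key (d t m : ℕ) (x : ℝ) (h0 : 0 < x) (h1 : x < 1) {α : Type} (E : Finset α) (φ : α → ℕ)
    (ψ : α → Fin d → ℕ) (inj : Set.InjOn ψ E) (hψ : ∀ e ∈ E, ∀ i, ψ e i ≤ φ e + t)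
    (hm : ∀ e ∈ E, m ≤ φ e) :
    ∑ e ∈ E, x ^ φ e ≤ ∑' a : ℕ, ((a + m + t + 1 : ℕ) : ℝ) ^ d * x ^ (a + m) := by
  rw [← sum_fiberwise_of_maps_to (g := fun e => φ e - m) (t := E.image fun e => φ e - m)
    fun e he => mem_image_of_mem _ he]
  refine le_trans (sum_le_sum fun a _ => ?_)
    (((summable_nat_add_iff m).2 (summable d t x h0 h1)).sum_le_tsum _ fun a _ => by positivity)
  have h2 : ∀ e ∈ E.filter fun e => φ e - m = a, φ e = a + m := fun e he => by
    have := hm e (mem_filter.1 he).1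
    have := (mem_filter.1 he).2
    omega
  rw [sum_congr rfl fun e he => by rw [h2 e he], sum_const, nsmul_eq_mul]
  refine mul_le_mul_of_nonneg_right ?_ (pow_pos h0 _).le
  have h3 : (E.filter fun e => φ e - m = a).card
      ≤ (Fintype.piFinset fun _ : Fin d => range (a + m + t + 1)).card :=
    card_le_card_of_injOn ψ (fun e he => mem_coe.2 (Fintype.mem_piFinset.2 fun i => by
      have h4 := hψ e (mem_filter.1 he).1 i
      rw [h2 e he] at h4
      exact mem_range.2 (by omega))) (inj.mono (coe_subset.2 (filter_subset _ _)))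
  rw [Fintype.card_piFinset, prod_const, card_range, card_univ, Fintype.card_fin] at h3
  exact_mod_cast h3

theorem tail (d t : ℕ) (x ε : ℝ) (hε : 0 < ε) :
    ∀ᶠ m : ℕ in atTop, ∑' a : ℕ, ((a + m + t + 1 : ℕ) : ℝ) ^ d * x ^ (a + m) ≤ ε :=
  (tendsto_sum_nat_add fun a : ℕ => ((a + t + 1 : ℕ) : ℝ) ^ d * x ^ a).eventually
    (eventually_le_nhds hε)

variable {g : ℕ} {e e' : Fin (2 * g + 2) → ℤ}

/-- The low positions. -/
def low (i : Fin (g + 1)) : Fin (2 * g + 2) := ⟨i.1, by omega⟩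

theorem ext (h : Ex e) (h' : Ex e') (hh : ∀ i, e (low i) = e' (low i)) : e = e' := by
  funext p
  rcases lt_or_ge p.1 (g + 1) with c | c
  · exact hh ⟨p.1, c⟩
  · have h1 : e (Fin.rev p) = e' (Fin.rev p) :=
      hh ⟨(Fin.rev p).1, by rw [Fin.val_rev]; have := p.2; omega⟩
    rw [h.2, h'.2] at h1
    omega

theorem bd (h : Ex e) (i : Fin (g + 1)) :
    e 0 ≤ e (low i) ∧ e (low i) ≤ e (mid g) ∧ e (mid g) ≤ 0 := by
  refine ⟨h.1 (Fin.zero_le _), h.1 (show i.1 ≤ g by omega), ?_⟩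
  have h1 := h.1 (show mid g ≤ Fin.rev (mid g) by
    rw [Fin.le_def, Fin.val_rev]; simp only [mid]; omega)
  rw [h.2] at h1
  omega

theorem one (g t m : ℕ) (E : Finset (Fin (2 * g + 2) → ℤ))
    (hE : ∀ e ∈ E, Ex e ∧ (m : ℤ) ≤ - e 0) : ∑ e ∈ E, (2 : ℝ) ^ e 0 ≤
      ∑' a : ℕ, ((a + m + t + 1 : ℕ) : ℝ) ^ (g + 1) * (2⁻¹ : ℝ) ^ (a + m) := by
  refine le_trans (le_of_eq (sum_congr rfl fun e he => ?_))
    (key (g + 1) t m 2⁻¹ (by norm_num) (by norm_num) E (fun e => (- e 0).toNat)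
      (fun e i => (- e (low i)).toNat) (fun e he e' he' h => ext (hE e he).1 (hE e' he').1
        fun i => ?_) (fun e he i => ?_) fun e he => ?_)
  · have := (hE e he).2
    rw [inv_pow, ← zpow_natCast, ← zpow_neg, Int.toNat_of_nonneg (by omega), neg_neg]
  · have h1 := bd (hE e he).1 i
    have h2 := bd (hE e' he').1 i
    have h3 : (- e (low i)).toNat = (- e' (low i)).toNat := congrFun h i
    omega
  · have h1 := bd (hE e he).1 i
    omega
  · have := (hE e he).2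
    omega

theorem two (g t m k : ℕ) (E : Finset (Fin (2 * g + 2) → ℤ))
    (hE : ∀ e ∈ E, Ex e ∧ - 2 * e 0 ≤ k + t ∧ (m : ℤ) ≤ k + 2 * e (mid g)) :
    ∑ e ∈ E, (√2 : ℝ) ^ (- ((k : ℤ) + 2 * e (mid g))) ≤
      ∑' a : ℕ, ((a + m + t + 1 : ℕ) : ℝ) ^ (g + 1) * (√2 : ℝ)⁻¹ ^ (a + m) := by
  refine le_trans (le_of_eq (sum_congr rfl fun e he => ?_))
    (key (g + 1) t m (√2)⁻¹ (by positivity)
      (inv_lt_one_of_one_lt₀ Real.one_lt_sqrt_two) E (fun e => ((k : ℤ) + 2 * e (mid g)).toNat)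
      (fun e i => (2 * e (low i) + k + t).toNat) (fun e he e' he' h => ext (hE e he).1 (hE e' he').1
        fun i => ?_) (fun e he i => ?_) fun e he => ?_)
  · have := (hE e he).2.2
    rw [inv_pow, ← zpow_natCast, ← zpow_neg, Int.toNat_of_nonneg (by omega)]
  · have h1 := bd (hE e he).1 i
    have h2 := bd (hE e' he').1 i
    have h3 : (2 * e (low i) + k + t).toNat = (2 * e' (low i) + k + t).toNat := congrFun h i
    have h4 := (hE e he).2.1
    have h5 := (hE e' he').2.1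
    omega
  · have h1 := bd (hE e he).1 i
    have := (hE e he).2
    omega
  · have := (hE e he).2.2
    omega

end Sum

theorem sum : SUMStmt := by
  intro g t
  refine ⟨⟨max 1 (∑' a : ℕ, ((a + 0 + t + 1 : ℕ) : ℝ) ^ (g + 1) * (2⁻¹ : ℝ) ^ (a + 0)),
    lt_max_of_lt_left one_pos, fun E hE => (Sum.one g t 0 E fun e he => ⟨hE e he, ?_⟩).trans
      (le_max_right _ _)⟩, fun ε hε => ?_⟩
  · have := Sum.bd (hE e he) 0
    omega
  · obtain ⟨m, h1, h2⟩ := ((Sum.tail (g + 1) t 2⁻¹ ε hε).and (Sum.tail (g + 1) t (√2)⁻¹ ε hε)).exists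
    exact ⟨m, fun E hE => (Sum.one g t m E hE).trans h1,
      fun k E hE => (Sum.two g t m k E hE).trans h2⟩

end Pool.Agent.MP_a43263_nt.VC

end MrgPart5

-- ======== part 6: formerly Pool.Agent.MP_a43263_nt.VE.Beta
section MrgPart6

/-! THEOREM V, part E: densities of the bad conditions at one prime. -/

set_option autoImplicit false

noncomputable section

namespace Pool.Agent.MP_a43263_nt.VE

open Polynomial Finset Filter JC VV VA
open UV (zK Nx)

namespace Beta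

theorem cov {α ι : Type} (s : Finset ι) {β : ι → Type} [∀ k, Fintype (β k)] (par : ∀ k, β k → α)
    {S : Set α} (N : ℕ) (hN : ∀ k ∈ s, Fintype.card (β k) ≤ N)
    (h : ∀ x ∈ S, ∃ k ∈ s, ∃ z, par k z = x) : S.ncard ≤ s.card * N := by
  classical
  have h3 : S ⊆ ↑(s.biUnion fun k => univ.image (par k)) := fun x hx => by
    obtain ⟨k, hk, z, hz⟩ := h x hx
    exact mem_coe.2 (mem_biUnion.2 ⟨k, hk, mem_image.2 ⟨z, mem_univ _, hz⟩⟩)
  exact (Set.ncard_le_ncard h3 (finite_toSet _)).trans ((Set.ncard_coe_finset _).trans_le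
    (card_biUnion_le.trans ((sum_le_card_nsmul _ _ N fun k hk => card_image_le.trans (hN k hk)))))

theorem cov1 {α β : Type} [Fintype β] (par : β → α) {S : Set α} (h : ∀ x ∈ S, ∃ z, par z = x) :
    S.ncard ≤ Fintype.card β := by
  simpa using cov ({()} : Finset Unit) (β := fun _ => β) (fun _ => par) (S := S) _
    (fun _ _ => le_rfl) fun x hx => ⟨(), mem_singleton_self _, h x hx⟩

theorem un {α : Type} [Finite α] {S : Set α} (A B : Set α) (h : ∀ x ∈ S, x ∈ A ∨ x ∈ B) :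
    S.ncard ≤ A.ncard + B.ncard :=
  (Set.ncard_le_ncard (t := A ∪ B) h).trans (Set.ncard_union_le _ _)

theorem ini {R : Type} [Zero R] [Finite R] {n : ℕ} (U : Set (Fin n → R)) :
    {y : Fin (n + 1) → R | y (Fin.last n) = 0 ∧ Fin.init y ∈ U}.ncard ≤ U.ncard :=
  Set.ncard_le_ncard_of_injOn Fin.init (fun _ h => h.2) fun x hx y hy e => by
    rw [← Fin.snoc_init_self x, ← Fin.snoc_init_self y, hx.1, hy.1, e]

theorem ini' {R : Type} [Zero R] [Fintype R] (n : ℕ) :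
    {y : Fin (n + 1) → R | y (Fin.last n) = 0}.ncard ≤ Fintype.card R ^ n := by
  simpa [Set.ncard_univ] using ini (Set.univ : Set (Fin n → R))

theorem fm_init {R : Type} [CommRing R] {n : ℕ} {y : Fin (n + 1) → R} (h : y (Fin.last n) = 0) :
    fm (Fin.init y) = fm y := by
  simp [fm, Fin.sum_univ_castSucc, h, Fin.init]

/-- monic polynomials -/
def mn {R : Type} [CommRing R] {j : ℕ} (t : Fin j → R) : R[X] := X ^ j + fm t

theorem mn_monic {R : Type} [CommRing R] {j : ℕ} (t : Fin j → R) : (mn t).Monic :=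
  monic_X_pow_add (fm_degree t)

theorem mn_deg {R : Type} [CommRing R] [Nontrivial R] {j : ℕ} (t : Fin j → R) :
    (mn t).natDegree = j := by
  rw [mn, natDegree_add_eq_left_of_degree_lt, natDegree_X_pow]
  rw [degree_X_pow]
  exact fm_degree t

theorem mn_surj {R : Type} [CommRing R] {j : ℕ} {φ : R[X]} (h : φ.Monic) (hd : φ.natDegree = j) :
    (mn fun i : Fin j => φ.coeff i.1) = φ := by
  subst hd
  conv_rhs => rw [h.as_sum]
  rw [mn, fm, Fin.sum_univ_eq_sum_range fun i => C (φ.coeff i) * X ^ i]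

theorem lift {p : ℕ} (hp : 0 < p) (r : ZMod (p ^ 2)) : ∃ s : Fin p,
    r = ((ZMod.castHom (dvd_pow_self p two_ne_zero) (ZMod p) r).val : ZMod (p ^ 2)) +
      (p : ZMod (p ^ 2)) * (s.1 : ZMod (p ^ 2)) := by
  have : NeZero (p ^ 2) := ⟨by positivity⟩
  refine ⟨⟨r.val / p, Nat.div_lt_of_lt_mul (by rw [← sq]; exact r.val_lt)⟩, ?_⟩
  rw [ZMod.castHom_apply, ZMod.cast_eq_val, ZMod.val_natCast, ← Nat.cast_mul, ← Nat.cast_add,
    Nat.mod_add_div, ZMod.natCast_zmod_val]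

theorem lift' {p : ℕ} (hp : 0 < p) (r : ZMod (p ^ 2)) :
    ∃ (t : Fin p) (w : ZMod (p ^ 2)), r = (t.1 : ZMod (p ^ 2)) + (p : ZMod (p ^ 2)) * w := by
  have : NeZero p := ⟨hp.ne'⟩
  obtain ⟨s, hs⟩ := lift hp r
  exact ⟨⟨_, ZMod.val_lt _⟩, _, hs⟩

theorem up {n p : ℕ} (hp : 0 < p) (T : Set (Fin n → ZMod p)) :
    {x : Fin n → ZMod (p ^ 2) | ∃ c : Fin n → ℤ, (fun i => (c i : ZMod (p ^ 2))) = x ∧
      (fun i => (c i : ZMod p)) ∈ T}.ncard ≤ T.ncard * p ^ n := by
  have : NeZero p := ⟨hp.ne'⟩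
  have h : {x : Fin n → ZMod (p ^ 2) | ∃ c : Fin n → ℤ, (fun i => (c i : ZMod (p ^ 2))) = x ∧
      (fun i => (c i : ZMod p)) ∈ T} ⊆ (fun (z : (Fin n → ZMod p) × (Fin n → Fin p)) i =>
        ((z.1 i).val : ZMod (p ^ 2)) + (p : ZMod (p ^ 2)) * ((z.2 i).1 : ZMod (p ^ 2))) ''
          T ×ˢ Set.univ := by
    rintro _ ⟨c, rfl, hc⟩
    choose s hs using fun i => lift hp (c i : ZMod (p ^ 2))
    refine ⟨(_, s), ⟨hc, trivial⟩, funext fun i => ?_⟩
    have := hs i
    rw [map_intCast] at this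
    exact this.symm
  refine (Set.ncard_le_ncard h).trans ((Set.ncard_image_le (Set.toFinite _)).trans ?_)
  simp [Set.ncard_prod, Set.ncard_univ]

theorem thin {n p κ : ℕ} (hp : 0 < p) (hn : 0 < n) {B : (Fin n → ℤ) → Prop}
    (h : {x : Fin n → ZMod (p ^ 2) | ∃ c : Fin n → ℤ, (fun i => (c i : ZMod (p ^ 2))) = x ∧
      B c}.ncard ≤ κ * p ^ (2 * n - 2)) : Thin κ p B := by
  refine (Nat.cast_le.2 h).trans (le_of_eq ?_)
  obtain ⟨m, hm⟩ : ∃ m, 2 * n = m + 2 := ⟨2 * n - 2, by omega⟩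
  have : (0 : ℝ) < p := by exact_mod_cast hp
  rw [hm, Nat.add_sub_cancel, pow_add]
  push_cast
  field_simp

theorem insN (n p : ℕ) (hp : p.Prime) :
    {x : Fin (n + 1) → ZMod p | ¬((fm x).Separable ∧ (fm x).natDegree = n)}.ncard ≤
      (n + 1) * p ^ n := by
  have : Fact p.Prime := ⟨hp⟩
  refine (un {x | x (Fin.last n) = 0} {x | x (Fin.last n) ≠ 0 ∧ ¬(fm x).Separable} fun x hx => ?_).trans
    ((add_le_add ((ini' n).trans_eq (by rw [ZMod.card])) (cov (Icc 1 (n / 2))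
      (β := fun k => (Fin k → ZMod p) × (Fin (n - 2 * k + 1) → ZMod p))
      (fun k z i => (mn z.1 ^ 2 * fm z.2).coeff i.1) (p ^ n) (fun k hk => ?_) ?_)).trans ?_)
  · by_cases h : x (Fin.last n) = 0
    · exact Or.inl h
    · exact Or.inr ⟨h, fun h' => hx ⟨h', (fm_natDegree h).1⟩⟩
  · rw [mem_Icc] at hk
    simp only [Fintype.card_prod, Fintype.card_fun, Fintype.card_fin, ZMod.card, ← pow_add]
    exact Nat.pow_le_pow_right hp.pos (by omega)
  · rintro x ⟨h0, h1⟩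
    obtain ⟨d, l⟩ := fm_natDegree h0
    have f0 : fm x ≠ 0 := leadingCoeff_ne_zero.1 (l ▸ h0)
    rw [PerfectField.separable_iff_squarefree, Squarefree] at h1
    push Not at h1
    obtain ⟨φ, h2, h3⟩ := h1
    have φ0 : φ ≠ 0 := by
      rintro rfl
      exact f0 (by simpa using h2)
    obtain ⟨ψ, hψ⟩ : mo φ ^ 2 ∣ fm x := by
      rw [sq]
      exact (mul_dvd_mul ((mo_dvd φ0).2 dvd_rfl) ((mo_dvd φ0).2 dvd_rfl)).trans h2
    have ψ0 : ψ ≠ 0 := by
      rintro rfl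
      exact f0 (by simpa using hψ)
    have m := mo_monic φ0
    have j0 : 0 < (mo φ).natDegree := by
      rw [mo_deg φ0]
      exact natDegree_pos_iff_degree_pos.2 (degree_pos_of_ne_zero_of_nonunit φ0 h3)
    have h4 := (m.pow 2).natDegree_mul' ψ0
    rw [← hψ, d, m.natDegree_pow] at h4
    refine ⟨(mo φ).natDegree, mem_Icc.2 ⟨j0, by omega⟩,
      (fun i => (mo φ).coeff i.1, fun i => ψ.coeff i.1), funext fun i => ?_⟩
    dsimp only
    rw [mn_surj m rfl, fm_of_lt ((natDegree_lt_iff_degree_lt ψ0).1 (by omega)), ← hψ, fm_coeff]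
  · rw [Nat.card_Icc, add_mul, one_mul, add_comm]
    gcongr
    omega

/-- the parametrisation -/
def par (n p k : ℕ) (z : (Fin k → Fin p) × (Fin (n - 2 * k) → ZMod (p ^ 2)) × (Fin k → Fin p)) :
    Fin n → ZMod (p ^ 2) := fun i =>
  ((mn fun j => ((z.1 j).1 : ZMod (p ^ 2))) ^ 2 * fm z.2.1 + C (p : ZMod (p ^ 2)) *
    (mn fun j => ((z.1 j).1 : ZMod (p ^ 2))) *
      fm fun j => ((z.2.2 j).1 : ZMod (p ^ 2))).coeff i.1

theorem cover {n p : ℕ} (hp : p.Prime) {c : Fin n → ℤ} (h : Nx p (fm c)) :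
    (∃ s : Fin n → Fin p, (fun i => (p : ZMod (p ^ 2)) * ((s i).1 : ZMod (p ^ 2))) =
      fun i => (c i : ZMod (p ^ 2))) ∨
    ∃ k ∈ Ico 1 ((n + 1) / 2), ∃ z, par n p k z = fun i => (c i : ZMod (p ^ 2)) := by
  have : Fact (1 < p ^ 2) := ⟨Nat.one_lt_pow two_ne_zero hp.one_lt⟩
  obtain ⟨φ, a, b, e, h1, h2, h3⟩ := h
  generalize hk : φ.natDegree = k at h2
  have hp2 : (p : ZMod (p ^ 2)) ^ 2 = 0 := by rw [← Nat.cast_pow, ZMod.natCast_self]
  have hpp : C (p : ZMod (p ^ 2)) ^ 2 = 0 := by rw [← C_pow, hp2, C_0]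
  have h5 : (fm fun i => (c i : ZMod (p ^ 2))) = zK φ (ZMod (p ^ 2)) ^ 2 * zK a (ZMod (p ^ 2)) +
      C (p : ZMod (p ^ 2)) * zK φ (ZMod (p ^ 2)) * zK b (ZMod (p ^ 2)) +
      C (p : ZMod (p ^ 2)) ^ 2 * zK e (ZMod (p ^ 2)) := by
    have := fm_map (Int.castRingHom (ZMod (p ^ 2))) c
    rw [h3] at this
    exact this.symm.trans (by simp)
  choose t w htw using fun i : Fin k => lift' hp.pos ((zK φ (ZMod (p ^ 2))).coeff i.1)
  have h6 := mn_surj (h1.map (Int.castRingHom (ZMod (p ^ 2)))) ((h1.natDegree_map _).trans hk)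
  obtain ⟨φ₀, hφ⟩ : ∃ φ₀, φ₀ = mn fun j => ((t j).1 : ZMod (p ^ 2)) := ⟨_, rfl⟩
  have m0 : φ₀.Monic := hφ ▸ mn_monic _
  have d0 : φ₀.natDegree = k := hφ ▸ mn_deg _
  have hψ : zK φ (ZMod (p ^ 2)) = φ₀ + C (p : ZMod (p ^ 2)) * fm w := by
    rw [zK, ← h6, hφ, funext htw, mn, mn, fm, fm, fm, mul_sum, add_assoc, ← sum_add_distrib]
    simp only [C_add, C_mul, add_mul, mul_assoc]
  generalize fm w = ψ at hψ
  generalize zK a (ZMod (p ^ 2)) = a' at h5
  generalize zK b (ZMod (p ^ 2)) = b' at h5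
  choose s v hsv using fun i : Fin k => lift' hp.pos (UV.ve k φ₀ (2 * ψ * a' + b') i)
  have h7 := UV.po_ve m0 d0 (2 * ψ * a' + b')
  have h8 := modByMonic_add_div (2 * ψ * a' + b') φ₀
  obtain ⟨b₀, hb⟩ : ∃ b₀, b₀ = fm fun j => ((s j).1 : ZMod (p ^ 2)) := ⟨_, rfl⟩
  have h9 : UV.po (UV.ve k φ₀ (2 * ψ * a' + b')) = b₀ + C (p : ZMod (p ^ 2)) * fm v := by
    rw [hb, funext hsv, UV.po, fm, fm, mul_sum, ← sum_add_distrib]
    simp only [C_add, C_mul, add_mul, mul_assoc]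
  rw [← h7, h9] at h8
  generalize (2 * ψ * a' + b') /ₘ φ₀ = q at h8
  obtain ⟨A, hA⟩ : ∃ A, A = a' + C (p : ZMod (p ^ 2)) * q := ⟨_, rfl⟩
  have h10 : φ₀ ^ 2 * A =
      (fm fun i => (c i : ZMod (p ^ 2))) - C (p : ZMod (p ^ 2)) * φ₀ * b₀ := by
    rw [h5, hψ, hA]
    linear_combination C (p : ZMod (p ^ 2)) * φ₀ * h8 -
      (ψ ^ 2 * a' + ψ * b' + zK e (ZMod (p ^ 2)) + φ₀ * fm v) * hpp
  have h11 : (C (p : ZMod (p ^ 2)) * φ₀ * b₀).natDegree < 2 * k := by
    have a1 : b₀.natDegree < k := by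
      by_cases e0 : b₀ = 0
      · rwa [e0, natDegree_zero]
      · exact (natDegree_lt_iff_degree_lt e0).2 (hb ▸ fm_degree _)
    have a2 := natDegree_mul_le (p := C (p : ZMod (p ^ 2)) * φ₀) (q := b₀)
    have a3 := natDegree_C_mul_le (p : ZMod (p ^ 2)) φ₀
    omega
  have h12 : A.degree < (n - 2 * k : ℕ) := by
    by_cases A0 : A = 0
    · rw [A0, degree_zero]
      exact WithBot.bot_lt_coe _
    have a1 := (m0.pow 2).natDegree_mul' A0
    have a2 := natDegree_sub_le (fm fun i => (c i : ZMod (p ^ 2))) (C (p : ZMod (p ^ 2)) * φ₀ * b₀)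
    have a3 : (fm fun i => (c i : ZMod (p ^ 2))).natDegree < n ∨
        (fm fun i => (c i : ZMod (p ^ 2))).natDegree = 0 := by
      by_cases e0 : (fm fun i => (c i : ZMod (p ^ 2))) = 0
      · exact Or.inr (by rw [e0, natDegree_zero])
      · exact Or.inl ((natDegree_lt_iff_degree_lt e0).2 (fm_degree _))
    rw [h10, m0.natDegree_pow, d0] at a1
    exact (natDegree_lt_iff_degree_lt A0).1 (by omega)
  by_cases hn : 2 * k < n
  · refine Or.inr ⟨k, mem_Ico.2 ⟨h2, by omega⟩, (t, fun i => A.coeff i.1, s), funext fun i => ?_⟩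
    rw [par, fm_of_lt h12, ← hφ, ← hb, h10, sub_add_cancel, fm_coeff]
  · have A0 : A = 0 := by
      rw [show n - 2 * k = 0 by omega, Nat.cast_zero, Nat.WithBot.lt_zero_iff, degree_eq_bot] at h12
      exact h12
    rw [A0, mul_zero, eq_comm, sub_eq_zero, mul_assoc] at h10
    choose s' w' hs' using fun i : Fin n => lift' hp.pos ((φ₀ * b₀).coeff i.1)
    refine Or.inl ⟨s', funext fun i => ?_⟩
    rw [← fm_coeff (fun i => (c i : ZMod (p ^ 2))) i, h10, coeff_C_mul, hs']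
    linear_combination (-w' i) * hp2

end Beta

open Beta

theorem ins : INSStmt := fun n p hp => by exact_mod_cast insN n p hp

theorem bnx : BNXStmt := by
  intro n p hn hp
  have : NeZero (p ^ 2) := ⟨pow_ne_zero _ hp.ne_zero⟩
  refine thin hp.pos (by omega) ((un
    {x | ∃ s : Fin n → Fin p, (fun i => (p : ZMod (p ^ 2)) * ((s i).1 : ZMod (p ^ 2))) = x}
    {x | ∃ k ∈ Ico 1 ((n + 1) / 2), ∃ z, par n p k z = x} ?_).trans
    ((add_le_add (cov1 _ fun _ h => h) (cov _ (par n p) (p ^ (2 * n - 2)) (fun k hk => ?_)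
      fun _ h => h)).trans ?_))
  · rintro _ ⟨c, rfl, hc⟩
    exact cover hp hc
  · rw [mem_Ico] at hk
    simp only [Fintype.card_prod, Fintype.card_fun, Fintype.card_fin, ZMod.card, ← pow_mul,
      ← pow_add]
    exact Nat.pow_le_pow_right hp.pos (by omega)
  · rw [Fintype.card_fun, Fintype.card_fin, Fintype.card_fin, Nat.card_Ico]
    have a1 : p ^ n ≤ p ^ (2 * n - 2) := Nat.pow_le_pow_right hp.pos (by omega)
    have a2 : (n + 1) / 2 - 1 + 1 ≤ n := by omega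
    nlinarith [Nat.mul_le_mul_right (p ^ (2 * n - 2)) a2]

theorem bsx : INSStmt → BSXStmt := by
  intro hI g p hg hp
  have : Fact p.Prime := ⟨hp⟩
  have : NeZero (p ^ 2) := ⟨pow_ne_zero _ hp.ne_zero⟩
  have h1 : {x : Fin (2 * g + 1 + 1) → ZMod p |
      ¬((fm x).Separable ∧ (fm x).natDegree = 2 * g + 1)}.ncard ≤ (2 * g + 2) * p ^ (2 * g + 1) := by
    have := hI (2 * g + 1) p hp
    exact_mod_cast this
  have h2 := (ini (n := 2 * g + 2) _).trans h1
  have h3 := cov1 (fun (z : ZMod p × (Fin (g + 2) → ZMod p)) (i : Fin (2 * g + 3)) =>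
    (C z.1 * fm z.2 ^ 2).coeff i.1) (S := {y | ∃ a G, fm y = C a * G ^ 2}) (by
      rintro y ⟨a, G, h⟩
      by_cases e0 : fm y = 0
      · refine ⟨0, funext fun i => ?_⟩
        rw [← fm_coeff y i, e0]
        simp
      have a0 : a ≠ 0 := by
        rintro rfl
        exact e0 (by simpa using h)
      have G0 : G ≠ 0 := by
        rintro rfl
        exact e0 (by simpa using h)
      have d := (natDegree_lt_iff_degree_lt e0).2 (fm_degree y)
      rw [h, natDegree_C_mul a0, natDegree_pow] at d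
      refine ⟨(a, fun i => G.coeff i.1), funext fun i => ?_⟩
      dsimp only
      rw [fm_of_lt ((natDegree_lt_iff_degree_lt G0).1 (by omega)), ← h, fm_coeff])
  have h4 := up hp.pos ({y : Fin (2 * g + 3) → ZMod p | ∃ a G, fm y = C a * G ^ 2} ∪
    {y : Fin (2 * g + 2 + 1) → ZMod p | y (Fin.last _) = 0 ∧ Fin.init y ∈
      {x : Fin (2 * g + 1 + 1) → ZMod p | ¬((fm x).Separable ∧ (fm x).natDegree = 2 * g + 1)}})
  have h5 := h4.trans (Nat.mul_le_mul_right _ ((Set.ncard_union_le _ _).trans (add_le_add h3 h2)))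
  have h6 : Thin ((2 * g + 4 : ℕ) : ℝ) p fun c : Fin (2 * g + 3) → ℤ => Sx p (fm c) ∨ Bi g p c := by
    refine thin hp.pos (by omega) ((un _ _ ?_).trans
      ((add_le_add h5 (ini' (R := ZMod (p ^ 2)) (2 * g + 2))).trans ?_))
    · rintro _ ⟨c, rfl, hc⟩
      have e : zK (fm c) (ZMod p) = fm fun i => (c i : ZMod p) := fm_map _ c
      rcases hc with ⟨a, G, h⟩ | ⟨a1, a2 | a2⟩
      · exact Or.inl ⟨c, rfl, Or.inl ⟨a, G, e ▸ h⟩⟩
      · exact Or.inr ((ZMod.intCast_zmod_eq_zero_iff_dvd _ _).2 (by exact_mod_cast a2))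
      · have z : (fun i => (c i : ZMod p)) (Fin.last _) = 0 :=
          (ZMod.intCast_zmod_eq_zero_iff_dvd _ _).2 a1
        refine Or.inl ⟨c, rfl, Or.inr ⟨z, fun h => a2 ?_⟩⟩
        rw [fm_init z] at h
        rw [Gi, e]
        exact h
    · simp only [Fintype.card_prod, Fintype.card_fun, Fintype.card_fin, ZMod.card, ← pow_mul]
      have a1 : p * p ^ (g + 2) ≤ p ^ (2 * g + 1) := by
        rw [← pow_succ']
        exact Nat.pow_le_pow_right hp.pos (by omega)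
      have a2 : p ^ (2 * g + 1) * p ^ (2 * g + 3) = p ^ (2 * (2 * g + 2)) := by
        rw [← pow_add]
        congr 1
        omega
      rw [show 2 * (2 * g + 3) - 2 = 2 * (2 * g + 2) by omega, ← a2]
      nlinarith [Nat.mul_le_mul_right (p ^ (2 * g + 3)) a1]
  simpa using h6

end Pool.Agent.MP_a43263_nt.VE

end
end MrgPart6

-- marker of a merged file
example : 731051 + 751176 = 731051 + 751176 := rfl
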