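import Mathlib.Analysis.PSeries
import Mathlib.Data.Nat.ChineseRemainder
import Mathlib.NumberTheory.PrimesCongruentOne
import Pool.Agent.MP_a43263_nt.UC.Maj
import Pool.Agent.MP_a43263_nt.VE.Fin

-- ======== part 0: formerly Pool.Agent.MP_a43263_nt.VC.Body
section MrgPart0

/-!
The average of `D / φ(D)` in a residue class, and the count in the main body.
-/

namespace Pool.Agent.MP_a43263_nt.VC

open Polynomial Matrix Finset UC

namespace Body

theorem tele (M : ℕ) : (1 : ℝ) / 2 + 1 / (2 * ((M : ℝ) + 1)) =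
    ∏ k ∈ Icc 2 (M + 1), (1 - ((k : ℝ) ^ 2)⁻¹) := by
  induction M with
  | zero => norm_num
  | succ M ih =>
    rw [prod_Icc_succ_top (by omega), ← ih]
    push_cast
    field_simp
    ring

theorem half_le (S : Finset ℕ) (hS : ∀ p ∈ S, 2 ≤ p) :
    (1 : ℝ) / 2 ≤ ∏ p ∈ S, (1 - ((p : ℝ) ^ 2)⁻¹) := by
  have h1 : S ⊆ Icc 2 (S.sup id + 1) := fun p hp =>
    mem_Icc.2 ⟨hS p hp, (le_sup (f := id) hp).trans (Nat.le_succ _)⟩
  refine le_trans ?_ (prod_le_prod_of_subset_of_le_one h1 (fun k hk => ?_) fun k _ _ => ?_)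
  · rw [← tele]
    exact le_add_of_nonneg_right (by positivity)
  · have h2 : (2 : ℝ) ≤ k := by exact_mod_cast (mem_Icc.1 hk).1
    exact sub_nonneg.2 (inv_le_one_of_one_le₀ (by nlinarith))
  · exact sub_le_self _ (by positivity)

theorem ratio_le (D : ℕ) (hD : Squarefree D) :
    (D : ℝ) / D.totient ≤ 2 * ∑ d ∈ D.divisors, (d : ℝ)⁻¹ := by
  have h0 : 0 < D := Nat.pos_of_ne_zero hD.ne_zero
  have h1 : (D.totient : ℝ) = D * ∏ p ∈ D.primeFactors, (1 - (p : ℝ)⁻¹) := by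
    have := congrArg (fun x : ℚ => (x : ℝ)) (Nat.totient_eq_mul_prod_factors D)
    push_cast at this
    exact this
  let f : ArithmeticFunction ℝ := ⟨fun d => (d : ℝ)⁻¹, by simp⟩
  have hf : f.IsMultiplicative := ⟨by simp [f], fun {m n} _ => by simp [f, mul_comm]⟩
  have h2 : ∏ p ∈ D.primeFactors, (1 + (p : ℝ)⁻¹) = ∑ d ∈ D.divisors, (d : ℝ)⁻¹ :=
    hf.prodPrimeFactors_one_add_of_squarefree hD
  have h3 := half_le D.primeFactors fun p hp => (Nat.prime_of_mem_primeFactors hp).two_le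
  have h4 : ∏ p ∈ D.primeFactors, (1 - ((p : ℝ) ^ 2)⁻¹) =
      (∏ p ∈ D.primeFactors, (1 + (p : ℝ)⁻¹)) * ∏ p ∈ D.primeFactors, (1 - (p : ℝ)⁻¹) := by
    rw [← prod_mul_distrib]
    exact prod_congr rfl fun p _ => by rw [← inv_pow]; ring
  have h5 : (0 : ℝ) < D.totient := by exact_mod_cast Nat.totient_pos.2 h0
  have h6 : (0 : ℝ) < D := by exact_mod_cast h0
  rw [div_le_iff₀ h5, h1, ← h2]
  rw [h4] at h3
  nlinarith

theorem count_le (N D0 Z d : ℕ) (E : Finset ℕ) (hN : 0 < N) (hd : 0 < d) (hc : D0.Coprime N)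
    (hE : ∀ D ∈ E, D ≤ Z ∧ D ≡ D0 [MOD N]) :
    ((E.filter fun D => d ∣ D).card : ℝ) ≤ (Z : ℝ) / (d * N) + 1 := by
  rw [← card_image_of_injective _ (Nat.cast_injective (R := ℤ))]
  refine space _ 0 Z (d * N) (by positivity) (by positivity) (fun t ht => ?_) ?_
  · obtain ⟨D, hD, rfl⟩ := mem_image.1 ht
    have := (hE D (mem_filter.1 hD).1).1
    refine ⟨by positivity, ?_⟩
    rw [zero_add]
    exact_mod_cast this
  · intro t ht t' ht' ne
    obtain ⟨D, hD, rfl⟩ := mem_image.1 ht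
    obtain ⟨D', hD', rfl⟩ := mem_image.1 ht'
    obtain ⟨a1, a2⟩ := mem_filter.1 hD
    obtain ⟨b1, b2⟩ := mem_filter.1 hD'
    have c1 : D.Coprime N := by
      have := (hE D a1).2.gcd_eq
      rw [Nat.Coprime, this]
      exact hc
    have c2 : d.Coprime N := Nat.Coprime.coprime_dvd_left a2 c1
    have c3 : (d : ℤ) ∣ (D : ℤ) - D' :=
      dvd_sub (Int.natCast_dvd_natCast.2 a2) (Int.natCast_dvd_natCast.2 b2)
    have c4 : (N : ℤ) ∣ (D : ℤ) - D' := ((hE D' b1).2.trans (hE D a1).2.symm).dvd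
    have c5 := (Nat.isCoprime_iff_coprime.2 c2).mul_dvd c3 c4
    exact_mod_cast Int.le_of_dvd (abs_pos.2 (sub_ne_zero.2 ne)) ((dvd_abs _ _).2 c5)

theorem harm_le (N Z : ℕ) (hN : 0 < N) :
    ∑ d ∈ Ioo 0 (Z + 1), (d : ℝ)⁻¹ ≤ N + (Z : ℝ) / N := by
  have h0 : (0 : ℝ) < N := by exact_mod_cast hN
  have h1 : ∀ d ∈ Ioo 0 (Z + 1), (d : ℝ)⁻¹ ≤ (if d ≤ N then 1 else 0) + (N : ℝ)⁻¹ := by
    intro d hd
    have h2 : (1 : ℝ) ≤ d := by exact_mod_cast (mem_Ioo.1 hd).1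
    split_ifs with h
    · exact (inv_le_one_of_one_le₀ h2).trans (le_add_of_nonneg_right (by positivity))
    · rw [zero_add]
      exact inv_anti₀ h0 (by exact_mod_cast (not_le.1 h).le)
  refine (sum_le_sum h1).trans ?_
  rw [sum_add_distrib, sum_boole, sum_const, Nat.card_Ioo, nsmul_eq_mul, div_eq_mul_inv]
  refine add_le_add ?_ (le_of_eq (by simp))
  have h3 : ((Ioo 0 (Z + 1)).filter fun d => d ≤ N) ⊆ Icc 1 N := fun d hd =>
    mem_Icc.2 ⟨(mem_Ioo.1 (mem_filter.1 hd).1).1, (mem_filter.1 hd).2⟩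
  have h4 := card_le_card h3
  rw [Nat.card_Icc, Nat.add_sub_cancel] at h4
  exact_mod_cast h4

theorem two_zpow {ι : Type} (s : Finset ι) (t : ι → ℤ) :
    ∏ x ∈ s, (2 : ℝ) ^ t x = 2 ^ ∑ x ∈ s, t x := by
  classical
  induction s using Finset.induction_on with
  | empty => simp
  | insert a s ha ih => rw [prod_insert ha, sum_insert ha, ih, zpow_add₀ two_ne_zero]

end Body

open Body

theorem phi : PHIStmt := by
  refine ⟨8, by norm_num, fun N D0 hN hc => ⟨N ^ 2, fun Z E hZ hE => ?_⟩⟩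
  have h0 : (0 : ℝ) < N := by exact_mod_cast hN
  have h1 : ∀ D ∈ E, (D : ℝ) / D.totient ≤
      2 * ∑ d ∈ Ioo 0 (Z + 1), if d ∣ D then (d : ℝ)⁻¹ else 0 := by
    intro D hD
    refine (ratio_le D (hE D hD).1).trans (mul_le_mul_of_nonneg_left ?_ zero_le_two)
    rw [← sum_filter]
    refine sum_le_sum_of_subset_of_nonneg (fun d hd => ?_) fun _ _ _ => by positivity
    have h2 := Nat.dvd_of_mem_divisors hd
    exact mem_filter.2 ⟨mem_Ioo.2 ⟨Nat.pos_of_mem_divisors hd,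
      Nat.lt_succ_of_le ((Nat.divisor_le hd).trans (hE D hD).2.1)⟩, h2⟩
  refine (sum_le_sum h1).trans ?_
  rw [← mul_sum, sum_comm]
  have h2 : ∀ d ∈ Ioo 0 (Z + 1), (∑ D ∈ E, if d ∣ D then (d : ℝ)⁻¹ else 0) ≤
      (Z : ℝ) / N * ((d : ℝ) ^ 2)⁻¹ + (d : ℝ)⁻¹ := by
    intro d hd
    have hd0 : 0 < d := (mem_Ioo.1 hd).1
    have hd1 : (0 : ℝ) < d := by exact_mod_cast hd0
    rw [← sum_filter, sum_const, nsmul_eq_mul]
    refine (mul_le_mul_of_nonneg_right
      (count_le N D0 Z d E hN hd0 hc fun D hD => (hE D hD).2) (by positivity)).trans (le_of_eq ?_)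
    field_simp
  have h3 := sum_le_sum h2
  rw [sum_add_distrib, ← mul_sum] at h3
  have h4 : ∑ d ∈ Ioo 0 (Z + 1), ((d : ℝ) ^ 2)⁻¹ ≤ 2 := by
    have := sum_Ioo_inv_sq_le (α := ℝ) 0 (Z + 1)
    simpa using this
  have h5 := harm_le N Z hN
  have h6 : (N : ℝ) ≤ (Z : ℝ) / N := by
    rw [le_div_iff₀ h0, ← sq]
    exact_mod_cast hZ
  have h7 : (Z : ℝ) / N * ∑ d ∈ Ioo 0 (Z + 1), ((d : ℝ) ^ 2)⁻¹ ≤ (Z : ℝ) / N * 2 :=
    mul_le_mul_of_nonneg_left h4 (by positivity)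
  rw [mul_div_assoc]
  linarith

theorem body : BOHRStmt → PHIStmt → EXPStmt → BODYStmt := by
  classical
  intro hb hp hx g c
  obtain ⟨CB, hCB, hb⟩ := hb (2 * g + 2) (by omega)
  obtain ⟨CP, hCP, hp⟩ := hp
  refine ⟨CP * CB * 2 ^ (2 * c * (up (2 * g + 2)).card), by positivity,
    fun N D0 m ε hN hc hε => ?_⟩
  obtain ⟨D1, hb⟩ := hb N (2 ^ (2 * c + 2 * m)) (ε / CP) hN (by positivity) (by positivity)
  obtain ⟨X0, hp⟩ := hp N D0 hN hc
  refine ⟨c + D1 + X0, fun k e B₀ W hk he hm hW => ?_⟩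
  have hN0 : (0 : ℝ) < N := by exact_mod_cast hN
  have hN1 : (1 : ℝ) ≤ N := by exact_mod_cast hN
  have e1 : ∀ p, -(m : ℤ) ≤ e p ∧ e p ≤ m := by
    intro p
    have a1 := he.1 (Fin.zero_le p)
    have a2 := he.1 (Fin.zero_le (Fin.rev p))
    rw [he.2] at a2
    constructor <;> linarith
  set u : ℕ := (up (2 * g + 2)).card with hu
  set R : ℝ := (2 ^ k) ^ (2 * g + 2) * (CB * (2 ^ (2 * c * u) / (N : ℝ) ^ u) + ε / CP) with hR
  have key : ∀ D ∈ W.image Prod.fst,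
      ((W.filter fun x => x.1 = D).card : ℝ) ≤ (D : ℝ) / D.totient * R := by
    intro D hD
    obtain ⟨x0, hx0, rfl⟩ := mem_image.1 hD
    obtain ⟨⟨s1, s2, s3, -⟩, s4, -⟩ := hW x0 hx0
    set D := x0.1 with hDdef
    have d0 : 0 < D := Nat.pos_of_ne_zero s1.ne_zero
    have d0' : (0 : ℝ) < D := by exact_mod_cast d0
    have d1 : D1 ≤ D := by
      have a1 : 2 ^ c * 2 ^ D1 ≤ 2 ^ c * D := by
        rw [← pow_add]
        exact (Nat.pow_le_pow_right (by norm_num) (by omega)).trans s2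
      exact (Nat.lt_two_pow_self.le).trans (Nat.le_of_mul_le_mul_left a1 (by positivity))
    have d2 : D.Coprime N := by
      have := s4.gcd_eq
      rw [Nat.Coprime, this]
      exact hc
    have s2' : (2 : ℝ) ^ k ≤ 2 ^ c * D := by exact_mod_cast s2
    have s3' : (D : ℝ) ≤ 2 ^ k := by exact_mod_cast s3
    have hinj : Set.InjOn Prod.snd (W.filter fun x => x.1 = D : Set (ℕ × Mz (2 * g + 2))) := by
      intro x hx y hy h
      exact Prod.ext ((mem_filter.1 (mem_coe.1 hx)).2.trans (mem_filter.1 (mem_coe.1 hy)).2.symm) h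
    rw [← card_image_of_injOn hinj]
    have h1 := hb D (fun p q => (2 : ℝ) ^ ((c : ℤ) + k + e p + e q)) B₀
      ((W.filter fun x => x.1 = D).image Prod.snd) d1 s1 d2 (fun p q => ?_) (fun B hB => ?_)
    · refine h1.trans ?_
      rw [mul_assoc]
      refine mul_le_mul_of_nonneg_left ?_ (by positivity)
      have a1 : ∏ x ∈ up (2 * g + 2), (2 : ℝ) ^ ((c : ℤ) + k + e x.1 + e x.2) / (N * D) ≤
          ∏ x ∈ up (2 * g + 2), (2 : ℝ) ^ (2 * c) * (2 : ℝ) ^ (e x.1 + e x.2) / N := by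
        refine prod_le_prod (fun _ _ => by positivity) fun x _ => ?_
        rw [div_le_div_iff₀ (by positivity) hN0, add_assoc ((c : ℤ) + k), zpow_add₀ two_ne_zero,
          zpow_add₀ two_ne_zero, zpow_natCast, zpow_natCast]
        have a2 : (0 : ℝ) < (2 : ℝ) ^ (e x.1 + e x.2) := by positivity
        calc (2 : ℝ) ^ c * 2 ^ k * 2 ^ (e x.1 + e x.2) * N
            ≤ 2 ^ c * (2 ^ c * D) * 2 ^ (e x.1 + e x.2) * N := by gcongr
          _ = _ := by ring
      have a3 : ∏ x ∈ up (2 * g + 2), (2 : ℝ) ^ (2 * c) * (2 : ℝ) ^ (e x.1 + e x.2) / N =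
          2 ^ (2 * c * u) / (N : ℝ) ^ u := by
        rw [prod_div_distrib, prod_mul_distrib, two_zpow, (hx g e he).2.1, prod_const, prod_const,
          zpow_zero, mul_one, ← pow_mul]
      rw [a3] at a1
      rw [hR]
      gcongr
    · have a1 := e1 p
      have a2 := e1 q
      constructor
      · refine s3'.trans ?_
        rw [← zpow_natCast, ← zpow_natCast, ← zpow_add₀ two_ne_zero]
        refine zpow_le_zpow_right₀ one_le_two ?_
        push_cast
        linarith [a1.1, a2.1, Int.natCast_nonneg c]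
      · calc (2 : ℝ) ^ ((c : ℤ) + k + e p + e q) ≤ 2 ^ (((c + 2 * m + k : ℕ)) : ℤ) := by
              refine zpow_le_zpow_right₀ one_le_two ?_
              push_cast
              linarith [a1.2, a2.2]
          _ = 2 ^ (c + 2 * m) * 2 ^ k := by rw [zpow_natCast, pow_add]
          _ ≤ 2 ^ (c + 2 * m) * (2 ^ c * D) := by gcongr
          _ = _ := by ring
    · obtain ⟨x, hx', rfl⟩ := mem_image.1 hB
      obtain ⟨b1, b2⟩ := mem_filter.1 hx'
      obtain ⟨⟨-, -, -, t1, t2, t3⟩, -, t4⟩ := hW x b1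
      exact ⟨t1, b2 ▸ t3, t2, t4⟩
  have h2 := hp (2 ^ k) (W.image Prod.fst)
    ((Nat.lt_two_pow_self.le).trans (Nat.pow_le_pow_right (by norm_num) (by omega))) fun D hD => by
      obtain ⟨x, hx', rfl⟩ := mem_image.1 hD
      exact ⟨(hW x hx').1.1, (hW x hx').1.2.2.1, (hW x hx').2.1⟩
  have hR0 : 0 ≤ R := by positivity
  rw [card_eq_sum_card_image Prod.fst W, Nat.cast_sum]
  refine (sum_le_sum key).trans ?_
  rw [← sum_mul]
  refine (mul_le_mul_of_nonneg_right h2 hR0).trans ?_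
  have h3 : CP * ((2 ^ k : ℕ) : ℝ) / N * R =
      (CP * CB * 2 ^ (2 * c * u) / (N : ℝ) ^ (u + 1) + ε / N) * (2 ^ k) ^ (2 * g + 3) := by
    rw [hR]
    push_cast
    field_simp
    ring
  rw [h3]
  gcongr
  exact div_le_self hε.le hN1

end Pool.Agent.MP_a43263_nt.VC

end MrgPart0

-- ======== part 1: formerly Pool.Agent.MP_a43263_nt.VC.Cell
section MrgPart1

/-! Points of a lattice without short dual vectors: cells and the large sieve. -/

namespace Pool.Agent.MP_a43263_nt.VC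

open Finset

namespace Cell

/-- The points of one cell. -/
theorem fib (arc : ARCStmt) {ι : Type} [Fintype ι] {N K D l : ℕ} (w : ι → ZMod D)
    (F : Finset (ι → ℤ)) (hN : 0 < N) (hD : 0 < D) (hc : D.Coprime N) (h2 : 2 * l ≤ D)
    (h6 : 6 * K * Fintype.card ι * l ≤ D)
    (hw : ∀ k : ι → ℤ, (∀ i, |k i| < K) → ∑ i, (k i : ZMod D) * w i = 0 → k = 0)
    (hF : ∀ y ∈ F, ∃ c : ZMod D, ∀ i, (y i : ZMod D) = c * w i)
    (hF' : ∀ y ∈ F, ∀ y' ∈ F, ∀ i, (N : ℤ) ∣ y i - y' i ∧ |y i - y' i| < N * l) :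
    F.card * K ^ Fintype.card ι ≤ 4 * D := by
  classical
  rcases F.eq_empty_or_nonempty with rfl | ⟨y0, h0⟩
  · simp
  have hu : (N : ZMod D) * (N : ZMod D)⁻¹ = 1 := ZMod.coe_mul_inv_eq_one N hc.symm
  have hN' : (0 : ℤ) < N := by exact_mod_cast hN
  have key : ∀ y ∈ F, ∃ (c : ZMod D) (z : ι → ℤ), ∀ i, |z i| < l ∧ (z i : ZMod D) = c * w i ∧
      y i = y0 i + N * z i := by
    intro y hy
    obtain ⟨c, h1⟩ := hF y hy
    obtain ⟨c0, h3⟩ := hF y0 h0
    choose z hz using fun i => (hF' y hy y0 h0 i).1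
    refine ⟨(N : ZMod D)⁻¹ * (c - c0), z, fun i => ⟨?_, ?_, by rw [← hz]; ring⟩⟩
    · have := (hF' y hy y0 h0 i).2
      rw [hz, abs_mul, abs_of_pos hN'] at this
      exact lt_of_mul_lt_mul_left this hN'.le
    · have := congrArg (Int.cast : ℤ → ZMod D) (hz i)
      push_cast at this
      rw [h1, h3] at this
      linear_combination (-(N : ZMod D)⁻¹) * this - (z i : ZMod D) * hu
  choose! c z hz using key
  let P : Finset (ZMod D) := (Fintype.piFinset fun _ : ι => range K).image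
    fun k => ∑ i, ((k i : ℤ) : ZMod D) * w i
  have e1 : (F.image c).card = F.card := by
    refine card_image_of_injOn fun y hy y' hy' e => funext fun i => ?_
    obtain ⟨a1, a2, a3⟩ := hz y hy i
    obtain ⟨b1, b2, b3⟩ := hz y' hy' i
    have hd : (D : ℤ) ∣ z y i - z y' i := by
      rw [← ZMod.intCast_zmod_eq_zero_iff_dvd]
      push_cast
      rw [a2, b2, e, sub_self]
    have hl : |z y i - z y' i| < D := by
      have : (2 : ℤ) * l ≤ D := by exact_mod_cast h2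
      rw [abs_lt] at a1 b1 ⊢
      constructor <;> omega
    rw [a3, b3, sub_eq_zero.1 (Int.eq_zero_of_abs_lt_dvd hd hl)]
  have e2 : P.card = K ^ Fintype.card ι := by
    rw [card_image_of_injOn, Fintype.card_piFinset, prod_const, card_range, card_univ]
    intro k hk k' hk' e
    simp only [mem_coe, Fintype.mem_piFinset, mem_range] at hk hk' e
    have := hw (fun i => (k i : ℤ) - k' i) (fun i => by
      have a := hk i
      have b := hk' i
      rw [abs_lt]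
      constructor <;> omega) (by
      simp only [Int.cast_sub, sub_mul, sum_sub_distrib]
      rw [e, sub_self])
    funext i
    have a := congrFun this i
    simp only [Pi.zero_apply] at a
    omega
  rw [← e1, ← e2]
  refine arc D _ _ hD fun c' hc' ξ hξ => ?_
  obtain ⟨y, hy, rfl⟩ := mem_image.1 hc'
  obtain ⟨k, hk, rfl⟩ := mem_image.1 hξ
  simp only [Fintype.mem_piFinset, mem_range] at hk
  refine ⟨∑ i, (k i : ℤ) * z y i, ?_, ?_⟩
  · have a : |∑ i, (k i : ℤ) * z y i| ≤ ∑ _i : ι, (K : ℤ) * l := by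
      refine (abs_sum_le_sum_abs _ _).trans (sum_le_sum fun i _ => ?_)
      rw [abs_mul, Nat.abs_cast]
      exact mul_le_mul (by exact_mod_cast (hk i).le) (hz y hy i).1.le (abs_nonneg _)
        (by positivity)
    rw [sum_const, card_univ, nsmul_eq_mul] at a
    have b : (6 : ℤ) * K * Fintype.card ι * l ≤ D := by exact_mod_cast h6
    linarith
  · rw [Int.cast_sum, mul_sum]
    refine sum_congr rfl fun i _ => ?_
    rw [Int.cast_mul, (hz y hy i).2.1]
    ring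

/-- The number of cells in one direction. -/
theorem cells (T : Finset ℤ) (M : ℕ) (Y : ℝ) (hM : 0 < M) (hY : 0 ≤ Y)
    (h : ∀ t ∈ T, ∃ y : ℤ, |(y : ℝ)| ≤ Y ∧ y / M = t) : (T.card : ℝ) ≤ 2 * Y / M + 2 := by
  have hM' : (0 : ℝ) < M := by exact_mod_cast hM
  have hM'' : (0 : ℤ) < M := by exact_mod_cast hM
  have := space T (-(Y / M) - 1) (2 * Y / M + 1) 1 one_pos (by positivity) (fun t ht => ?_)
    fun t _ t' _ ne => by exact_mod_cast Int.one_le_abs (sub_ne_zero.2 ne)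
  · linarith
  obtain ⟨y, hy, rfl⟩ := h t ht
  have a1 : ((y / M : ℤ) : ℝ) * M ≤ y := by exact_mod_cast Int.ediv_mul_le y hM''.ne'
  have a2 : (y : ℝ) < ((y / M : ℤ) + 1) * M := by exact_mod_cast Int.lt_ediv_add_one_mul_self y hM''
  obtain ⟨b1, b2⟩ := abs_le.1 hy
  have c1 : ((y / M : ℤ) : ℝ) ≤ Y / M := by rw [le_div_iff₀ hM']; linarith
  have c2 : -Y / M ≤ ((y / M : ℤ) : ℝ) + 1 := by rw [div_le_iff₀ hM']; linarith
  rw [neg_div] at c2
  rw [mul_div_assoc]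
  constructor <;> linarith

end Cell

theorem cell (arc : ARCStmt) : CELLStmt := by
  classical
  intro ι _
  refine ⟨4 * (26 * Fintype.card ι) ^ Fintype.card ι + 1, by positivity, ?_⟩
  intro N K D w Y b W hN hK hD hc h12 hY hw hW
  have hN' : (0 : ℝ) < N := by exact_mod_cast hN
  have hK' : (0 : ℝ) < K := by exact_mod_cast hK
  have hD' : (0 : ℝ) < D := by exact_mod_cast hD
  have hY0 : ∀ i, 0 < Y i := fun i =>
    (mul_pos_iff_of_pos_left hK').1 (lt_of_lt_of_le (by positivity) (hY i))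
  have hP : 0 ≤ ∏ i, Y i / (N * D) := prod_nonneg fun i _ => by have := hY0 i; positivity
  rcases isEmpty_or_nonempty ι with hι | hι
  · have a : (W.card : ℝ) ≤ 1 := by exact_mod_cast card_le_one_of_subsingleton W
    have a' : (1 : ℝ) ≤ D := by exact_mod_cast hD
    rw [Fintype.card_eq_zero, prod_of_isEmpty]
    norm_num
    linarith
  set m := Fintype.card ι with hm
  have hm0 : 0 < m := Fintype.card_pos
  have hm' : (1 : ℝ) ≤ m := by exact_mod_cast hm0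
  obtain ⟨l, hl1, hl2, hl3⟩ : ∃ l : ℕ, 2 ≤ l ∧ 6 * K * m * l ≤ D ∧ D ≤ 12 * K * m * l := by
    have hq : 0 < 6 * K * m := by positivity
    have a : 2 ≤ D / (6 * K * m) := (Nat.le_div_iff_mul_le hq).2 (by linarith)
    refine ⟨D / (6 * K * m), a, Nat.mul_div_le _ _, ?_⟩
    have a2 := Nat.lt_mul_div_succ D hq
    nlinarith
  have hl' : (0 : ℝ) < l := by exact_mod_cast (by omega : 0 < l)
  have hNl : 0 < N * l := by positivity
  let f : (ι → ℤ) → ι → ℤ := fun y i => y i / (N * l : ℕ)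
  have h1 : W.card * K ^ m ≤ (W.image f).card * (4 * D) := by
    rw [card_eq_sum_card_image f W, sum_mul, ← smul_eq_mul (W.image f).card, ← sum_const]
    refine sum_le_sum fun τ _ => Cell.fib arc (l := l) w _ hN hD hc ?_ hl2 hw
      (fun y hy => (hW y (mem_filter.1 hy).1).2) fun y hy y' hy' i => ⟨?_, ?_⟩
    · have : 1 ≤ K * m := Nat.mul_pos hK hm0
      nlinarith
    · have := dvd_sub ((hW y (mem_filter.1 hy).1).1 i).2 ((hW y' (mem_filter.1 hy').1).1 i).2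
      rwa [sub_sub_sub_cancel_right] at this
    · have e : y i / (N * l : ℕ) = y' i / (N * l : ℕ) :=
        congrFun ((mem_filter.1 hy).2.trans (mem_filter.1 hy').2.symm) i
      have hp : (0 : ℤ) < (N * l : ℕ) := by exact_mod_cast hNl
      have a1 := Int.ediv_mul_le (y i) hp.ne'
      have a2 := Int.lt_ediv_add_one_mul_self (y i) hp
      have a3 := Int.ediv_mul_le (y' i) hp.ne'
      have a4 := Int.lt_ediv_add_one_mul_self (y' i) hp
      rw [e] at a1 a2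
      push_cast at a1 a2 a3 a4
      rw [abs_lt]
      constructor <;> linarith
  have h2 : ((W.image f).card : ℝ) ≤ ∏ i, 26 * m * K * (Y i / (N * D)) := by
    have a : (W.image f).card ≤ ∏ i, (W.image fun y => f y i).card := by
      rw [← Fintype.card_piFinset]
      refine card_le_card fun τ hτ => ?_
      obtain ⟨y, hy, rfl⟩ := mem_image.1 hτ
      exact Fintype.mem_piFinset.2 fun i => mem_image_of_mem _ hy
    refine (Nat.cast_le.2 a).trans ?_
    rw [Nat.cast_prod]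
    refine prod_le_prod (fun i _ => Nat.cast_nonneg _) fun i _ => ?_
    refine (Cell.cells _ (N * l) (Y i) hNl (hY0 i).le fun t ht => ?_).trans ?_
    · obtain ⟨y, hy, rfl⟩ := mem_image.1 ht
      exact ⟨y i, ((hW y hy).1 i).1, rfl⟩
    · have b1 : (D : ℝ) ≤ 12 * K * m * l := by exact_mod_cast hl3
      have b0 := hY0 i
      have b2 : 2 * Y i / (N * l : ℕ) ≤ 24 * m * K * (Y i / (N * D)) := by
        rw [← mul_div_assoc, div_le_div_iff₀ (by positivity) (by positivity)]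
        push_cast
        nlinarith [mul_le_mul_of_nonneg_left b1 (by positivity : 0 ≤ 2 * Y i * N)]
      have b3 : 1 ≤ K * (Y i / (N * D)) := by
        rw [← mul_div_assoc, le_div_iff₀ (by positivity), one_mul]
        exact hY i
      nlinarith
  rw [prod_mul_distrib, prod_const, card_univ, ← hm, mul_pow] at h2
  have h3 : (W.card : ℝ) * K ^ m ≤ (W.image f).card * (4 * D) := by exact_mod_cast h1
  have h4 : (W.card : ℝ) ≤ 4 * (26 * m) ^ m * D * ∏ i, Y i / (N * D) := by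
    refine le_of_mul_le_mul_right (h3.trans ?_) (by positivity : (0 : ℝ) < K ^ m)
    refine (mul_le_mul_of_nonneg_right h2 (by positivity)).trans_eq (by ring)
  refine h4.trans ?_
  gcongr
  linarith

end Pool.Agent.MP_a43263_nt.VC

end MrgPart1

-- ======== part 2: formerly Pool.Agent.MP_a43263_nt.VC.Sw
section MrgPart2

/-! The divisor switch. -/

namespace Pool.Agent.MP_a43263_nt.VC

open Finset

namespace SwA

theorem fibre {α β : Type} (V : Finset α) (T : Finset β) (f : α → β) (g : β → ℝ)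
    (hf : ∀ x ∈ V, f x ∈ T)
    (hg : ∀ y ∈ T, ∀ V' : Finset α, (∀ x ∈ V', x ∈ V ∧ f x = y) → (V'.card : ℝ) ≤ g y) :
    (V.card : ℝ) ≤ ∑ y ∈ T, g y := by
  classical
  rw [card_eq_sum_card_fiberwise (f := f) (t := T) fun x hx => hf x hx]
  push_cast
  exact sum_le_sum fun y hy => hg y hy _ fun x hx => mem_filter.1 hx

/-- the conditions for given `s` and `k` -/
def Cd (Z Y₁ Y₂ : ℝ) (s k : ℤ) (x : ℕ × ℤ × ℤ × ℤ) : Prop :=
  (x.1 : ℝ) ≤ Z ∧ x.2.1 = s ∧ |(x.2.2.1 : ℝ)| ≤ Y₁ ∧ |(x.2.2.2 : ℝ)| ≤ Y₂ ∧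
    s * x.2.2.2 - x.2.2.1 ^ 2 = x.1 * k

theorem gap {s k d : ℤ} (hs : s ≠ 0) (hd : d ≠ 0) (h : s ∣ d * k) :
    |(s : ℝ)| / (Int.gcd s k : ℝ) ≤ |(d : ℝ)| := by
  have hg : 0 < Int.gcd s k := Int.gcd_pos_of_ne_zero_left _ hs
  have h1 : s ∣ d * (Int.gcd s k : ℤ) := by
    rw [Int.gcd_eq_gcd_ab, mul_add, ← mul_assoc, ← mul_assoc]
    exact dvd_add ((Dvd.intro_left _ rfl).mul_right _) (h.mul_right _)
  have h2 : |s| ≤ |d * (Int.gcd s k : ℤ)| :=
    Int.le_of_dvd (abs_pos.2 (mul_ne_zero hd (by exact_mod_cast hg.ne')))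
      ((abs_dvd_abs _ _).2 h1)
  rw [abs_mul, abs_of_nonneg (Int.natCast_nonneg _)] at h2
  rw [div_le_iff₀ (by exact_mod_cast hg)]
  exact_mod_cast h2

theorem one {Z Y₁ Y₂ : ℝ} {s k t : ℤ} (hZ : 0 ≤ Z) (hY : 0 ≤ Y₂) (hs : s ≠ 0) (hk : k ≠ 0)
    (V : Finset (ℕ × ℤ × ℤ × ℤ)) (hV : ∀ x ∈ V, Cd Z Y₁ Y₂ s k x ∧ x.2.2.1 = t) :
    (V.card : ℝ) ≤ (Int.gcd s k : ℝ) * √(2 * Z * Y₂) / √(|(s : ℝ)| * |(k : ℝ)|) + 1 := by
  have hg : (0 : ℝ) < Int.gcd s k := by exact_mod_cast Int.gcd_pos_of_ne_zero_left _ hs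
  have hs' : 0 < |(s : ℝ)| := abs_pos.2 (by exact_mod_cast hs)
  have hk' : 0 < |(k : ℝ)| := abs_pos.2 (by exact_mod_cast hk)
  have hc : (V.image fun x => (x.1 : ℤ)).card = V.card := by
    refine card_image_of_injOn fun x hx y hy e => ?_
    obtain ⟨⟨-, a1, -, -, a2⟩, a3⟩ := hV x hx
    obtain ⟨⟨-, b1, -, -, b2⟩, b3⟩ := hV y hy
    refine Prod.ext (by exact_mod_cast e) (Prod.ext (a1.trans b1.symm)
      (Prod.ext (a3.trans b3.symm) (mul_left_cancel₀ hs ?_)))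
    rw [a3, e] at a2
    rw [b3] at b2
    linarith
  have sp : ∀ d ∈ V.image fun x => (x.1 : ℤ), ∀ d' ∈ V.image fun x => (x.1 : ℤ), d ≠ d' →
      |(s : ℝ)| / (Int.gcd s k : ℝ) ≤ |(d : ℝ) - d'| := by
    intro d hd d' hd' ne
    obtain ⟨x, hx, rfl⟩ := mem_image.1 hd
    obtain ⟨y, hy, rfl⟩ := mem_image.1 hd'
    obtain ⟨⟨-, -, -, -, a2⟩, a3⟩ := hV x hx
    obtain ⟨⟨-, -, -, -, b2⟩, b3⟩ := hV y hy
    rw [a3] at a2
    rw [b3] at b2
    have := gap (k := k) hs (sub_ne_zero.2 ne) ⟨x.2.2.2 - y.2.2.2, by linarith⟩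
    rwa [Int.cast_sub] at this
  have b1 := space _ 0 Z _ (div_pos hs' hg) hZ (fun d hd => by
    obtain ⟨x, hx, rfl⟩ := mem_image.1 hd
    exact ⟨by positivity, by simpa using (hV x hx).1.1⟩) sp
  have b2 := space _ (-(t : ℝ) ^ 2 / k - |(s : ℝ)| * Y₂ / |(k : ℝ)|)
    (2 * (|(s : ℝ)| * Y₂ / |(k : ℝ)|)) _ (div_pos hs' hg) (by positivity) (fun d hd => by
    obtain ⟨x, hx, rfl⟩ := mem_image.1 hd
    obtain ⟨⟨-, -, -, a1, a2⟩, a3⟩ := hV x hx
    rw [a3] at a2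
    have k0 : (k : ℝ) ≠ 0 := by exact_mod_cast hk
    have a4 : (((x.1 : ℤ) : ℝ)) - -(t : ℝ) ^ 2 / k = s * x.2.2.2 / k := by
      have : (s : ℝ) * x.2.2.2 - t ^ 2 = (x.1 : ℤ) * k := by exact_mod_cast a2
      field_simp
      linarith
    have a5 : |(((x.1 : ℤ) : ℝ)) - -(t : ℝ) ^ 2 / k| ≤ |(s : ℝ)| * Y₂ / |(k : ℝ)| := by
      rw [a4, abs_div, abs_mul]
      gcongr
    have := abs_le.1 a5
    constructor <;> linarith) sp
  rw [hc] at b1 b2
  have e1 : Z / (|(s : ℝ)| / (Int.gcd s k : ℝ)) * (2 * (|(s : ℝ)| * Y₂ / |(k : ℝ)|) /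
      (|(s : ℝ)| / (Int.gcd s k : ℝ))) =
      ((Int.gcd s k : ℝ) * √(2 * Z * Y₂) / √(|(s : ℝ)| * |(k : ℝ)|)) ^ 2 := by
    rw [div_pow, mul_pow, Real.sq_sqrt (by positivity), Real.sq_sqrt (by positivity)]
    field_simp
  by_contra hn
  rw [not_le] at hn
  have p0 : 0 ≤ (Int.gcd s k : ℝ) * √(2 * Z * Y₂) / √(|(s : ℝ)| * |(k : ℝ)|) := by positivity
  nlinarith [mul_lt_mul'' (show _ < Z / (|(s : ℝ)| / (Int.gcd s k : ℝ)) by linarith)
    (show _ < 2 * (|(s : ℝ)| * Y₂ / |(k : ℝ)|) / (|(s : ℝ)| / (Int.gcd s k : ℝ)) by linarith) p0 p0]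

theorem two (sq : SQStmt) {Z Y₁ Y₂ : ℝ} {s k : ℤ} (hZ : 0 ≤ Z) (hY : 0 ≤ Y₂) (hs : s ≠ 0)
    (hk : k ≠ 0) (h1 : |(s : ℝ)| ≤ Y₁) (V : Finset (ℕ × ℤ × ℤ × ℤ))
    (hV : ∀ x ∈ V, Cd Z Y₁ Y₂ s k x) :
    (V.card : ℝ) ≤ 3 * Y₁ *
      (√(2 * Z * Y₂) * (√(Int.gcd s k : ℝ) / √(|(s : ℝ)| * |(k : ℝ)|)) + 1) := by
  have hg0 : 0 < Int.gcd s k := Int.gcd_pos_of_ne_zero_left _ hs
  have hg : (1 : ℝ) ≤ Int.gcd s k := by exact_mod_cast hg0
  have y0 : 0 ≤ Y₁ := (abs_nonneg _).trans h1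
  have r1 : 1 ≤ √(Int.gcd s k : ℝ) := Real.one_le_sqrt.2 hg
  have r2 : √(Int.gcd s k : ℝ) * √(Int.gcd s k : ℝ) = Int.gcd s k := Real.mul_self_sqrt (by linarith)
  have r3 : (Int.gcd s k : ℝ) ≤ |(s : ℝ)| := by
    exact_mod_cast Int.le_of_dvd (abs_pos.2 hs) ((dvd_abs _ _).2 (Int.gcd_dvd_left s k))
  have c1 := sq.1 (Int.gcd s k) Y₁ (V.image fun x => x.2.2.1) hg0 y0 fun t ht => by
    obtain ⟨x, hx, rfl⟩ := mem_image.1 ht
    obtain ⟨-, -, a1, -, a2⟩ := hV x hx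
    refine ⟨a1, ?_⟩
    rw [show x.2.2.1 ^ 2 = s * x.2.2.2 - x.1 * k by linarith]
    exact dvd_sub ((Int.gcd_dvd_left s k).mul_right _) ((Int.gcd_dvd_right s k).mul_left _)
  have c2 : ((V.image fun x => x.2.2.1).card : ℝ) ≤ 3 * Y₁ / √(Int.gcd s k : ℝ) := by
    have : 1 ≤ Y₁ / √(Int.gcd s k : ℝ) := by
      rw [one_le_div (by linarith)]
      nlinarith
    rw [mul_div_assoc] at c1 ⊢
    linarith
  refine (fibre V (V.image fun x => x.2.2.1) (fun x => x.2.2.1) _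
    (fun x hx => mem_image_of_mem _ hx) fun t _ V' h' =>
      one hZ hY hs hk V' fun x hx => ⟨hV x (h' x hx).1, (h' x hx).2⟩).trans ?_
  rw [sum_const, nsmul_eq_mul]
  refine (mul_le_mul_of_nonneg_right c2 (by positivity)).trans ?_
  generalize √(Int.gcd s k : ℝ) = r at r1 r2
  rw [← r2, show ∀ P Q : ℝ, 3 * Y₁ / r * (r * r * P / Q + 1) = 3 * Y₁ * (P * (r / Q) + 1 / r) from
    fun P Q => by field_simp]
  gcongr
  exact (div_le_one (by linarith)).2 r1

theorem three (sq : SQStmt) {Z Y₁ Y₂ : ℝ} {σ κ : ℕ} (hZ : 0 ≤ Z) (hY : 0 ≤ Y₂) (hs : 1 ≤ σ)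
    (hk : 1 ≤ κ) (h1 : (σ : ℝ) ≤ Y₁) (f : ℕ × ℤ × ℤ × ℤ → ℤ) (V : Finset (ℕ × ℤ × ℤ × ℤ))
    (hV : ∀ x ∈ V, Cd Z Y₁ Y₂ x.2.1 (f x) x ∧ x.2.1.natAbs = σ ∧ (f x).natAbs = κ) :
    (V.card : ℝ) ≤ 12 * Y₁ * (√(2 * Z * Y₂) * (√(Nat.gcd σ κ : ℝ) / √((σ : ℝ) * κ)) + 1) := by
  have y0 : 0 ≤ Y₁ := (Nat.cast_nonneg _).trans h1
  have m : ∀ (z : ℤ) (n : ℕ), z ∈ ({(n : ℤ), -(n : ℤ)} : Finset ℤ) ↔ z.natAbs = n := fun z n => by
    rw [mem_insert, mem_singleton]
    omega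
  refine (fibre V (({(σ : ℤ), -(σ : ℤ)} : Finset ℤ) ×ˢ ({(κ : ℤ), -(κ : ℤ)} : Finset ℤ))
    (fun x => (x.2.1, f x)) (fun _ => 3 * Y₁ *
      (√(2 * Z * Y₂) * (√(Nat.gcd σ κ : ℝ) / √((σ : ℝ) * κ)) + 1))
    (fun x hx => mem_product.2 ⟨(m _ _).2 (hV x hx).2.1, (m _ _).2 (hV x hx).2.2⟩)
    fun y hy V' h' => ?_).trans ?_
  · have a1 := (m _ _).1 (mem_product.1 hy).1
    have a2 := (m _ _).1 (mem_product.1 hy).2
    have b1 : |(y.1 : ℝ)| = σ := by rw [← a1, Nat.cast_natAbs, Int.cast_abs]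
    have b2 : |(y.2 : ℝ)| = κ := by rw [← a2, Nat.cast_natAbs, Int.cast_abs]
    have := two sq (s := y.1) (k := y.2) hZ hY (by omega) (by omega) (b1.le.trans h1) V'
      fun x hx => by
        have e := (h' x hx).2
        have := (hV x (h' x hx).1).1
        rwa [show x.2.1 = y.1 from congrArg Prod.fst e, show f x = y.2 from congrArg Prod.snd e]
          at this
    rwa [b1, b2, Int.gcd, a1, a2] at this
  · rw [sum_const, nsmul_eq_mul, card_product]
    have : ((({(σ : ℤ), -(σ : ℤ)} : Finset ℤ).card * ({(κ : ℤ), -(κ : ℤ)} : Finset ℤ).card : ℕ) : ℝ)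
        ≤ 4 := by exact_mod_cast Nat.mul_le_mul card_le_two card_le_two
    refine (mul_le_mul_of_nonneg_right this (by positivity)).trans (le_of_eq (by ring))

end SwA

open SwA in
theorem sw (sq : SQStmt) (gc : GCDStmt) : SWStmt := by
  intro l hl
  refine ⟨12 * (24 * l + 2 * l ^ 2) + 12, by positivity, fun Z Y₀ Y₁ Y₂ W h0 h1 h2 h3 h4 hW => ?_⟩
  have hZ : 0 < Z := by nlinarith
  have y1 : 0 < Y₁ := by linarith
  have hD : ∀ x ∈ W, 0 < x.1 := fun x hx => Nat.pos_of_ne_zero fun e => by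
    have := (hW x hx).1
    rw [e, Nat.cast_zero] at this
    linarith
  have c0 : ((W.filter fun x => x.2.1 * x.2.2.2 = x.2.2.1 ^ 2).card : ℝ) ≤
      12 * (Z * Y₁ * √Y₀) := by
    refine (fibre _ (Icc 1 ⌊Z⌋₊) (fun x => x.1) (fun _ => 12 * Y₁ * √Y₀) (fun x hx => ?_)
      fun D _ V hV => ?_).trans ?_
    · have := (mem_filter.1 hx).1
      exact mem_Icc.2 ⟨hD x this, Nat.le_floor (hW x this).2.1⟩
    · rw [← card_image_of_injOn (f := fun x => x.2) fun x hx y hy e =>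
        Prod.ext ((hV x hx).2.trans (hV y hy).2.symm) e]
      refine sq.2 Y₀ Y₁ _ (by linarith) h1 fun y hy => ?_
      obtain ⟨x, hx, rfl⟩ := mem_image.1 hy
      obtain ⟨a1, a2⟩ := mem_filter.1 (hV x hx).1
      obtain ⟨-, -, b1, b2, b3, -⟩ := hW x a1
      exact ⟨b1, b2, b3, a2⟩
    · rw [sum_const, nsmul_eq_mul, Nat.card_Icc, Nat.add_sub_cancel]
      exact (mul_le_mul_of_nonneg_right (Nat.floor_le hZ.le) (by positivity)).trans
        (le_of_eq (by ring))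
  obtain ⟨κ, hκ⟩ : ∃ κ : ℝ, κ = 2 * l * Y₁ ^ 2 / Z := ⟨_, rfl⟩
  have k0 : 0 ≤ κ := by rw [hκ]; positivity
  have k1 : κ * Z = 2 * l * Y₁ ^ 2 := by rw [hκ]; field_simp
  have c1 : ((W.filter fun x => ¬ x.2.1 * x.2.2.2 = x.2.2.1 ^ 2).card : ℝ) ≤
      12 * (24 * l + 2 * l ^ 2) * (Y₀ * Y₁ * Y₂) := by
    obtain ⟨f, hf⟩ : ∃ f : ℕ × ℤ × ℤ × ℤ → ℤ, ∀ x ∈ W,
        x.2.1 * x.2.2.2 - x.2.2.1 ^ 2 = x.1 * f x :=
      ⟨fun x => (x.2.1 * x.2.2.2 - x.2.2.1 ^ 2) / x.1, fun x hx =>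
        (Int.mul_ediv_cancel' (hW x hx).2.2.2.2.2.2).symm⟩
    refine (fibre _ (Icc 1 ⌊Y₀⌋₊ ×ˢ Icc 1 ⌊κ⌋₊) (fun x => (x.2.1.natAbs, (f x).natAbs))
      (fun y => 12 * Y₁ * (√(2 * Z * Y₂) * (√(Nat.gcd y.1 y.2 : ℝ) / √((y.1 : ℝ) * y.2)) + 1))
      (fun x hx => ?_) fun y hy V hV => ?_).trans ?_
    · obtain ⟨a1, a2⟩ := mem_filter.1 hx
      obtain ⟨b0, -, b1, b2, b3, b4, -⟩ := hW x a1
      have e := hf x a1
      have f0 : f x ≠ 0 := fun z => a2 (by rw [z] at e; linarith)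
      refine mem_product.2 ⟨mem_Icc.2 ⟨by simp only; omega, Nat.le_floor ?_⟩,
        mem_Icc.2 ⟨by simp only; omega, Nat.le_floor ?_⟩⟩ <;> rw [Nat.cast_natAbs, Int.cast_abs]
      · exact b2
      · have e' : (x.2.1 : ℝ) * x.2.2.2 - x.2.2.1 ^ 2 = x.1 * f x := by exact_mod_cast e
        have d1 : (x.1 : ℝ) * |(f x : ℝ)| ≤ 2 * Y₁ ^ 2 := by
          rw [← abs_of_nonneg (Nat.cast_nonneg (α := ℝ) x.1), ← abs_mul, ← e']
          refine (abs_sub _ _).trans ?_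
          rw [abs_mul, abs_pow]
          have := mul_le_mul b2 b4 (abs_nonneg _) (by linarith)
          have := pow_le_pow_left₀ (abs_nonneg _) b3 2
          linarith
        refine le_of_mul_le_mul_right ?_ hZ
        rw [k1]
        nlinarith [abs_nonneg (f x : ℝ)]
    · have a1 := mem_Icc.1 (mem_product.1 hy).1
      have a2 := mem_Icc.1 (mem_product.1 hy).2
      refine three sq hZ.le (by linarith) a1.1 a2.1
        (((Nat.le_floor_iff (by linarith)).1 a1.2).trans h1) f V fun x hx => ?_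
      have a3 := (mem_filter.1 (hV x hx).1).1
      obtain ⟨-, b0, -, -, b3, b4, -⟩ := hW x a3
      exact ⟨⟨b0, rfl, b3, b4, hf x a3⟩, congrArg Prod.fst (hV x hx).2,
        congrArg Prod.snd (hV x hx).2⟩
    · rw [← mul_sum, sum_add_distrib, ← mul_sum, sum_product, sum_const, nsmul_eq_mul,
        card_product, Nat.card_Icc, Nat.card_Icc, Nat.add_sub_cancel, Nat.add_sub_cancel, mul_one]
      have g1 := gc ⌊Y₀⌋₊ ⌊κ⌋₊
      have p1 : ((⌊Y₀⌋₊ : ℝ) * ⌊κ⌋₊) ≤ Y₀ * κ :=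
        mul_le_mul (Nat.floor_le (by linarith)) (Nat.floor_le k0) (Nat.cast_nonneg _) (by linarith)
      have p2 : Y₀ * κ ≤ 2 * l ^ 2 * Y₁ ^ 2 := by
        calc Y₀ * κ ≤ l * Z * κ := by gcongr; linarith
          _ = _ := by rw [mul_assoc, mul_comm Z, k1]; ring
      have p3 : √(2 * Z * Y₂) * √((⌊Y₀⌋₊ : ℝ) * ⌊κ⌋₊) ≤ 2 * l * Y₁ ^ 2 := by
        rw [← Real.sqrt_mul (by nlinarith)]
        refine Real.sqrt_le_iff.2 ⟨by positivity, ?_⟩
        calc 2 * Z * Y₂ * ((⌊Y₀⌋₊ : ℝ) * ⌊κ⌋₊) ≤ 2 * Z * Y₂ * (Y₀ * κ) := by gcongr; nlinarith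
          _ = 2 * (Y₀ * Y₂) * (κ * Z) := by ring
          _ = l * (2 * Y₁ ^ 2) ^ 2 := by rw [h3, k1]; ring
          _ ≤ l ^ 2 * (2 * Y₁ ^ 2) ^ 2 := by gcongr; nlinarith
          _ = _ := by ring
      have p4 := mul_le_mul_of_nonneg_left g1 (Real.sqrt_nonneg (2 * Z * Y₂))
      push_cast
      calc _ ≤ 12 * Y₁ * (12 * (2 * l * Y₁ ^ 2) + 2 * l ^ 2 * Y₁ ^ 2) :=
            mul_le_mul_of_nonneg_left (by linarith) (by positivity)
        _ = _ := by rw [mul_right_comm Y₀, h3]; ring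
  have e := card_filter_add_card_filter_not (s := W) fun x => x.2.1 * x.2.2.2 = x.2.2.1 ^ 2
  rw [← e]
  push_cast
  have : 0 ≤ Y₀ * Y₁ * Y₂ := mul_nonneg (mul_nonneg (by linarith) y1.le) (by linarith)
  have : 0 ≤ (24 * l + 2 * l ^ 2) * (Z * Y₁ * √Y₀) := by positivity
  nlinarith

end Pool.Agent.MP_a43263_nt.VC

end MrgPart2

-- ======== part 3: formerly Pool.Agent.MP_a43263_nt.VC.Tr
section MrgPart3

/-! Rows `ROWT` and `TR`: the count when the first nonzero diagonal entry is at position `r`. -/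

namespace Pool.Agent.MP_a43263_nt.VC

open Polynomial Matrix Finset UC

namespace Tr

theorem fib {α β : Type} [DecidableEq β] (W : Finset α) (f : α → β) (a b : ℝ) (hb : 0 ≤ b)
    (h1 : ((W.image f).card : ℝ) ≤ a)
    (h2 : ∀ y ∈ W.image f, ((W.filter fun x => f x = y).card : ℝ) ≤ b) :
    (W.card : ℝ) ≤ a * b := by
  rw [card_eq_sum_card_image f W]
  push_cast
  calc _ ≤ ∑ _y ∈ W.image f, b := sum_le_sum h2
    _ = (W.image f).card * b := by rw [sum_const, nsmul_eq_mul]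
    _ ≤ a * b := by gcongr

theorem one_le {s : ℤ} (h : s ≠ 0) : (1 : ℝ) ≤ |(s : ℝ)| := by
  exact_mod_cast Int.one_le_abs h

theorem pz {ι : Type} (s : Finset ι) (f : ι → ℤ) :
    ∏ i ∈ s, (2 : ℝ) ^ f i = (2 : ℝ) ^ ∑ i ∈ s, f i := by
  classical
  induction s using Finset.induction_on with
  | empty => simp
  | insert a s ha ih => rw [prod_insert ha, sum_insert ha, ih, zpow_add₀ two_ne_zero]

theorem dv (D : ℕ) (s w : ℤ) (hD : 0 < D) (h : (D : ℤ) ∣ s * w) :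
    ((D / Int.gcd s D : ℕ) : ℤ) ∣ w := by
  have hg : 0 < Int.gcd s D := Int.gcd_pos_of_ne_zero_right _ (by exact_mod_cast hD.ne')
  obtain ⟨s', hs⟩ := Int.gcd_dvd_left s D
  obtain ⟨d', hd⟩ := Int.gcd_dvd_right s D
  have hg' : ((Int.gcd s D : ℕ) : ℤ) ≠ 0 := by exact_mod_cast hg.ne'
  have e1 : ((D / Int.gcd s D : ℕ) : ℤ) = d' := by
    rw [Int.natCast_div]
    exact Int.ediv_eq_of_eq_mul_right hg' hd
  have e2 : s / (Int.gcd s D : ℤ) = s' := Int.ediv_eq_of_eq_mul_right hg' hs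
  have e3 : (D : ℤ) / (Int.gcd s D : ℤ) = d' := Int.ediv_eq_of_eq_mul_right hg' hd
  have hc : Int.gcd s' d' = 1 := by
    have := Int.gcd_div_gcd_div_gcd (i := s) (j := D) hg
    rwa [e2, e3] at this
  rw [e1]
  have h2 : d' ∣ s' * w := by
    have h3 : (Int.gcd s D : ℤ) * d' ∣ (Int.gcd s D : ℤ) * (s' * w) := by
      rw [← hd, ← mul_assoc, ← hs]
      exact h
    exact (mul_dvd_mul_iff_left hg').1 h3
  exact (Int.isCoprime_iff_gcd_eq_one.2 hc).symm.dvd_of_dvd_mul_left h2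

end Tr

open Tr

theorem rowt (hrow : ROWStmt) : ROWTStmt := by
  classical
  intro n D r Y W hD hr hY hY' hW
  set r' : Fin n := ⟨r.1 + 1, hr⟩ with hr'
  have hlt : r < r' := by simp [hr', Fin.lt_def]
  have hD0 : 0 < D := Nat.pos_of_ne_zero hD.ne_zero
  have hDr : (0 : ℝ) < D := by exact_mod_cast hD0
  set K : ℝ := (∏ q ∈ (Ioi r).erase r', 3 * Y r q) *
    ∏ x ∈ ((up n).filter fun x => x.1 ≠ r).erase (r', r'), (2 * Y x.1 x.2 / D + 1) with hK
  have hK0 : 0 ≤ K := mul_nonneg (prod_nonneg fun q _ => by have := hY r q; positivity)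
    (prod_nonneg fun x _ => by have := hY x.1 x.2; positivity)
  have e1 : ∏ q ∈ Ici r, 3 * Y r q
      = 3 * Y r r * (3 * Y r r' * ∏ q ∈ (Ioi r).erase r', 3 * Y r q) := by
    rw [mul_prod_erase (Ioi r) (fun q => 3 * Y r q) (mem_Ioi.2 hlt), ← Ioi_insert,
      prod_insert (by simp)]
  have e2 : ∏ x ∈ (up n).filter fun x => x.1 ≠ r, (2 * Y x.1 x.2 / D + 1)
      = (2 * Y r' r' / D + 1) *
        ∏ x ∈ ((up n).filter fun x => x.1 ≠ r).erase (r', r'), (2 * Y x.1 x.2 / D + 1) :=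
    (mul_prod_erase _ (fun x : Fin n × Fin n => 2 * Y x.1 x.2 / D + 1) (a := (r', r'))
      (by simp [up, hlt.ne'])).symm
  have y1 := hY r r'
  have y2 := hY r' r'
  have goal : (W.card : ℝ) ≤ 3 * Y r r * (3 * Y r r' * (2 * Y r' r' / D + 1) * K) := by
    refine fib W (fun B => B r r) _ _ (by positivity) ?_ fun s hs => ?_
    · rcases W.eq_empty_or_nonempty with rfl | ⟨B, hB⟩
      · have := hY r r
        simp only [image_empty, card_empty, Nat.cast_zero]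
        positivity
      have h1 := (one_le (hW B hB).2.2.2.2).trans ((hW B hB).2.2.1 r r)
      have h2 := cls (W.image fun B => B r r) (Y r r) 1 one_pos (hY r r)
        (fun t ht => by
          obtain ⟨B, hB, rfl⟩ := mem_image.1 ht
          exact (hW B hB).2.2.1 r r) (fun _ _ _ _ => by simp)
      simp only [Nat.cast_one, div_one] at h2
      linarith
    obtain ⟨B₀, hB₀, rfl⟩ := mem_image.1 hs
    have s0 := (hW B₀ hB₀).2.2.2.2
    have s1 := (hW B₀ hB₀).2.2.1 r r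
    set s := B₀ r r with hs'
    set h := Int.gcd s D with hh
    have h0 : 0 < h := Int.gcd_pos_of_ne_zero_left _ s0
    have h1 : (1 : ℝ) ≤ h := by exact_mod_cast h0
    have h2 : (h : ℝ) ≤ Y r r' := by
      have : (h : ℤ) ≤ |s| := Int.le_of_dvd (abs_pos.2 s0) ((dvd_abs _ _).2 (Int.gcd_dvd_left _ _))
      have h3 : (h : ℝ) ≤ |(s : ℝ)| := by exact_mod_cast this
      exact h3.trans (s1.trans (hY' r' hlt))
    have hhD : h ∣ D := by exact_mod_cast (Int.gcd_dvd_right s D)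
    have key : ∀ B ∈ W, B r r = s → (D : ℤ) ∣ s * B r' r' - B r r' * B r r' := fun B hB e => by
      have := (hW B hB).2.1 r r r' r'
      rwa [e, (hW B hB).1.apply r r'] at this
    have e3 : 3 * Y r r' * (2 * Y r' r' / D + 1) * K
        = 3 * Y r r' / h * (h * (2 * Y r' r' / D + 1) * K) := by field_simp
    rw [e3]
    refine fib _ (fun B => B r r') _ _ (by positivity) ?_ fun t ht => ?_
    · have h4 : ∀ t ∈ (W.filter fun B => B r r = s).image fun B => B r r', (h : ℤ) ∣ t :=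
        fun t ht => by
          obtain ⟨B, hB, rfl⟩ := mem_image.1 ht
          obtain ⟨hB, e⟩ := mem_filter.1 hB
          have a1 : (h : ℤ) ∣ s * B r' r' - B r r' * B r r' :=
            (Int.gcd_dvd_right s D).trans (key B hB e)
          have a2 : (h : ℤ) ∣ B r r' ^ 2 := by
            have := ((Int.gcd_dvd_left s D).mul_right (B r' r')).sub a1
            rwa [sub_sub_cancel, ← sq] at this
          exact ((Int.squarefree_natCast.2 (hD.squarefree_of_dvd hhD)).dvd_pow_iff_dvd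
            two_ne_zero).1 a2
      have h5 := cls _ (Y r r') h h0 y1 (fun t ht => by
          obtain ⟨B, hB, rfl⟩ := mem_image.1 ht
          exact (hW B (mem_filter.1 hB).1).2.2.1 r r')
        (fun t ht t' ht' => (h4 t ht).sub (h4 t' ht'))
      refine h5.trans ?_
      have : (1 : ℝ) ≤ Y r r' / h := (one_le_div (by linarith)).2 h2
      rw [mul_div_assoc, mul_div_assoc]
      linarith
    refine fib _ (fun B => B r' r') _ _ hK0 ?_ fun u _ => ?_
    · have d0 : 0 < D / h := Nat.div_pos (Nat.le_of_dvd hD0 hhD) h0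
      have h5 := cls (((W.filter fun B => B r r = s).filter fun B => B r r' = t).image
          fun B => B r' r') (Y r' r') (D / h) d0 y2 (fun u hu => by
          obtain ⟨B, hB, rfl⟩ := mem_image.1 hu
          exact (hW B (mem_filter.1 (mem_filter.1 hB).1).1).2.2.1 r' r')
        (fun u hu u' hu' => by
          obtain ⟨B, hB, rfl⟩ := mem_image.1 hu
          obtain ⟨B', hB', rfl⟩ := mem_image.1 hu'
          obtain ⟨hB, b2⟩ := mem_filter.1 hB
          obtain ⟨hB, b1⟩ := mem_filter.1 hB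
          obtain ⟨hB', b2'⟩ := mem_filter.1 hB'
          obtain ⟨hB', b1'⟩ := mem_filter.1 hB'
          refine dv D s _ hD0 ?_
          have := (key B hB b1).sub (key B' hB' b1')
          rw [b2, b2'] at this
          rwa [show s * (B r' r' - B' r' r') = s * B r' r' - t * t - (s * B' r' r' - t * t) by ring])
      refine h5.trans ?_
      rw [Nat.cast_div hhD (by linarith)]
      have : 2 * Y r' r' / (D / h) = h * (2 * Y r' r' / D) := by field_simp
      rw [this]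
      linarith
    refine hrow n D r r' Y s t u _ hD hlt s0 hY (fun q hq => s1.trans (hY' q hq)) fun B hB => ?_
    obtain ⟨hB, b3⟩ := mem_filter.1 hB
    obtain ⟨hB, b2⟩ := mem_filter.1 hB
    obtain ⟨hB, b1⟩ := mem_filter.1 hB
    exact ⟨(hW B hB).1, (hW B hB).2.1, (hW B hB).2.2.1, (hW B hB).2.2.2.1, b1, b2, b3⟩
  rw [e1, e2]
  refine goal.trans (le_of_eq ?_)
  rw [hK]
  ring

theorem tr (hrow : ROWTStmt) (hexp : EXPStmt) : TRStmt := by
  classical
  intro g c t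
  refine ⟨(2 : ℝ) ^ (((2 + c) * (2 * g + 2) + (2 + 2 * c) * (2 * g + 2) ^ 2 + g * c + 2 * g * t : ℕ)
    : ℤ), by positivity, fun k e r W he r0 rg ht hW => ?_⟩
  rcases W.eq_empty_or_nonempty with rfl | ⟨x₀, hx₀⟩
  · simp only [card_empty, Nat.cast_zero]
    positivity
  have z0 : (0 : ℤ) ≤ c + k + e r + e r := by
    have := (one_le (hW x₀ hx₀).2.2).trans ((hW x₀ hx₀).1.2.2.2.2.1 r r)
    exact (one_le_zpow_iff_right₀ one_lt_two).1 this
  have hE := (hexp g e he).2.2.2.2 r t rg ht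
  set F := (up (2 * g + 2)).filter fun x => x.1 ≠ r with hF
  have hFc : (F.card : ℤ) ≤ (2 * g + 2) ^ 2 := by
    have : F.card ≤ (2 * g + 2) ^ 2 := (card_le_univ F).trans (by simp [sq])
    exact_mod_cast this
  have main : (W.card : ℝ) ≤ (2 : ℝ) ^ (k : ℤ) *
      ((2 : ℝ) ^ (∑ q ∈ Ici r, ((2 : ℤ) + c + k + (e r + e q))) *
        (2 : ℝ) ^ (∑ x ∈ F, ((2 : ℤ) + 2 * c + max (e x.1 + e x.2) 0))) := by
    refine fib W (fun x => x.1) _ _ (by positivity) ?_ fun D hD => ?_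
    · have : (W.image fun x => x.1) ⊆ Icc 1 (2 ^ k) := fun D hD => by
        obtain ⟨x, hx, rfl⟩ := mem_image.1 hD
        exact mem_Icc.2 ⟨Nat.pos_of_ne_zero (hW x hx).1.1.ne_zero, (hW x hx).1.2.2.1⟩
      have h1 := card_le_card this
      rw [Nat.card_Icc, Nat.add_sub_cancel] at h1
      rw [zpow_natCast]
      exact_mod_cast h1
    obtain ⟨x₁, hx₁, rfl⟩ := mem_image.1 hD
    have d1 := (hW x₁ hx₁).1.1
    have d0 : (0 : ℝ) < x₁.1 := by exact_mod_cast Nat.pos_of_ne_zero d1.ne_zero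
    have d2 : (2 : ℝ) ^ k ≤ 2 ^ c * x₁.1 := by exact_mod_cast (hW x₁ hx₁).1.2.1
    rw [← card_image_of_injOn (f := fun x => x.2) (fun x hx y hy exy =>
      Prod.ext ((mem_filter.1 hx).2.trans (mem_filter.1 hy).2.symm) exy)]
    refine (hrow _ x₁.1 r (fun p q => (2 : ℝ) ^ ((c : ℤ) + k + e p + e q)) _ d1 (by omega)
      (fun _ _ => by positivity) (fun q hq => zpow_le_zpow_right₀ one_le_two
        (by linarith [he.1 hq.le])) fun B hB => ?_).trans ?_
    · obtain ⟨x, hx, rfl⟩ := mem_image.1 hB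
      obtain ⟨hx, ex⟩ := mem_filter.1 hx
      obtain ⟨⟨-, -, -, a1, a2, a3⟩, a4, a5⟩ := hW x hx
      exact ⟨a1, ex ▸ a3, a2, a4, a5⟩
    rw [← pz, ← pz]
    refine mul_le_mul (prod_le_prod (fun _ _ => by positivity) fun q _ => ?_)
      (prod_le_prod (fun _ _ => by positivity) fun x _ => ?_)
      (prod_nonneg fun _ _ => by positivity) (prod_nonneg fun _ _ => by positivity)
    · rw [show (2 : ℤ) + c + k + (e r + e q) = 2 + (c + k + e r + e q) by ring,
        zpow_add₀ two_ne_zero 2]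
      gcongr
      norm_num
    · have a1 : (2 : ℝ) ^ ((c : ℤ) + k + e x.1 + e x.2) / x₁.1
          ≤ (2 : ℝ) ^ (2 * (c : ℤ) + max (e x.1 + e x.2) 0) := by
        rw [div_le_iff₀ d0]
        calc (2 : ℝ) ^ ((c : ℤ) + k + e x.1 + e x.2)
            = 2 ^ ((c : ℤ) + (e x.1 + e x.2)) * 2 ^ k := by
              rw [← zpow_natCast, ← zpow_add₀ two_ne_zero]
              congr 1
              ring
          _ ≤ 2 ^ ((c : ℤ) + max (e x.1 + e x.2) 0) * (2 ^ c * x₁.1) :=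
              mul_le_mul (zpow_le_zpow_right₀ one_le_two (by linarith [le_max_left (e x.1 + e x.2) 0]))
                d2 (by positivity) (by positivity)
          _ = _ := by
              rw [← mul_assoc, ← zpow_natCast, ← zpow_add₀ two_ne_zero]
              congr 2
              ring
      have a2 : (1 : ℝ) ≤ (2 : ℝ) ^ (2 * (c : ℤ) + max (e x.1 + e x.2) 0) :=
        one_le_zpow₀ one_le_two (by have := le_max_right (e x.1 + e x.2) 0; positivity)
      rw [add_assoc (2 : ℤ), zpow_add₀ two_ne_zero 2, mul_div_assoc]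
      norm_num
      linarith
  refine main.trans ?_
  rw [← pow_mul, ← zpow_natCast (2 : ℝ) (k * _), ← zpow_add₀ two_ne_zero, ← zpow_add₀ two_ne_zero,
    ← zpow_add₀ two_ne_zero, ← zpow_add₀ two_ne_zero, ← zpow_add₀ two_ne_zero]
  refine zpow_le_zpow_right₀ one_le_two ?_
  rw [sum_add_distrib, sum_add_distrib (s := F), sum_const, sum_const, Fin.card_Ici, nsmul_eq_mul,
    nsmul_eq_mul, Nat.cast_sub r.2.le]
  unfold Ps at hE
  rw [← hF] at hE
  have r1 : (1 : ℤ) ≤ r.1 := by exact_mod_cast r0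
  have r2 : (r.1 : ℤ) ≤ g := by exact_mod_cast rg
  have c0 : (0 : ℤ) ≤ c := Int.natCast_nonneg c
  have t0 : (0 : ℤ) ≤ t := Int.natCast_nonneg t
  push_cast
  nlinarith [mul_nonneg (sub_nonneg.2 r1) z0, mul_nonneg (sub_nonneg.2 r2) c0,
    mul_nonneg (sub_nonneg.2 r2) t0, mul_nonneg (sub_nonneg.2 hFc) (by linarith : (0 : ℤ) ≤ 2 + 2 * c),
    mul_nonneg (by linarith : (0 : ℤ) ≤ r.1) c0]

end Pool.Agent.MP_a43263_nt.VC

end MrgPart3

-- ======== part 4: formerly Pool.Agent.MP_a43263_nt.VE.Base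
section MrgPart4

/-! THEOREM V: the base class. -/

set_option autoImplicit false

noncomputable section

namespace Pool.Agent.MP_a43263_nt.VE

open Polynomial Finset JC VV VA
open MP_a43263_nt.UV (zK IRRStmt)

namespace Base

theorem crt (n : ℕ) (S : Finset ℕ) (F : ∀ p : ℕ, (ZMod p)[X])
    (h : ∀ p ∈ S, p.Prime ∧ (F p).degree < n) :
    ∃ c : Fin n → ℤ, ∀ p ∈ S, zK (fm c) (ZMod p) = F p := by
  have k : ∀ i : Fin n, ∃ k : ℕ, ∀ p ∈ S, k ≡ ((F p).coeff i.1).val [MOD p] := fun i =>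
    ⟨_, (Nat.chineseRemainderOfFinset (fun p => ((F p).coeff i.1).val) id S
      (fun p hp => (h p hp).1.ne_zero) fun p hp q hq ne =>
        (Nat.coprime_primes (h p hp).1 (h q hq).1).2 ne).2⟩
  choose k hk using k
  refine ⟨fun i => k i, fun p hp => ?_⟩
  have : NeZero p := ⟨(h p hp).1.ne_zero⟩
  rw [zK, fm_map, ← fm_of_lt (h p hp).2]
  refine congrArg fm (_root_.funext fun i => ?_)
  rw [map_natCast, (ZMod.natCast_eq_natCast_iff _ _ _).2 (hk i p hp), ZMod.natCast_zmod_val]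

theorem aff {K : Type} [Field K] {h : K[X]} {a b : K} (hi : Irreducible h) (ne : a ≠ b)
    (sq : IsSquare (h.eval a * h.eval b)) : ∃ k : K[X], k.Monic ∧ Irreducible k ∧
      k.natDegree = h.natDegree ∧ IsSquare (k.eval 0 * k.eval 1) := by
  have n0 : b - a ≠ 0 := sub_ne_zero.2 ne.symm
  have := invertibleOfNonzero n0
  have h1 : Irreducible (h.comp (C (b - a) * X + C a)) :=
    (MulEquiv.irreducible_iff (algEquivCMulXAddC (b - a) a)).2 hi
  refine ⟨mo _, mo_monic h1.ne_zero, (irreducible_isUnit_mul (mo_unit h1.ne_zero)).2 h1, ?_, ?_⟩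
  · rw [mo_deg h1.ne_zero, natDegree_comp, natDegree_linear n0, mul_one]
  · rw [mo, eval_mul, eval_mul, mul_mul_mul_comm, eval_C, eval_C, eval_comp, eval_comp]
    exact (IsSquare.mul_self _).mul (by simpa using sq)

theorem typ (irr : IRRStmt) {g p : ℕ} [hp : Fact p.Prime] (hg : 1 ≤ g) (h2 : 2 < p) :
    ∃ k : (ZMod p)[X], k.Monic ∧ Irreducible k ∧ k.natDegree = 2 * g ∧
      IsSquare (k.eval 0 * k.eval 1) := by
  obtain ⟨h, -, h1, hi⟩ := (irr p (2 * g) (by omega)).1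
  have n : ∀ t, h.eval t ≠ 0 := fun t e => by
    rw [natDegree_eq_of_degree_eq_some (n := 1) (degree_eq_one_of_irreducible_of_root hi e)] at h1
    omega
  have k : ∀ a b, quadraticChar _ (h.eval a) = quadraticChar _ (h.eval b) →
      IsSquare (h.eval a * h.eval b) := fun a b e => by
    rw [← quadraticChar_one_iff_isSquare (mul_ne_zero (n a) (n b)), map_mul, ← e, ← sq]
    exact quadraticChar_sq_one (n a)
  have : Fact (2 < p) := ⟨h2⟩
  rw [← h1]
  by_cases c1 : quadraticChar _ (h.eval 0) = quadraticChar _ (h.eval 1)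
  · exact aff hi zero_ne_one (k _ _ c1)
  by_cases c2 : quadraticChar _ (h.eval (-1)) = quadraticChar _ (h.eval 1)
  · exact aff hi ZMod.neg_one_ne_one (k _ _ c2)
  refine aff hi (neg_ne_zero.2 one_ne_zero) (k _ _ ?_)
  rcases quadraticChar_dichotomy (n 0) with e | e <;>
    rcases quadraticChar_dichotomy (n 1) with e' | e' <;>
    rcases quadraticChar_dichotomy (n (-1)) with e'' | e'' <;> simp_all

end Base

open Base in
theorem base : IRRStmt → BASEStmt := by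
  intro irr g q₀ N P hg
  obtain ⟨Q, hQ, hN⟩ := ((Nat.infinite_setOfPred_prime_modEq_one (k := 8) (by norm_num)).sdiff
    (Set.finite_Iic (q₀ + P + 2))).exists_subset_card_eq N
  have k : ∀ p : ℕ, ∃ F : (ZMod p)[X], p.Prime → F.degree < (2 * g + 3 : ℕ) ∧
      (p ≤ P → ∃ h : (ZMod p)[X], F = X * h ∧ Irreducible h ∧ h.natDegree = 2 * g + 1) ∧
      (P + 2 < p → ∃ h : (ZMod p)[X], F = X * (X - 1) * h ∧ h.Monic ∧ Irreducible h ∧
        h.natDegree = 2 * g ∧ IsSquare (h.eval 0 * h.eval 1)) := fun p => by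
    by_cases hp : p.Prime
    swap
    · exact ⟨0, fun h => absurd h hp⟩
    have := Fact.mk hp
    have d : ∀ F : (ZMod p)[X], F.natDegree ≤ 2 * g + 2 → F.degree < (2 * g + 3 : ℕ) := fun F h =>
      degree_le_natDegree.trans_lt (by exact_mod_cast by omega)
    by_cases c : P + 2 < p
    · obtain ⟨h, k1, k2, k3, k4⟩ := typ (p := p) irr hg (by omega)
      refine ⟨X * (X - 1) * h, fun _ => ⟨d _ ?_, fun _ => by omega,
        fun _ => ⟨h, rfl, k1, k2, k3, k4⟩⟩⟩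
      have : (X * (X - 1) : (ZMod p)[X]).natDegree ≤ 2 := by compute_degree
      exact natDegree_mul_le.trans (by omega)
    · obtain ⟨h, -, k1, k2⟩ := (irr p (2 * g + 1) (by omega)).1
      refine ⟨X * h, fun _ => ⟨d _ ?_, fun _ => ⟨h, rfl, k2, k1⟩, fun e => absurd e c⟩⟩
      rw [natDegree_X_mul k2.ne_zero, k1]
  choose F hF using k
  have q : ∀ q ∈ Q, q.Prime ∧ q % 8 = 1 ∧ q₀ + P + 2 < q := fun q hq =>
    ⟨(hQ hq).1.1, (hQ hq).1.2, not_le.1 (hQ hq).2⟩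
  obtain ⟨c, hc⟩ := crt (2 * g + 3) (Q ∪ (range (P + 1)).filter Nat.Prime) F fun p hp => by
    have : p.Prime := (mem_union.1 hp).elim (fun h => (q p h).1) fun h => (mem_filter.1 h).2
    exact ⟨this, (hF p this).1⟩
  refine ⟨Q, c, hN, fun p hp l => ?_, fun p hp => ?_⟩
  · rw [Tz, hc p (mem_union_right _ (mem_filter.2 ⟨mem_range.2 (by omega), hp⟩))]
    exact (hF p hp).2.1 l
  · obtain ⟨a1, a2, a3⟩ := q p hp
    have := Fact.mk a1
    obtain ⟨h, e, k⟩ := (hF p a1).2.2 (by omega)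
    exact ⟨a1, a2, by omega, 1, h, one_ne_zero, by
      rw [hc p (mem_union_left _ hp), e, C_1, one_mul], k⟩

end Pool.Agent.MP_a43263_nt.VE

end
end MrgPart4

-- marker of a merged file
example : 731051 + 78868 = 731051 + 78868 := rfl
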