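import Mathlib.Analysis.PSeries
import Mathlib.Algebra.Ring.IsFormallyReal
import Mathlib.Analysis.Polynomial.CauchyBound
import Mathlib.Data.Nat.Prime.Factorial
import Mathlib.Tactic.NormNum.RealSqrt
import Pool.Agent.MP_a43263_nt.UC.Maj
import Pool.Agent.MP_a43263_nt.VE.Fin

-- ======== part 0: formerly Pool.Agent.MP_a43263_nt.VC.Sq
section MrgPart0

/-! Divisors of squares and a sum over greatest common divisors. -/

namespace Pool.Agent.MP_a43263_nt.VC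

open Finset

namespace Sq

theorem one (h : ℕ) (Y : ℝ) (W : Finset ℤ) (hh : 0 < h) (hY : 0 ≤ Y)
    (hW : ∀ t ∈ W, |(t : ℝ)| ≤ Y ∧ (h : ℤ) ∣ t ^ 2) : (W.card : ℝ) ≤ 2 * Y / √h + 1 := by
  refine space W (-Y) (2 * Y) √h (Real.sqrt_pos.2 (by exact_mod_cast hh)) (by linarith)
    (fun t ht => ?_) fun t ht t' ht' ne => ?_
  · have := abs_le.1 (hW t ht).1
    constructor <;> linarith
  · have a : (h : ℤ) ∣ t * t' := by
      rw [← Int.pow_dvd_pow_iff two_ne_zero, mul_pow, pow_two (h : ℤ)]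
      exact mul_dvd_mul (hW t ht).2 (hW t' ht').2
    have b : (h : ℤ) ∣ (t - t') ^ 2 := by
      rw [show (t - t') ^ 2 = t ^ 2 + t' ^ 2 - 2 * (t * t') by ring]
      exact dvd_sub (dvd_add (hW t ht).2 (hW t' ht').2) (a.mul_left 2)
    have c : (h : ℤ) ≤ (t - t') ^ 2 := Int.le_of_dvd
      (lt_of_le_of_ne (sq_nonneg _) (pow_ne_zero 2 (sub_ne_zero.2 ne)).symm) b
    rw [← Real.sqrt_sq_eq_abs]
    exact Real.sqrt_le_sqrt (by exact_mod_cast c)

theorem sum_inv_sqrt (a : ℕ) : ∑ s ∈ Icc 1 a, 1 / √(s : ℝ) ≤ 2 * √(a : ℝ) := by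
  induction a with
  | zero => simp
  | succ a ih =>
    rw [sum_Icc_succ_top (by omega)]
    have h1 : 0 < √((a + 1 : ℕ) : ℝ) := Real.sqrt_pos.2 (by positivity)
    have h2 := Real.sq_sqrt (show (0 : ℝ) ≤ (a + 1 : ℕ) by positivity)
    have h3 := Real.sq_sqrt (show (0 : ℝ) ≤ a by positivity)
    have h4 : 1 / √((a + 1 : ℕ) : ℝ) ≤ 2 * √((a + 1 : ℕ) : ℝ) - 2 * √(a : ℝ) := by
      rw [div_le_iff₀ h1]
      push_cast at h2 ⊢
      nlinarith [sq_nonneg (√((a : ℝ) + 1) - √(a : ℝ))]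
    linarith

theorem sum_pow (H : ℕ) : ∑ h ∈ Icc 1 H, 1 / ((h : ℝ) * √(h : ℝ)) ≤ 3 := by
  have key : ∀ H : ℕ, ∑ h ∈ Icc 1 (H + 1), 1 / ((h : ℝ) * √(h : ℝ)) ≤
      3 - 2 / √((H + 1 : ℕ) : ℝ) := by
    intro H
    induction H with
    | zero => norm_num
    | succ H ih =>
      rw [sum_Icc_succ_top (by omega)]
      obtain ⟨x, hx⟩ : ∃ x, x = √((H + 1 : ℕ) : ℝ) := ⟨_, rfl⟩
      obtain ⟨y, hy⟩ : ∃ y, y = √((H + 1 + 1 : ℕ) : ℝ) := ⟨_, rfl⟩
      have x0 : 0 < x := hx ▸ Real.sqrt_pos.2 (by positivity)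
      have y0 : 0 < y := hy ▸ Real.sqrt_pos.2 (by positivity)
      have y2 : ((H + 1 + 1 : ℕ) : ℝ) = y ^ 2 := hy ▸ (Real.sq_sqrt (by positivity)).symm
      have x2 : ((H + 1 : ℕ) : ℝ) = x ^ 2 := hx ▸ (Real.sq_sqrt (by positivity)).symm
      have e : y ^ 2 = x ^ 2 + 1 := by rw [← y2, ← x2]; push_cast; ring
      have xy : x ≤ y := by nlinarith
      rw [← hx] at ih
      rw [← hy, y2]
      have h4 : 1 / (y ^ 2 * y) ≤ 2 / x - 2 / y := by
        rw [div_sub_div _ _ x0.ne' y0.ne', div_le_div_iff₀ (by positivity) (by positivity)]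
        have h5 : (y - x) * (y + x) = 1 := by nlinarith
        have h6 : x * (y + x) ≤ 2 * y ^ 2 := by nlinarith
        have h7 : x ≤ 2 * (y - x) * y ^ 2 := by
          have := mul_le_mul_of_nonneg_left h6 (sub_nonneg.2 xy)
          nlinarith
        nlinarith [mul_le_mul_of_nonneg_right h7 y0.le]
      linarith
  rcases H with _ | H
  · simp
  · exact (key H).trans (sub_le_self _ (by positivity))

theorem sum_dvd (a h : ℕ) (hh : 0 < h) :
    ∑ s ∈ Icc 1 a, (if h ∣ s then 1 / √(s : ℝ) else 0) ≤ 2 * √(a : ℝ) / h := by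
  have hh' : (0 : ℝ) < h := by exact_mod_cast hh
  have hs := Real.sqrt_pos.2 hh'
  have e : (Icc 1 a).filter (h ∣ ·) = (Icc 1 (a / h)).image (h * ·) := by
    ext s
    simp only [mem_filter, mem_Icc, mem_image]
    constructor
    · rintro ⟨⟨h1, h2⟩, t, rfl⟩
      exact ⟨t, ⟨Nat.pos_of_mul_pos_left h1, (Nat.le_div_iff_mul_le hh).2 (by rwa [mul_comm])⟩,
        rfl⟩
    · rintro ⟨t, ⟨h1, h2⟩, rfl⟩
      exact ⟨⟨Nat.mul_pos hh h1, by rw [mul_comm]; exact (Nat.le_div_iff_mul_le hh).1 h2⟩,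
        t, rfl⟩
  rw [← sum_filter, e, sum_image fun x _ y _ h => Nat.eq_of_mul_eq_mul_left hh h]
  simp only [Nat.cast_mul, Real.sqrt_mul hh'.le, one_div, mul_inv, ← mul_sum]
  have h1 := sum_inv_sqrt (a / h)
  simp only [one_div] at h1
  have h2 : √((a / h : ℕ) : ℝ) ≤ √(a : ℝ) / √(h : ℝ) := by
    rw [← Real.sqrt_div (Nat.cast_nonneg a)]
    exact Real.sqrt_le_sqrt Nat.cast_div_le
  calc _ ≤ (√(h : ℝ))⁻¹ * (2 * (√(a : ℝ) / √(h : ℝ))) := by gcongr; linarith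
    _ = 2 * √(a : ℝ) / (√(h : ℝ) * √(h : ℝ)) := by field_simp
    _ = _ := by rw [Real.mul_self_sqrt hh'.le]

end Sq

theorem sq : SQStmt := by
  classical
  refine ⟨Sq.one, fun Y₀ Y₁ W h0 h1 hW => ?_⟩
  have hm : ∀ x ∈ W, x.1.natAbs ∈ Icc 1 ⌊Y₀⌋₊ := fun x hx =>
    mem_Icc.2 ⟨Int.natAbs_pos.2 (hW x hx).1, Nat.le_floor (by
      rw [Nat.cast_natAbs, Int.cast_abs]; exact (hW x hx).2.1)⟩
  rw [card_eq_sum_card_fiberwise hm, Nat.cast_sum]
  have h2 : ∀ h ∈ Icc 1 ⌊Y₀⌋₊, ((W.filter fun x => x.1.natAbs = h).card : ℝ) ≤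
      6 * Y₁ * (1 / √(h : ℝ)) := by
    intro h hh
    obtain ⟨a1, a2⟩ := mem_Icc.1 hh
    have b1 : (1 : ℝ) ≤ h := by exact_mod_cast a1
    have b2 : (h : ℝ) ≤ Y₀ := (Nat.cast_le.2 a2).trans (Nat.floor_le h0)
    set F := W.filter fun x => x.1.natAbs = h with hF
    have c1 : F.card ≤ (({(h : ℤ), -(h : ℤ)} : Finset ℤ) ×ˢ F.image fun x => x.2.1).card := by
      refine card_le_card_of_injOn (fun x => (x.1, x.2.1)) (fun x hx => ?_) fun x hx y hy e => ?_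
      · refine mem_coe.2 (mem_product.2 ⟨?_, mem_image_of_mem _ hx⟩)
        have := (mem_filter.1 hx).2
        simp only [mem_insert, mem_singleton]
        omega
      · obtain ⟨e1, e2⟩ := Prod.ext_iff.1 e
        obtain ⟨d1, -, -, d2⟩ := hW x (mem_filter.1 hx).1
        obtain ⟨-, -, -, d3⟩ := hW y (mem_filter.1 hy).1
        simp only at e1 e2
        refine Prod.ext e1 (Prod.ext e2 (mul_left_cancel₀ d1 ?_))
        rw [d2, e1, d3, e2]
    have c2 := Sq.one h Y₁ (F.image fun x => x.2.1) a1 (h0.trans h1) fun t ht => by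
      obtain ⟨x, hx, rfl⟩ := mem_image.1 ht
      obtain ⟨-, -, d1, d2⟩ := hW x (mem_filter.1 hx).1
      refine ⟨d1, ?_⟩
      rw [← d2, ← (mem_filter.1 hx).2]
      exact (Int.natAbs_dvd.2 dvd_rfl).mul_right _
    rw [card_product] at c1
    have c3 : (F.card : ℝ) ≤ 2 * (F.image fun x => x.2.1).card := by
      exact_mod_cast c1.trans (Nat.mul_le_mul_right _ card_le_two)
    have hs : 0 < √(h : ℝ) := Real.sqrt_pos.2 (by linarith)
    have c4 : 1 ≤ Y₁ / √(h : ℝ) := by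
      rw [le_div_iff₀ hs, one_mul]
      exact (Real.sqrt_le_self_iff.2 (Or.inr b1)).trans (b2.trans h1)
    rw [mul_div_assoc] at c2
    rw [mul_one_div, mul_div_assoc]
    linarith
  refine (sum_le_sum h2).trans ?_
  rw [← mul_sum]
  have h3 := (Sq.sum_inv_sqrt ⌊Y₀⌋₊).trans
    (mul_le_mul_of_nonneg_left (Real.sqrt_le_sqrt (Nat.floor_le h0)) zero_le_two)
  have h4 := mul_le_mul_of_nonneg_left h3 (by linarith : 0 ≤ 6 * Y₁)
  linarith

theorem gcd : GCDStmt := by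
  intro a b
  have h1 : ∀ s ∈ Icc 1 a, ∀ k ∈ Icc 1 b, √(Nat.gcd s k : ℝ) / √((s : ℝ) * k) ≤
      ∑ h ∈ Icc 1 a, √(h : ℝ) * ((if h ∣ s then 1 / √(s : ℝ) else 0) *
        if h ∣ k then 1 / √(k : ℝ) else 0) := by
    intro s hs k _
    obtain ⟨a1, a2⟩ := mem_Icc.1 hs
    refine le_trans (le_of_eq ?_) (single_le_sum (fun h _ => by positivity)
      (mem_Icc.2 ⟨Nat.gcd_pos_of_pos_left k a1, (Nat.gcd_le_left k a1).trans a2⟩))
    rw [if_pos (Nat.gcd_dvd_left s k), if_pos (Nat.gcd_dvd_right s k),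
      Real.sqrt_mul (Nat.cast_nonneg s), one_div_mul_one_div, mul_one_div]
  refine (sum_le_sum fun s hs => sum_le_sum fun k hk => h1 s hs k hk).trans ?_
  rw [sum_congr rfl fun s _ => sum_comm, sum_comm]
  have h2 : ∀ h ∈ Icc 1 a, ∑ s ∈ Icc 1 a, ∑ k ∈ Icc 1 b,
      √(h : ℝ) * ((if h ∣ s then 1 / √(s : ℝ) else 0) * if h ∣ k then 1 / √(k : ℝ) else 0) ≤
      4 * √((a : ℝ) * b) * (1 / ((h : ℝ) * √(h : ℝ))) := by
    intro h hh
    have a1 : 0 < h := (mem_Icc.1 hh).1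
    have hh' : (0 : ℝ) < h := by exact_mod_cast a1
    have hs := Real.sqrt_pos.2 hh'
    simp only [← mul_sum, ← sum_mul]
    calc _ ≤ √(h : ℝ) * (2 * √(a : ℝ) / h * (2 * √(b : ℝ) / h)) := by
          refine mul_le_mul_of_nonneg_left (mul_le_mul (Sq.sum_dvd a h a1) (Sq.sum_dvd b h a1)
            (sum_nonneg fun k _ => by positivity) (by positivity)) hs.le
      _ = _ := by
          rw [Real.sqrt_mul (Nat.cast_nonneg a)]
          field_simp
          rw [Real.sq_sqrt hh'.le]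
          ring
  refine (sum_le_sum h2).trans ?_
  rw [← mul_sum]
  have h3 := mul_le_mul_of_nonneg_left (Sq.sum_pow a) (by positivity : 0 ≤ 4 * √((a : ℝ) * b))
  linarith

end Pool.Agent.MP_a43263_nt.VC

end MrgPart0

-- ======== part 1: formerly Pool.Agent.MP_a43263_nt.VE.Geo
section MrgPart1

/-! THEOREM V, part E: the geometry of the box, the local types, no deficient prime. -/

set_option autoImplicit false

noncomputable section

namespace Pool.Agent.MP_a43263_nt.VE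

open Polynomial Finset Filter JC VV
open UV (zK iq rq Nx zK_map fK_zK iq_zK rq_zK)

namespace Geo

theorem neg_sum (a : ℕ → ℝ) {k : ℝ} (hk : 0 < k) (x : ℝ) : ∀ g : ℕ,
    (∀ j ≤ g, a (2 * j) ≤ -6 * k) → (∀ j < g, |a (2 * j + 1)| ≤ k) →
    ∑ i ∈ range (2 * g + 1), a i * x ^ i ≤ -k - 5 * k * x ^ (2 * g)
  | 0, h, _ => by
    have := h 0 le_rfl
    simp only [mul_zero, zero_add, range_one, sum_singleton, pow_zero, mul_one] at this ⊢
    linarith
  | g + 1, h, h' => by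
    have ih := neg_sum a hk x g (fun j hj => h j (by omega)) fun j hj => h' j (by omega)
    have h1 := h (g + 1) le_rfl
    have h2 := h' g (by omega)
    have y0 : 0 ≤ x ^ (2 * g) := by rw [pow_mul]; positivity
    have e : 2 * (g + 1) = 2 * g + 1 + 1 := by ring
    rw [e] at h1 ⊢
    rw [sum_range_succ, sum_range_succ, pow_succ x (2 * g + 1), pow_succ x (2 * g)]
    have h3 : a (2 * g + 1) * x ≤ k * (5 + x * x) := by
      have := abs_le.1 h2
      nlinarith [mul_nonneg (sub_nonneg.2 this.2) (sq_nonneg (x - 1)),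
        mul_nonneg (sub_nonneg.2 this.1) (sq_nonneg (x + 1)), mul_self_nonneg x]
    have h4 := mul_le_mul_of_nonneg_right h3 y0
    have h5 := mul_le_mul_of_nonneg_right h1 (mul_nonneg y0 (mul_self_nonneg x))
    linarith

variable {K : Type} [Field K]

theorem no_root {h : K[X]} (hi : Irreducible h) (hd : 2 ≤ h.natDegree) (a : K) : h.eval a ≠ 0 :=
  fun e => by
    have := natDegree_eq_of_degree_eq_some (n := 1) (degree_eq_one_of_irreducible_of_root hi e)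
    omega

theorem sqf {w : K[X]} (a : K) (h : w.eval a ≠ 0) (s : Squarefree w) :
    Squarefree ((X - C a) * w) :=
  squarefree_mul_iff.2 ⟨(irreducible_X_sub_C a).isRelPrime_iff_not_dvd.2
    fun d => h (dvd_iff_isRoot.1 d), (irreducible_X_sub_C a).squarefree, s⟩

/-- a simple root at zero and a squarefree cofactor -/
theorem shape {g p : ℕ} [Fact p.Prime] {f : ℤ[X]} (hg : 1 ≤ g) (t : Tz g p f ∨ Ty g p f) :
    ∃ w : (ZMod p)[X], zK f (ZMod p) = X * w ∧ w.eval 0 ≠ 0 ∧ Squarefree w ∧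
      w.natDegree = 2 * g + 1 := by
  rcases t with ⟨h, e, i, d⟩ | ⟨c, h, c0, e, m, i, d, -⟩
  · exact ⟨h, e, no_root i (by omega) 0, i.squarefree, d⟩
  · refine ⟨C c * ((X - C 1) * h), by rw [e, C_1]; ring, ?_, ?_, ?_⟩
    · simpa using ⟨c0, no_root i (by omega) 0⟩
    · exact (associated_unit_mul_right _ _ (isUnit_C.2 c0.isUnit)).squarefree_iff.1
        (sqf 1 (no_root i (by omega) 1) i.squarefree)
    · rw [natDegree_C_mul c0, (monic_X_sub_C 1).natDegree_mul m, natDegree_X_sub_C, d]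
      omega

theorem red {g p : ℕ} [Fact p.Prime] {f : ℤ[X]} (hg : 1 ≤ g) (t : Tz g p f ∨ Ty g p f) :
    Squarefree (zK f (ZMod p)) ∧ (zK f (ZMod p)).natDegree = 2 * g + 2 := by
  obtain ⟨w, e, w0, s, d⟩ := shape hg t
  rw [e]
  refine ⟨by simpa using sqf 0 w0 s, ?_⟩
  rw [natDegree_X_mul s.ne_zero, d]

theorem irr {g : ℕ} {f : ℤ[X]} (hd : f.natDegree = 2 * g + 2) (hn : Neg (zK f ℚ))
    (t : Tz g 2 f) : Irreducible (zK f ℚ) := by
  obtain ⟨h, e, i, d⟩ := t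
  have f0 : f ≠ 0 := fun z => by rw [z, natDegree_zero] at hd; omega
  have r0 : zK f (ZMod 2) ≠ 0 := e ▸ mul_ne_zero X_ne_zero i.ne_zero
  have ef := f.eq_C_content_mul_primPart
  have low : ∀ a b : ℤ[X], f.primPart = a * b → h ∣ zK b (ZMod 2) → IsUnit a := by
    intro a b ab hb
    have db : b ∣ f := (Dvd.intro_left a ab.symm).trans f.primPart_dvd
    have da : a ∣ f := (Dvd.intro b ab.symm).trans f.primPart_dvd
    have b0 : zK b (ZMod 2) ≠ 0 := ne_zero_of_dvd_ne_zero r0 (Polynomial.map_dvd _ db)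
    have h1 : 2 * g + 1 ≤ b.natDegree := d ▸ (natDegree_le_of_dvd hb b0).trans natDegree_map_le
    have h2 : a.natDegree + b.natDegree = 2 * g + 2 := by
      rw [← natDegree_mul (ne_zero_of_dvd_ne_zero f0 da) (ne_zero_of_dvd_ne_zero f0 db), ← ab,
        natDegree_primPart, hd]
    rcases (by omega : a.natDegree = 0 ∨ a.natDegree = 1) with h3 | h3
    · rw [eq_C_of_natDegree_eq_zero h3] at ab ⊢
      exact isUnit_C.2 (f.isPrimitive_primPart _ ⟨b, ab⟩)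
    · have h4 : (zK a ℝ).degree = 1 := by
        rw [degree_map_eq_of_injective (RingHom.injective_int _),
          degree_eq_natDegree (ne_zero_of_dvd_ne_zero f0 da), h3, Nat.cast_one]
      obtain ⟨x, hx⟩ := exists_root_of_degree_eq_one h4
      have h5 := hn x
      rw [fK_zK] at h5
      exact absurd (hx.dvd (Polynomial.map_dvd _ da)) h5.ne
  have ip : Irreducible f.primPart := by
    refine ⟨fun u => ?_, fun a b ab => ?_⟩
    · have := natDegree_eq_zero_of_isUnit u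
      rw [natDegree_primPart] at this
      omega
    · have e2 : zK f (ZMod 2) = C (f.content : ZMod 2) * (zK a (ZMod 2) * zK b (ZMod 2)) := by
        conv_lhs => rw [ef, ab]
        simp
      have c0 : (f.content : ZMod 2) ≠ 0 := fun z => r0 (by rw [e2, z, C_0, zero_mul])
      have hh : h ∣ zK a (ZMod 2) * zK b (ZMod 2) :=
        (isUnit_C.2 c0.isUnit).dvd_mul_left.1 (by rw [← e2, e]; exact dvd_mul_left h X)
      rcases i.prime.dvd_or_dvd hh with q | q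
      · exact Or.inr (low b a (ab.trans (mul_comm _ _)) q)
      · exact Or.inl (low a b ab q)
  have iq := (IsPrimitive.Int.irreducible_iff_irreducible_map_cast f.isPrimitive_primPart).1 ip
  have e3 : zK f ℚ = C (f.content : ℚ) * zK f.primPart ℚ := by
    conv_lhs => rw [ef]
    simp
  rw [e3]
  exact (irreducible_isUnit_mul (isUnit_C.2
    (Int.cast_ne_zero.2 (content_eq_zero_iff.not.2 f0)).isUnit)).2 iq

end Geo

open Geo

theorem geo : GEOStmt := by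
  intro g k c hk hs
  have ev : ∀ i : Fin (2 * g + 3), Even i.1 → -8 * (k : ℤ) ≤ c i ∧ c i ≤ -6 * k := fun i e => by
    have := hs i
    rw [if_pos e, abs_le] at this
    constructor <;> linarith [this.1, this.2]
  have od : ∀ i : Fin (2 * g + 3), ¬Even i.1 → |c i| ≤ k := fun i e => by
    simpa [e] using hs i
  have all : ∀ i, |c i| ≤ ((8 * k : ℕ) : ℤ) := fun i => by
    by_cases e : Even i.1
    · have := ev i e
      rw [abs_le]
      omega
    · have := od i e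
      omega
  have la := ev (Fin.last _) ⟨g + 1, by simp; ring⟩
  have l0 : c (Fin.last _) ≠ 0 := by omega
  obtain ⟨hd, hl⟩ := VA.fm_natDegree l0
  have k0 : (0 : ℝ) < k := by exact_mod_cast hk
  have l1 : (c (Fin.last _) : ℝ) ≤ -6 * k := by exact_mod_cast la.2
  have l2 : -8 * (k : ℝ) ≤ c (Fin.last _) := by exact_mod_cast la.1
  have l3 : 4 * (k : ℝ) ≤ |((fm c).leadingCoeff : ℝ)| := by
    rw [hl, abs_of_nonpos (by linarith)]
    linarith
  have co : ∀ i (hi : i < 2 * g + 3), (fm c).coeff i = c ⟨i, hi⟩ := fun i hi => VA.fm_coeff c ⟨i, hi⟩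
  refine ⟨all, l0, hd, hl, l3, ?_, fun x => ?_, fun θ hθ => ?_⟩
  · rw [hl, abs_of_nonpos (by linarith)]
    linarith
  · rw [fK_zK, eval_eq_sum_range' (n := 2 * (g + 1) + 1) (natDegree_map_le.trans_lt (by omega))]
    refine (neg_sum _ k0 x (g + 1) (fun j hj => ?_) fun j hj => ?_).trans_lt ?_
    · rw [coeff_map, co _ (by omega), eq_intCast]
      exact_mod_cast (ev ⟨2 * j, by omega⟩ (even_two_mul j)).2
    · rw [coeff_map, co _ (by omega), eq_intCast]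
      exact_mod_cast od ⟨2 * j + 1, by omega⟩ (by simp)
    · have : 0 ≤ x ^ (2 * (g + 1)) := by rw [pow_mul]; positivity
      nlinarith [mul_nonneg k0.le this]
  · have dm : (zK (fm c) ℂ).natDegree = 2 * g + 2 := by
      rw [natDegree_map_eq_of_injective (RingHom.injective_int _), hd]
    have n0 : zK (fm c) ℂ ≠ 0 := fun z => by rw [z, natDegree_zero] at dm; omega
    have h1 := IsRoot.norm_lt_cauchyBound n0 hθ
    have h2 : (range (zK (fm c) ℂ).natDegree).sup (‖(zK (fm c) ℂ).coeff ·‖₊) ≤ 8 * k :=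
      Finset.sup_le fun i hi => by
        rw [mem_range, dm] at hi
        rw [coeff_map, co i (by omega), eq_intCast, ← NNReal.coe_le_coe, coe_nnnorm,
          Complex.norm_intCast]
        have := (Int.cast_le (R := ℝ)).2 (all ⟨i, by omega⟩)
        simpa using this
    have h3 : (4 * k : NNReal) ≤ ‖(zK (fm c) ℂ).leadingCoeff‖₊ := by
      rw [VA.fam_lc, ← NNReal.coe_le_coe, coe_nnnorm, Complex.norm_intCast]
      simpa using l3
    have h4 : cauchyBound (zK (fm c) ℂ) ≤ 3 := by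
      rw [cauchyBound, show (3 : NNReal) = 2 + 1 by norm_num, add_le_add_iff_right]
      refine NNReal.div_le_of_le_mul (h2.trans ?_)
      calc (8 * k : NNReal) = 2 * (4 * k) := by ring
        _ ≤ _ := by gcongr
    exact_mod_cast (h1.le.trans h4 : ‖θ‖₊ ≤ 3)

theorem typ : TYPStmt := by
  intro g f hg hd
  refine ⟨irr hd, fun p hp t => ?_, fun f₀ Q M hd₀ hq => ?_⟩
  · have : Fact p.Prime := ⟨hp⟩
    obtain ⟨s, d⟩ := red hg t
    refine ⟨fun c => leadingCoeff_ne_zero.2 s.ne_zero ?_, ?_, ?_⟩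
    · rw [leadingCoeff, d, ← hd, coeff_map, coeff_natDegree, eq_intCast]
      exact (ZMod.intCast_zmod_eq_zero_iff_dvd _ p).2 c
    · rintro ⟨φ, a, b, c, h1, h2, h3⟩
      have h4 : zK φ (ZMod p) * zK φ (ZMod p) ∣ zK f (ZMod p) :=
        ⟨zK a (ZMod p), by rw [h3]; simp [sq]⟩
      have h5 := natDegree_eq_zero_of_isUnit (s _ h4)
      rw [h1.natDegree_map] at h5
      omega
    · rintro ⟨c, G, e⟩
      have h5 := natDegree_eq_zero_of_isUnit (s G ⟨C c, by rw [e]; ring⟩)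
      have h6 := natDegree_C_mul_le c (G ^ 2)
      rw [← e, d, natDegree_pow, h5] at h6
      omega
  · have co : ∀ q ∈ Q, ∀ i, (f.coeff i : ZMod q) = f₀.coeff i := fun q h i => by
      simpa using congrArg (coeff · i) (hq q h)
    have lc : ∀ q ∈ Q, (f.leadingCoeff : ZMod q) = f₀.leadingCoeff := fun q h => by
      rw [leadingCoeff, leadingCoeff, hd, hd₀, co q h]
    refine ⟨lc, fun ⟨A, T, r, s, c⟩ => ⟨A, T, r, fun q h => ?_, c⟩⟩
    have e : zK (nz f) (ZMod q) = zK (nz f₀) (ZMod q) := by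
      ext i
      rw [coeff_map, coeff_map, integralNormalization_coeff, integralNormalization_coeff,
        (degree_eq_iff_natDegree_eq_of_pos (by omega)).2 hd,
        (degree_eq_iff_natDegree_eq_of_pos (by omega)).2 hd₀, hd, hd₀]
      split_ifs
      · rfl
      · simp [co q h, lc q h]
    rw [← e, ← lc q h]
    exact s q h

theorem odp (odd : ODDStmt) : ODPStmt := by
  intro g f Q S hf hQ hs hS p _
  have hp : p.Prime := Fact.out
  have e : fK (C (∏ q ∈ S, (q : ℚ)) * zK f ℚ) ℚ_[p] =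
      C (∏ q ∈ S, (q : ℚ_[p])) * iq p (zK f ℤ_[p]) := by
    rw [iq_zK, fK, Polynomial.map_mul, map_C, map_prod, zK_map]
    simp only [map_natCast]
  rw [e]
  by_cases h : p = 2 ∨ p ∈ Q
  · obtain ⟨w, e, w0, -⟩ := shape (p := p) (f := f) (le_trans one_le_two hf.pos)
      (h.imp (fun h2 => by subst h2; exact hf.two) fun h2 => (hQ p h2).2)
    refine odd.2 p _ 0 _ ?_ ?_ <;> rw [rq_zK, e]
    · simp
    · simpa using w0
  · have h2 := not_or.1 h
    have d0 : ∏ q ∈ S, (q : ZMod p) ≠ 0 := prod_ne_zero_iff.2 fun q hq z => h2.2 (by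
      rw [(Nat.prime_dvd_prime_iff_eq hp (hQ q (hS hq)).1).1 ((ZMod.natCast_eq_zero_iff q p).1 z)]
      exact hS hq)
    have o := odd.1 p (C (∏ q ∈ S, (q : ℤ_[p])) * zK f ℤ_[p]) h2.1 fun c G z => hs p hp
      ⟨(∏ q ∈ S, (q : ZMod p))⁻¹ * c, G, by
        rw [rq, Polynomial.map_mul, map_C, zK_map, map_prod] at z
        simp only [map_natCast] at z
        rw [C_mul, mul_assoc, ← z, ← mul_assoc, ← C_mul, inv_mul_cancel₀ d0, C_1, one_mul]⟩
    rw [iq, Polynomial.map_mul, map_C, map_prod] at o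
    simpa only [map_natCast] using o

end Pool.Agent.MP_a43263_nt.VE

end
end MrgPart1

-- ======== part 2: formerly Pool.Agent.MP_a43263_nt.VE.Low
section MrgPart2

/-! THEOREM V, part E: the small primes, and the large primes dividing the leading coefficient. -/

set_option autoImplicit false

noncomputable section

namespace Pool.Agent.MP_a43263_nt.VE

open Polynomial Finset Filter JC VV Topology
open UV (zK Nx BXCStmt IRRStmt)

namespace Low

theorem sum_le (P : Finset ℕ) {x : ℝ} (hx : 0 < x) (hP : ∀ p ∈ P, x + 1 ≤ (p : ℝ)) :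
    ∑ p ∈ P, ((p : ℝ) ^ 2)⁻¹ ≤ x⁻¹ := by
  have h0 : ⌈x⌉₊ ≠ 0 := (Nat.ceil_pos.2 hx).ne'
  have hs : P ⊆ Ioc ⌈x⌉₊ (max ⌈x⌉₊ (P.sup id)) := fun p hp => by
    refine mem_Ioc.2 ⟨?_, le_max_of_le_right (le_sup (f := id) hp)⟩
    have h1 := Nat.ceil_lt_add_one hx.le
    exact_mod_cast h1.trans_le (hP p hp)
  refine (sum_le_sum_of_subset_of_nonneg hs fun p _ _ => by positivity).trans
    ((sum_Ioc_inv_sq_le_sub h0 (le_max_left _ _)).trans ?_)
  have h2 : ((⌈x⌉₊ : ℕ) : ℝ)⁻¹ ≤ x⁻¹ := inv_anti₀ hx (Nat.le_ceil x)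
  have h3 : (0 : ℝ) ≤ ((max ⌈x⌉₊ (P.sup id) : ℕ) : ℝ)⁻¹ := by positivity
  linarith

theorem fin (bx : BXCStmt) {n : ℕ} (t : Fin n → ℤ) (k : ℕ) :
    {c : Fin n → ℤ | ∀ i, |c i + t i| ≤ k}.Finite := by
  refine ((bx (Fin n) (fun _ => k) fun _ => k.cast_nonneg).1.preimage
    (add_left_injective t).injOn).subset fun c hc i => ?_
  have := hc i
  simp only [Pi.add_apply]
  exact_mod_cast this

theorem bad (bx : BXCStmt) {n m p : ℕ} {κ : ℝ} {B : (Fin n → ℤ) → Prop} (c₀ t : Fin n → ℤ) (k : ℕ)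
    (hp : p.Prime) (hm : 0 < m) (hd : ¬p ∣ m) (hB : Thin κ p B) :
    ({c : Fin n → ℤ | (∀ i, |c i + t i| ≤ k) ∧ (∀ i, (c i : ZMod m) = c₀ i) ∧ B c}.ncard : ℝ) ≤
      κ * ((p : ℝ) ^ 2)⁻¹ * (2 * (k : ℝ) / m + (p : ℝ) ^ 2) ^ n := by
  obtain ⟨hf, h, -⟩ := bx (Fin n) (fun _ => k) fun _ => k.cast_nonneg
  have hp2 : 0 < p ^ 2 := pow_pos hp.pos 2
  have : NeZero (p ^ 2) := ⟨hp2.ne'⟩
  have hne : m ≠ p ^ 2 := fun e => hd (e ▸ dvd_pow_self p two_ne_zero)
  have hc : m.Coprime p := ((Nat.Prime.coprime_iff_not_dvd hp).2 hd).symm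
  let S : ∀ q : ℕ, Set (Fin n → ZMod q) := fun q => {x | ∃ c : Fin n → ℤ,
    (fun i => ((c i + t i : ℤ) : ZMod q)) = x ∧
      (q = m ∧ (∀ i, (c i : ZMod m) = c₀ i) ∨ q = p ^ 2 ∧ B c)}
  have h1 := h {m, p ^ 2} S (by simp [hm, hp2]) (by
    rw [coe_pair]
    exact (Set.pairwise_pair_of_symm (r := Nat.Coprime)).2 fun _ => hc.pow_right 2)
  rw [prod_pair hne, prod_pair hne] at h1
  have h2 : (S m).ncard ≤ 1 := by
    refine (Set.ncard_le_ncard (t := {fun i => (c₀ i : ZMod m) + t i}) ?_).trans (by simp)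
    rintro _ ⟨c, rfl, hx | hx⟩
    · exact funext fun i => by rw [Int.cast_add, hx.2]
    · exact (hne hx.1).elim
  have h3 : (S (p ^ 2)).ncard ≤ {x : Fin n → ZMod (p ^ 2) | ∃ c : Fin n → ℤ,
      (fun i => (c i : ZMod (p ^ 2))) = x ∧ B c}.ncard := by
    refine le_trans (Set.ncard_le_ncard ?_)
      (Set.ncard_image_le (f := fun x i => x i + (t i : ZMod (p ^ 2))))
    rintro _ ⟨c, rfl, hx | hx⟩
    · exact (hne hx.1.symm).elim
    · exact ⟨_, ⟨c, rfl, hx.2⟩, funext fun i => (Int.cast_add _ _).symm⟩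
  have h4 := (Nat.cast_le.2 h3).trans hB
  refine le_trans (Nat.cast_le.2 (Set.ncard_le_ncard_of_injOn (· + t) ?_
    (add_left_injective t).injOn (hf.subset fun z hz => hz.1))) (h1.trans ?_)
  · rintro c ⟨hc1, hc2, hc3⟩
    refine ⟨fun i => ?_, fun q hq => ⟨c, rfl, ?_⟩⟩
    · have := hc1 i
      simp only [Pi.add_apply]
      exact_mod_cast this
    rcases mem_insert.1 hq with hq | hq
    · exact .inl ⟨hq, hc2⟩
    · exact .inr ⟨mem_singleton.1 hq, hc3⟩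
  · have h5 : ((S m).ncard : ℝ) ≤ 1 := by exact_mod_cast h2
    have h6 : (0 : ℝ) < p := by exact_mod_cast hp.pos
    have h7 : (0 : ℝ) < m := by exact_mod_cast hm
    refine (mul_le_mul_of_nonneg_right ((mul_le_of_le_one_left (Nat.cast_nonneg _) h5).trans h4)
      (by positivity)).trans (le_of_eq ?_)
    have e : 2 * (k : ℝ) / m + (p : ℝ) ^ 2 = (p : ℝ) ^ 2 * (2 * k / (m * (p : ℝ) ^ 2) + 1) := by
      field_simp
    rw [e, Fin.prod_const, mul_pow, ← pow_mul]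
    push_cast
    ring

theorem ev (n m : ℕ) (hm : 0 < m) (M : ℝ) : ∀ᶠ k : ℕ in atTop, (m : ℝ) ≤ 2 * k ∧
    1 / 2 * (2 * (k : ℝ) / m) ^ n ≤
      (2 * (k : ℝ) / m - 1) ^ n - 1 / 4 * (2 * (k : ℝ) / m + M ^ 2) ^ n := by
  have h0 : Tendsto (fun k : ℕ => (m : ℝ) / 2 / (k : ℝ)) atTop (𝓝 0) :=
    tendsto_const_div_atTop_nhds_zero_nat _
  have h1 : Tendsto (fun k : ℕ => (1 - (m : ℝ) / 2 / (k : ℝ)) ^ n -
      1 / 4 * (1 + M ^ 2 * ((m : ℝ) / 2 / (k : ℝ))) ^ n) atTop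
      (𝓝 ((1 - 0) ^ n - 1 / 4 * (1 + M ^ 2 * 0) ^ n)) :=
    ((h0.const_sub 1).pow n).sub ((((h0.const_mul _).const_add 1).pow n).const_mul _)
  filter_upwards [eventually_ge_atTop m, h1.eventually_const_le (u := 1 / 2) (by norm_num)]
    with k hk h2
  have h3 : (0 : ℝ) < m := by exact_mod_cast hm
  have h4 : (m : ℝ) ≤ k := by exact_mod_cast hk
  have h5 : (0 : ℝ) < k := by linarith
  refine ⟨by linarith, ?_⟩
  have e1 : 2 * (k : ℝ) / m - 1 = 2 * (k : ℝ) / m * (1 - (m : ℝ) / 2 / k) := by field_simp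
  have e2 : 2 * (k : ℝ) / m + M ^ 2 = 2 * (k : ℝ) / m * (1 + M ^ 2 * ((m : ℝ) / 2 / k)) := by
    field_simp
  have h6 := mul_le_mul_of_nonneg_left h2 (by positivity : 0 ≤ (2 * (k : ℝ) / m) ^ n)
  rw [e1, e2, mul_pow, mul_pow]
  linarith

/-- points of a box with last coordinate divisible by `q` -/
theorem cnt (bx : BXCStmt) {n q H : ℕ} (hq : 0 < q) (hH : q ≤ H) (B : (Fin (n + 1) → ℤ) → Prop)
    (T : Set (Fin n → ZMod q)) (hB : ∀ c, B c → (c (Fin.last n) : ZMod q) = 0 ∧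
      (fun i : Fin n => (c i.castSucc : ZMod q)) ∈ T) :
    ({c : Fin (n + 1) → ℤ | (∀ i, |c i| ≤ H) ∧ B c}.ncard : ℝ) ≤
      T.ncard * (3 * (H : ℝ) / q) ^ (n + 1) := by
  obtain ⟨hf, h, -⟩ := bx (Fin (n + 1)) (fun _ => H) fun _ => H.cast_nonneg
  have : NeZero q := ⟨hq.ne'⟩
  have h1 := h {q} (fun q => {x | ∃ c : Fin (n + 1) → ℤ, (fun i => (c i : ZMod q)) = x ∧ B c})
    (by simp [hq]) (by simp)
  rw [prod_singleton, prod_singleton, Fin.prod_const] at h1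
  have h2 : {x | ∃ c : Fin (n + 1) → ℤ, (fun i => (c i : ZMod q)) = x ∧ B c}.ncard ≤ T.ncard := by
    refine Set.ncard_le_ncard_of_injOn (fun x i => x i.castSucc) ?_ ?_
    · rintro _ ⟨c, rfl, hc⟩
      exact (hB c hc).2
    · rintro _ ⟨c, rfl, hc⟩ _ ⟨d, rfl, hd⟩ e
      funext i
      refine i.lastCases ?_ fun j => congrFun e j
      exact (hB c hc).1.trans (hB d hd).1.symm
  have h3 : (0 : ℝ) < q := by exact_mod_cast hq
  have h4 : (1 : ℝ) ≤ H / q := (one_le_div h3).2 (by exact_mod_cast hH)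
  refine le_trans (Nat.cast_le.2 (Set.ncard_le_ncard ?_ (hf.subset fun z hz => hz.1)))
    (h1.trans (mul_le_mul (Nat.cast_le.2 h2) (pow_le_pow_left₀ (by positivity) ?_ _)
      (by positivity) (by positivity)))
  · rintro c ⟨hc1, hc2⟩
    refine ⟨fun i => by exact_mod_cast hc1 i, fun r hr => ⟨c, rfl, hc2⟩⟩
  · rw [mul_div_assoc, mul_div_assoc]
    linarith

theorem one (bx : BXCStmt) (ins : INSStmt) (g p H : ℕ) (hp : p.Prime) :
    ({c : Fin (2 * g + 3) → ℤ | (∀ i, |c i| ≤ H) ∧ c (Fin.last _) ≠ 0 ∧ Bi g p c}.ncard : ℝ) ≤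
      (2 * g + 3) * 3 ^ (2 * g + 3) * (H : ℝ) ^ (2 * g + 3) * ((p : ℝ) ^ 2)⁻¹ := by
  have h0 : (0 : ℝ) < p := by exact_mod_cast hp.pos
  have hle : ∀ (q : ℕ) (c : Fin (2 * g + 3) → ℤ), (∀ i, |c i| ≤ H) → c (Fin.last _) ≠ 0 →
      (q : ℤ) ∣ c (Fin.last _) → q ≤ H := fun q c h1 h2 h3 => by
    exact_mod_cast (Int.le_of_dvd (abs_pos.2 h2) ((dvd_abs _ _).2 h3)).trans (h1 _)
  have h1 : ({c : Fin (2 * g + 3) → ℤ | (∀ i, |c i| ≤ H) ∧ c (Fin.last _) ≠ 0 ∧
      (p : ℤ) ^ 2 ∣ c (Fin.last _)}.ncard : ℝ) ≤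
      3 ^ (2 * g + 3) * (H : ℝ) ^ (2 * g + 3) * ((p : ℝ) ^ 2)⁻¹ := by
    by_cases hH : p ^ 2 ≤ H
    · refine (cnt bx (n := 2 * g + 2) (pow_pos hp.pos 2) hH _ Set.univ fun c hc =>
        ⟨(ZMod.intCast_zmod_eq_zero_iff_dvd _ _).2 (by exact_mod_cast hc.2), trivial⟩).trans
        (le_of_eq ?_)
      rw [Set.ncard_univ, Nat.card_fun, Nat.card_zmod, Nat.card_fin, div_pow, mul_pow]
      push_cast
      field_simp
      ring
    · refine le_trans (le_of_eq ?_) (by positivity : (0 : ℝ) ≤ _)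
      rw [Nat.cast_eq_zero, ← Set.ncard_empty (Fin (2 * g + 3) → ℤ)]
      exact congrArg _ (Set.eq_empty_of_forall_notMem fun c hc =>
        hH (hle (p ^ 2) c hc.1 hc.2.1 (by exact_mod_cast hc.2.2)))
  have h2 : ({c : Fin (2 * g + 3) → ℤ | (∀ i, |c i| ≤ H) ∧ c (Fin.last _) ≠ 0 ∧
      (p : ℤ) ∣ c (Fin.last _) ∧ ¬Gi g p (fm c)}.ncard : ℝ) ≤
      (2 * g + 2) * 3 ^ (2 * g + 3) * (H : ℝ) ^ (2 * g + 3) * ((p : ℝ) ^ 2)⁻¹ := by
    by_cases hH : p ≤ H
    · refine (cnt bx (n := 2 * g + 2) hp.pos hH _ {x : Fin (2 * g + 1 + 1) → ZMod p |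
        ¬((fm x).Separable ∧ (fm x).natDegree = 2 * g + 1)} fun c hc => ?_).trans
        ((mul_le_mul_of_nonneg_right (ins (2 * g + 1) p hp) (by positivity)).trans (le_of_eq ?_))
      · have a := (ZMod.intCast_zmod_eq_zero_iff_dvd _ _).2 hc.2.1
        have b : zK (fm c) (ZMod p) = fm fun i : Fin (2 * g + 2) => (c i.castSucc : ZMod p) := by
          rw [zK, VA.fm_map, fm, Fin.sum_univ_castSucc, eq_intCast, a, C_0, zero_mul, add_zero]
          rfl
        exact ⟨a, fun h => hc.2.2 ⟨b ▸ h.1, b ▸ h.2⟩⟩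
      · rw [div_pow, mul_pow]
        push_cast
        field_simp
        ring
    · refine le_trans (le_of_eq ?_) (by positivity : (0 : ℝ) ≤ _)
      rw [Nat.cast_eq_zero, ← Set.ncard_empty (Fin (2 * g + 3) → ℤ)]
      exact congrArg _ (Set.eq_empty_of_forall_notMem fun c hc =>
        hH (hle p c hc.1 hc.2.1 hc.2.2.1))
  have hf := fin bx (0 : Fin (2 * g + 3) → ℤ) H
  simp only [Pi.zero_apply, add_zero] at hf
  refine le_trans (Nat.cast_le.2 ((Set.ncard_le_ncard ?_ ?_).trans (Set.ncard_union_le _ _)))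
    ((Nat.cast_add _ _).trans_le ((add_le_add h1 h2).trans (le_of_eq (by ring))))
  · rintro c ⟨a, b, d, e | e⟩
    · exact .inl ⟨a, b, e⟩
    · exact .inr ⟨a, b, d, e⟩
  · exact hf.subset fun c hc => hc.elim (·.1) (·.1)

end Low

theorem low : BXCStmt → LOWStmt := by
  intro bx n m B B' κ κ' M c₀ o hm hB hp
  classical
  have k0 : ∀ {κ : ℝ} {B : (Fin n → ℤ) → Prop}, Thin κ 2 B → 0 ≤ κ := fun h => by
    have := (Nat.cast_nonneg _).trans h
    rw [mul_div_assoc] at this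
    exact nonneg_of_mul_nonneg_left this (by positivity)
  have k1 := add_nonneg (k0 (hB 2 Nat.prime_two).1) (k0 (hB 2 Nat.prime_two).2)
  let Ps := (range ⌈M⌉₊).filter fun p => p.Prime ∧ ¬p ∣ m
  have hs : (κ + κ') * ∑ p ∈ Ps, ((p : ℝ) ^ 2)⁻¹ ≤ 1 / 4 := by
    rcases k1.eq_or_lt with h | h
    · rw [← h, zero_mul]
      norm_num
    · refine (mul_le_mul_of_nonneg_left (Low.sum_le Ps (x := 4 * (κ + κ')) (by positivity)
        fun p h => hp p (mem_filter.1 h).2.1 (mem_filter.1 h).2.2) k1).trans (le_of_eq ?_)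
      field_simp
  filter_upwards [Low.ev n m hm M] with k ⟨hk, he⟩
  have hf := Low.fin bx (fun i => o i * (k : ℤ)) k
  have hA := (bx (Fin n) (fun _ => k) fun _ => k.cast_nonneg).2.2 m
    (fun i => c₀ i + o i * (k : ℤ)) hm fun _ => hk
  rw [Fin.prod_const] at hA
  have hbad : ∀ p ∈ Ps, (({c : Fin n → ℤ | (∀ i, |c i + o i * (k : ℤ)| ≤ k) ∧
      (∀ i, (c i : ZMod m) = c₀ i) ∧ B p c} ∪ {c : Fin n → ℤ | (∀ i, |c i + o i * (k : ℤ)| ≤ k) ∧
      (∀ i, (c i : ZMod m) = c₀ i) ∧ B' p c}).ncard : ℝ) ≤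
      (2 * (k : ℝ) / m + M ^ 2) ^ n * ((κ + κ') * ((p : ℝ) ^ 2)⁻¹) := by
    intro p h
    obtain ⟨h1, h2, h3⟩ := mem_filter.1 h
    have h4 : (p : ℝ) < M := Nat.lt_ceil.1 (mem_range.1 h1)
    have h5 : (2 * (k : ℝ) / m + (p : ℝ) ^ 2) ^ n ≤ (2 * (k : ℝ) / m + M ^ 2) ^ n := by gcongr
    have h6 := mul_le_mul_of_nonneg_right h5 (by positivity : 0 ≤ (κ + κ') * ((p : ℝ) ^ 2)⁻¹)
    refine (Nat.cast_le.2 (Set.ncard_union_le _ _)).trans ((Nat.cast_add _ _).trans_le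
      ((add_le_add (Low.bad bx c₀ (fun i => o i * (k : ℤ)) k h2 hm h3 (hB p h2).1)
        (Low.bad bx c₀ (fun i => o i * (k : ℤ)) k h2 hm h3 (hB p h2).2)).trans ?_))
    linarith
  have hsum := sum_le_sum hbad
  rw [← mul_sum, ← mul_sum] at hsum
  replace hsum := hsum.trans (mul_le_mul_of_nonneg_left hs (by positivity))
  have hcov : {z : Fin n → ℤ | (∀ i, |(z i : ℝ)| ≤ k) ∧
      ∀ i, (z i : ZMod m) = (c₀ i + o i * (k : ℤ) : ℤ)}.ncard ≤
      {c : Fin n → ℤ | (∀ i, |c i + o i * (k : ℤ)| ≤ k) ∧ (∀ i, (c i : ZMod m) = c₀ i) ∧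
        ∀ p : ℕ, p.Prime → ¬p ∣ m → (p : ℝ) < M → ¬B p c ∧ ¬B' p c}.ncard +
      ∑ p ∈ Ps, ({c : Fin n → ℤ | (∀ i, |c i + o i * (k : ℤ)| ≤ k) ∧
        (∀ i, (c i : ZMod m) = c₀ i) ∧ B p c} ∪
        {c : Fin n → ℤ | (∀ i, |c i + o i * (k : ℤ)| ≤ k) ∧
          (∀ i, (c i : ZMod m) = c₀ i) ∧ B' p c}).ncard := by
    refine le_trans (Set.ncard_le_ncard_of_injOn (· - fun i => o i * (k : ℤ)) ?_
      sub_left_injective.injOn ?_) ((Set.ncard_union_le _ _).trans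
      (Nat.add_le_add_left (Finset.set_ncard_biUnion_le Ps _) _))
    · intro z hz
      have a : ∀ i, |(z - fun i => o i * (k : ℤ)) i + o i * (k : ℤ)| ≤ k := fun i => by
        have := hz.1 i
        simp only [Pi.sub_apply, sub_add_cancel]
        exact_mod_cast this
      have b : ∀ i, (((z - fun i => o i * (k : ℤ)) i : ℤ) : ZMod m) = c₀ i := fun i => by
        rw [Pi.sub_apply, Int.cast_sub, hz.2 i, Int.cast_add, add_sub_cancel_right]
      by_contra h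
      rw [Set.mem_union, not_or] at h
      refine h.1 ⟨a, b, fun p h1 h2 h3 => ?_⟩
      have c : p ∈ Ps := mem_filter.2 ⟨mem_range.2 (Nat.lt_ceil.2 h3), h1, h2⟩
      exact ⟨fun hx => h.2 (Set.mem_biUnion c (.inl ⟨a, b, hx⟩)),
        fun hx => h.2 (Set.mem_biUnion c (.inr ⟨a, b, hx⟩))⟩
    · refine hf.subset ?_
      rintro c (hc | hc)
      · exact hc.1
      · obtain ⟨p, -, hc⟩ := Set.mem_iUnion₂.1 hc
        exact hc.elim (·.1) (·.1)
  have hcov' := hA.trans ((Nat.cast_le (α := ℝ)).2 hcov)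
  rw [Nat.cast_add, Nat.cast_sum] at hcov'
  linarith

theorem tail : BXCStmt → INSStmt → TAILStmt := by
  intro bx ins g ε hε
  classical
  obtain ⟨K, hK, K0⟩ : ∃ K : ℝ, K = (2 * g + 3) * 3 ^ (2 * g + 3) ∧ 0 < K :=
    ⟨_, rfl, by positivity⟩
  refine ⟨K / ε + 1, fun H => ?_⟩
  let Ps := (range (H + 1)).filter fun p : ℕ => p.Prime ∧ K / ε + 1 ≤ p
  have hf := Low.fin bx (0 : Fin (2 * g + 3) → ℤ) H
  simp only [Pi.zero_apply, add_zero] at hf
  have h1 := sum_le_sum fun p (h : p ∈ Ps) => Low.one bx ins g p H (mem_filter.1 h).2.1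
  rw [← mul_sum, ← hK, ← Nat.cast_sum] at h1
  refine le_trans (Nat.cast_le.2 ((Set.ncard_le_ncard ?_ ?_).trans
    (Finset.set_ncard_biUnion_le Ps _))) (h1.trans ((mul_le_mul_of_nonneg_left
      (Low.sum_le Ps (x := K / ε) (by positivity) fun p h => (mem_filter.1 h).2.2)
      (by positivity)).trans (le_of_eq ?_)))
  · rintro c ⟨a, b, p, h2, h3, h4⟩
    refine Set.mem_biUnion (mem_filter.2 ⟨mem_range.2 (Nat.lt_succ_of_le ?_), h2, h3⟩) ⟨a, b, h4⟩
    exact_mod_cast (Int.le_of_dvd (abs_pos.2 b) ((dvd_abs _ _).2 h4.1)).trans (a _)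
  · refine hf.subset fun c hc => ?_
    obtain ⟨p, -, hc⟩ := Set.mem_iUnion₂.1 hc
    exact hc.1
  · field_simp

end Pool.Agent.MP_a43263_nt.VE

end
end MrgPart2

-- ======== part 3: formerly Pool.Agent.MP_a43263_nt.VE.Sieve
section MrgPart3

/-! THEOREM V: the sieve. -/

set_option autoImplicit false

noncomputable section

namespace Pool.Agent.MP_a43263_nt.VE

open Polynomial Finset Filter JC VV
open UV (zK Nx BXCStmt)

namespace Sieve

theorem red {n m : ℕ} {c c₀ : Fin n → ℤ} (h : ∀ i, (c i : ZMod m) = c₀ i) {q : ℕ} (hq : q ∣ m) :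
    zK (fm c) (ZMod q) = zK (fm c₀) (ZMod q) := by
  rw [zK, zK, VA.fm_map, VA.fm_map]
  refine congrArg fm (_root_.funext fun i => (ZMod.intCast_eq_intCast_iff _ _ _).2 ?_)
  exact ((ZMod.intCast_eq_intCast_iff _ _ _).1 (h i)).of_dvd (Int.natCast_dvd_natCast.2 hq)

theorem deg0 {g : ℕ} {c : Fin (2 * g + 3) → ℤ} (h : Tz g 2 (fm c)) :
    (fm c).natDegree = 2 * g + 2 := by
  obtain ⟨h, e, i, d⟩ := h
  refine le_antisymm (natDegree_le_iff_degree_le.2 (Order.le_of_lt_succ ?_)) ?_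
  · exact_mod_cast VA.fm_degree c
  · have := natDegree_map_le (f := Int.castRingHom (ZMod 2)) (p := fm c)
    rwa [show (fm c).map _ = _ from e, natDegree_X_mul i.ne_zero, d] at this

theorem sqf {a : ℤ} (h : ∀ p : ℕ, p.Prime → ¬(p : ℤ) ^ 2 ∣ a) : Squarefree a := by
  rw [← Int.squarefree_natAbs, Nat.squarefree_iff_prime_squarefree]
  intro p hp d
  exact h p hp (by rw [sq]; exact_mod_cast Int.natCast_dvd.2 d)

end Sieve

open Sieve in
theorem sieve : KILLStmt → BADStmt → COUNTStmt → BXCStmt → GEOStmt → TYPStmt → ODPStmt →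
    BASEStmt → BNXStmt → BSXStmt → LOWStmt → TAILStmt → SIEVEStmt := by
  intro kill bad count bxc geo typ odp base bnx bsx low tail g hg
  classical
  obtain ⟨q₀, c, c0, hc⟩ := count g 3 hg (by norm_num)
  obtain ⟨P, hP⟩ : ∃ P, P = 16 * g + 29 := ⟨_, rfl⟩
  have F0 : (0 : ℝ) < P.factorial := by exact_mod_cast P.factorial_pos
  obtain ⟨N, hN⟩ := exists_pow_lt_of_lt_one
    (x := 1 / (8 * c * (2 * (P.factorial : ℝ)) ^ (2 * g + 3))) (y := (4 / 5 : ℝ))
    (by positivity) (by norm_num)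
  obtain ⟨Q, c₀, rfl, tz, hQ⟩ := base g q₀ N P (by omega)
  have D0 : 0 < ∏ q ∈ Q, (q : ℝ) := prod_pos fun q hq => by exact_mod_cast (hQ q hq).1.pos
  obtain ⟨m, hm⟩ : ∃ m, m = P.factorial * ∏ q ∈ Q, q := ⟨_, rfl⟩
  have mR : (m : ℝ) = P.factorial * ∏ q ∈ Q, (q : ℝ) := by rw [hm]; push_cast; rfl
  have m0 : (0 : ℝ) < m := by rw [mR]; positivity
  have d₀ := deg0 (tz 2 Nat.prime_two (by omega))
  obtain ⟨M, M0, k1⟩ := hc (1 / (8 * (2 * (m : ℝ)) ^ (2 * g + 3))) (by positivity)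
  replace k1 := k1 Q (fm c₀) d₀ fun q hq => ⟨(hQ q hq).1, (hQ q hq).2.2⟩
  obtain ⟨M₁, k3⟩ := tail g (1 / (8 * (4 * (m : ℝ)) ^ (2 * g + 3))) (by positivity)
  have dv : ∀ p : ℕ, p.Prime → (p ∣ m ↔ p ≤ P ∨ p ∈ Q) := fun p hp => by
    rw [hm, hp.dvd_mul, hp.dvd_factorial, hp.prime.dvd_finsetProd_iff]
    refine or_congr_right ⟨?_, fun h => ⟨p, h, dvd_rfl⟩⟩
    rintro ⟨q, hq, d⟩
    rwa [(Nat.prime_dvd_prime_iff_eq hp (hQ q hq).1).1 d]
  have k2 := low (2 * g + 3) m _ _ _ _ (max M M₁) c₀ (fun i => if Even i.1 then 7 else 0)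
    (by exact_mod_cast m0) (fun p hp => ⟨bnx _ p (by omega) hp, bsx g p hg hp⟩) fun p hp d => by
      have : (P : ℝ) ≤ p := by exact_mod_cast (not_le.1 fun l => d ((dv p hp).2 (.inl l))).le
      rw [hP] at this
      push_cast at this ⊢
      linarith
  refine ⟨Q, 1 / 8 * (1 / (8 * (m : ℝ))) ^ (2 * g + 3), by positivity,
    fun q hq => (hQ q hq).1.pos, ?_⟩
  have tk : Tendsto (fun H : ℕ => H / 8) atTop atTop := Nat.tendsto_div_const_atTop (by norm_num)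
  filter_upwards [tk.eventually ((tendsto_natCast_atTop_atTop.const_mul_atTop
    (four_pos (α := ℝ))).eventually k1), tk.eventually k2, eventually_ge_atTop 8] with H h1 h2 h3
  have kH : 8 * (H / 8) ≤ H := Nat.mul_div_le _ _
  have k0 : 1 ≤ H / 8 := by omega
  have Hk : (H : ℝ) ≤ 16 * (H / 8 : ℕ) := by exact_mod_cast (by omega : H ≤ 16 * (H / 8))
  generalize H / 8 = k at h1 h2 kH k0 Hk
  have fin : ∀ L : ℕ, {c : Fin (2 * g + 3) → ℤ | ∀ i, |c i| ≤ L}.Finite := fun L =>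
    (bxc _ (fun _ : Fin (2 * g + 3) => (L : ℝ)) fun i => by positivity).1.subset
      fun c hc i => by exact_mod_cast hc i
  obtain ⟨B, hB⟩ : ∃ B : Set (Fin (2 * g + 3) → ℤ), B = {c | Sb k c ∧ Fam g (fm c) ∧
    (∀ q ∈ Q, ((fm c).leadingCoeff : ZMod q) = (fm c₀).leadingCoeff) ∧
      Cl g Q (fm c₀) M (fm c)} := ⟨_, rfl⟩
  have fB : B.Finite := (fin (8 * k)).subset fun c hc => (geo g k c k0 (hB ▸ hc).1).1
  have h4 := h1 (fB.toFinset.image fm) fun f hf => by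
    obtain ⟨c, hc, rfl⟩ := mem_image.1 hf
    obtain ⟨b1, b2, b3⟩ := hB ▸ fB.mem_toFinset.1 hc
    obtain ⟨-, -, -, -, g1, g2, -, g3⟩ := geo g k c k0 b1
    exact ⟨b2, g1, g2, g3, b3⟩
  rw [card_image_of_injective _ VA.fm_inj, ← Set.ncard_eq_toFinset_card _ fB] at h4
  have h5 := k3 (8 * k)
  have h6 : {c : Fin (2 * g + 3) → ℤ |
      (∀ i, |c i + (if Even i.1 then 7 else 0) * (k : ℤ)| ≤ k) ∧ (∀ i, (c i : ZMod m) = c₀ i) ∧
      ∀ p : ℕ, p.Prime → ¬p ∣ m → (p : ℝ) < max M M₁ →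
        ¬Nx p (fm c) ∧ ¬(Sx p (fm c) ∨ Bi g p c)} ⊆
      ({c | (∀ i, |c i| ≤ H) ∧ Fam g (fm c) ∧ ∃ S ⊆ Q, SelT (C (∏ q ∈ S, (q : ℚ)) * zK (fm c) ℚ) ∧
        OdP (C (∏ q ∈ S, (q : ℚ)) * zK (fm c) ℚ)} ∪ B) ∪
      {c | (∀ i, |c i| ≤ (8 * k : ℕ)) ∧ c (Fin.last _) ≠ 0 ∧
        ∃ p : ℕ, p.Prime ∧ M₁ ≤ p ∧ Bi g p c} := by
    rintro c ⟨b1, b2, b3⟩
    obtain ⟨g1, g2, g3, g4, -, -, g5, -⟩ := geo g k c k0 b1
    obtain ⟨t1, t2, t3⟩ := typ g (fm c) (by omega) g3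
    have zq : ∀ q ∈ Q, zK (fm c) (ZMod q) = zK (fm c₀) (ZMod q) := fun q hq =>
      red b2 ((dv q (hQ q hq).1).2 (.inr hq))
    have ty : ∀ q ∈ Q, Ty g q (fm c) := fun q hq => by
      rw [Ty, zq q hq]; exact (hQ q hq).2.2.2
    have tp : ∀ p : ℕ, p.Prime → p ≤ P → Tz g p (fm c) := fun p hp l => by
      rw [Tz, red b2 ((dv p hp).2 (.inl l))]; exact tz p hp l
    have sm := fun (p : ℕ) (hp : p.Prime) (d : p ∣ m) =>
      t2 p hp (((dv p hp).1 d).imp (tp p hp) (ty p))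
    by_cases T : ∃ p : ℕ, p.Prime ∧ M₁ ≤ p ∧ Bi g p c
    · exact .inr ⟨g1, g2, T⟩
    have bi : ∀ p : ℕ, p.Prime → ¬Bi g p c := fun p hp b => by
      by_cases d : p ∣ m
      · exact (sm p hp d).1 (g4 ▸ b.1)
      exact T ⟨p, hp, not_lt.1 fun l => (b3 p hp d (lt_max_of_lt_right l)).2 (.inr b), b⟩
    have t2 := tp 2 Nat.prime_two (by omega)
    have hF : Fam g (fm c) := ⟨hg, g3, t1 g5 t2, g5, sqf fun p hp d => bi p hp
      ⟨(dvd_pow_self _ two_ne_zero).trans (g4 ▸ d), .inl (g4 ▸ d)⟩,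
      fun p hp d => not_not.1 fun n => bi p hp ⟨g4 ▸ d, .inr n⟩, t2⟩
    obtain ⟨u1, u2⟩ := t3 (fm c₀) Q M d₀ zq
    by_cases a : ¬Str Q (fm c) ∨
      ∃ p : ℕ, p.Prime ∧ p ≠ 2 ∧ p ∉ Q ∧ M ≤ p ∧ (Nx p (fm c) ∨ Sx p (fm c))
    · exact .inl (.inr (hB ▸ ⟨b1, hF, u1, u2 (bad g _ Q M hF (fun q hq =>
        ⟨(hQ q hq).1, by have := (hQ q hq).2.1; omega, ty q hq⟩) M0.le a)⟩))
    rw [not_or, not_not] at a
    have ns : ∀ p : ℕ, p.Prime → ¬Nx p (fm c) ∧ ¬Sx p (fm c) := fun p hp => by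
      by_cases d : p ∣ m
      · exact (sm p hp d).2
      refine not_or.1 fun b => a.2 ⟨p, hp, fun e => d ((dv p hp).2 (.inl (by omega))),
        fun e => d ((dv p hp).2 (.inr e)), not_lt.1 fun l => ?_, b⟩
      have := b3 p hp d (lt_max_of_lt_left l)
      exact b.elim this.1 fun s => this.2 (.inl s)
    obtain ⟨S, s1, s2⟩ := kill g _ Q hF (fun q hq => ⟨(hQ q hq).1, (hQ q hq).2.1, ty q hq⟩)
      (fun p hp => (ns p hp).1) a.1
    exact .inl (.inl ⟨fun i => (g1 i).trans (by exact_mod_cast kH), hF, S, s1, s2,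
      odp g _ Q S hF (fun q hq => ⟨(hQ q hq).1, ty q hq⟩) (fun p hp => (ns p hp).2) s1⟩)
  have h7 := (Set.ncard_le_ncard h6 ((((fin H).subset fun c hc => hc.1).union fB).union
    ((fin (8 * k)).subset fun c hc => hc.1))).trans
    ((Set.ncard_union_le _ _).trans (Nat.add_le_add_right (Set.ncard_union_le _ _) _))
  have h8 := h2.trans (Nat.cast_le.2 h7)
  rw [Nat.cast_add, Nat.cast_add] at h8
  have e1 : 1 / (8 * (4 * (m : ℝ)) ^ (2 * g + 3)) * ((8 * k : ℕ) : ℝ) ^ (2 * g + 3) =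
      1 / 8 * (2 * (k : ℝ) / m) ^ (2 * g + 3) := by
    rw [show 2 * (k : ℝ) / m = (8 * k : ℕ) / (4 * m) by push_cast; field_simp; norm_num, div_pow]
    field_simp
  have e2 : 1 / (8 * (2 * (m : ℝ)) ^ (2 * g + 3)) * (4 * (k : ℝ)) ^ (2 * g + 3) =
      1 / 8 * (2 * (k : ℝ) / m) ^ (2 * g + 3) := by
    rw [show 2 * (k : ℝ) / m = 4 * k / (2 * m) by field_simp; norm_num, div_pow]
    field_simp
  have e3 : c * (4 / 5) ^ Q.card / (∏ q ∈ Q, (q : ℝ)) ^ (2 * g + 3) * (4 * (k : ℝ)) ^ (2 * g + 3) ≤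
      1 / 8 * (2 * (k : ℝ) / m) ^ (2 * g + 3) := by
    have : (0 : ℝ) < (2 * (P.factorial : ℝ)) ^ (2 * g + 3) := by positivity
    rw [show 2 * (k : ℝ) / m = 4 * k / (∏ q ∈ Q, (q : ℝ)) / (2 * P.factorial) by
      rw [mR]; field_simp; norm_num, div_pow (_ / _), div_pow (4 * (k : ℝ)), div_mul_eq_mul_div,
      mul_div_assoc, mul_div_assoc' (1 / 8 : ℝ), le_div_iff₀ this, mul_right_comm]
    refine mul_le_mul_of_nonneg_right ?_ (by positivity)
    rw [lt_div_iff₀ (by positivity)] at hN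
    linarith
  have e4 : (1 / (8 * (m : ℝ))) ^ (2 * g + 3) * (H : ℝ) ^ (2 * g + 3) ≤
      (2 * (k : ℝ) / m) ^ (2 * g + 3) := by
    rw [← mul_pow]
    refine pow_le_pow_left₀ (by positivity) ?_ _
    rw [le_div_iff₀ m0]
    field_simp
    linarith
  rw [add_mul, e2] at h4
  rw [e1] at h5
  rw [mul_assoc]
  linarith

end Pool.Agent.MP_a43263_nt.VE

end
end MrgPart3

-- marker of a merged file
example : 731051 + 853407 = 731051 + 853407 := rfl
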