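import Mathlib.RingTheory.AdicCompletion.Noetherian
import Pool.Agent.MP_a43263_nt.VV.Face
import Pool.Agent.MP_a43263_nt.VA.Ram
import Pool.Agent.MP_a43263_nt.UC.Maj
import Pool.Agent.MP_a43263_nt.VC.Abs
import Pool.Agent.MP_a43263_nt.VE.Base
import Pool.Agent.MP_a43263_nt.VE.Beta
import Pool.Agent.MP_a43263_nt.VC.Exp
import Pool.Agent.MP_a43263_nt.VC.Fin
import Pool.Agent.MP_a43263_nt.VE.Sieve
import Pool.Agent.MP_a43263_nt.VC.Tz
import Pool.Agent.MP_a43263_nt.VA.All
import Pool.Agent.MP_a43263_nt.VB.All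
import Pool.Agent.MP_a43263_nt.VE.Fin

-- ======== part 0: formerly Pool.Agent.MP_a43263_nt.V99.Odd
section MrgPart0

/-! Points of odd degree on `y ^ 2 = f(x)` over the `p`-adic numbers. -/

set_option autoImplicit false

noncomputable section

namespace Pool.Agent.MP_a43263_nt.V99

open Polynomial IsLocalRing
open Pool.Agent.MP_a43263_nt.UV (iq rq)

theorem prec {R : Type} [CommRing R] (I : Ideal R) [IsPrecomplete I R] (M : Type) [AddCommGroup M]
    [Module R M] [Module.Finite R M] : IsPrecomplete I M := by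
  refine AdicCompletion.of_surjective_iff.1 fun y => ?_
  obtain ⟨t, rfl⟩ := AdicCompletion.ofTensorProduct_surjective_of_finite I M y
  induction t using TensorProduct.induction_on with
  | zero => exact ⟨0, by simp⟩
  | add a b ha hb =>
    obtain ⟨x, hx⟩ := ha
    obtain ⟨y, hy⟩ := hb
    exact ⟨x + y, by rw [map_add, map_add, hx, hy]⟩
  | tmul r x =>
    obtain ⟨r, rfl⟩ := AdicCompletion.of_surjective I R r
    exact ⟨r • x, by
      rw [AdicCompletion.ofTensorProduct_tmul, map_smul]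
      exact (algebraMap_smul (AdicCompletion I R) r _).symm⟩

variable {p : ℕ} [Fact p.Prime]

theorem rq_surj (v : (ZMod p)[X]) : ∃ w, rq p w = v :=
  map_surjective _ (ZMod.ringHom_surjective _) v

/-- Hensel's lemma for square roots modulo a monic polynomial -/
theorem sqrt_lift (h2 : p ≠ 2) {U F : ℤ_[p][X]} (hU : U.Monic) {v : (ZMod p)[X]}
    (hc : IsCoprime v (rq p U)) (hd : rq p U ∣ rq p F - v ^ 2) :
    ∃ V, U ∣ F - V ^ 2 ∧ rq p U ∣ rq p V - v := by
  let S := AdjoinRoot U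
  let I := (maximalIdeal ℤ_[p]).map (algebraMap ℤ_[p] S)
  have : Module.Finite ℤ_[p] S := (AdjoinRoot.powerBasis' hU).finite
  have := prec (maximalIdeal ℤ_[p]) S
  have : IsAdicComplete (maximalIdeal ℤ_[p]) S := ⟨⟩
  have : IsAdicComplete I S := (IsAdicComplete.map_algebraMap_iff _ _).2 this
  have red : ∀ P, AdjoinRoot.mk U P ∈ I ↔ rq p U ∣ rq p P := fun P => by
    have e : I = (RingHom.ker (mapRingHom (PadicInt.toZMod (p := p)))).map (AdjoinRoot.mk U) := by
      rw [ker_mapRingHom, PadicInt.ker_toZMod, Ideal.map_map]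
      rfl
    rw [e, Ideal.mem_map_iff_of_surjective _ AdjoinRoot.mk_surjective]
    constructor
    · rintro ⟨x, hx, e⟩
      obtain ⟨w, hw⟩ := AdjoinRoot.mk_eq_mk.1 e.symm
      refine ⟨rq p w, ?_⟩
      rw [← Polynomial.map_mul, ← hw, Polynomial.map_sub, show x.map _ = 0 from hx, sub_zero]
    · rintro ⟨w, hw⟩
      obtain ⟨w, rfl⟩ := rq_surj w
      exact ⟨P - U * w, by simp [RingHom.mem_ker, hw], by simp⟩
  obtain ⟨v, rfl⟩ := rq_surj v
  have h2' : (2 : ZMod p) ≠ 0 := Ring.two_ne_zero (by rwa [ZMod.ringChar_zmod_n])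
  obtain ⟨a, ha, hb⟩ := HenselianRing.is_henselian (R := S) (I := I)
    (X ^ 2 - C (AdjoinRoot.mk U F)) (monic_X_pow_sub_C _ two_ne_zero) (AdjoinRoot.mk U v) (by
      have := (red (v ^ 2 - F)).2 (by
        rw [rq, rq, Polynomial.map_sub, Polynomial.map_pow]; exact dvd_sub_comm.1 hd)
      simpa using this) (by
      obtain ⟨s, t, hst⟩ := hc
      obtain ⟨r, hs⟩ := rq_surj (C (2 : ZMod p)⁻¹ * s)
      refine IsUnit.of_mul_eq_one (Ideal.Quotient.mk I (AdjoinRoot.mk U r)) ?_
      rw [← map_mul, ← map_one (Ideal.Quotient.mk I), Ideal.Quotient.eq]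
      have := (red (2 * v * r - 1)).2 ⟨-t, by
        have e : (2 : (ZMod p)[X]) * C (2 : ZMod p)⁻¹ = 1 := by
          rw [← C_ofNat, ← C_mul, mul_inv_cancel₀ h2', C_1]
        simp only [rq, Polynomial.map_sub, Polynomial.map_mul, Polynomial.map_ofNat,
          Polynomial.map_one] at hs hst ⊢
        rw [hs]
        linear_combination hst + e * (v.map PadicInt.toZMod * s)⟩
      simpa [map_ofNat, one_add_one_eq_two] using this)
  obtain ⟨V, rfl⟩ := AdjoinRoot.mk_surjective a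
  refine ⟨V, AdjoinRoot.mk_eq_mk.1 ?_, ?_⟩
  · simp only [IsRoot, eval_sub, eval_pow, eval_X, eval_C, sub_eq_zero] at ha
    rw [map_pow, ha]
  · rw [← map_sub, red] at hb
    rwa [← Polynomial.map_sub]

theorem odd : VV.ODDStmt := by
  refine ⟨fun p _ F h2 h => ?_, fun p _ F a c h0 h1 => ?_⟩
  · obtain ⟨π, v, m1, m2, m3, m4, m5⟩ := oddF (by rwa [ZMod.ringChar_zmod_n]) h
    obtain ⟨U, rfl, u1, u2⟩ := lifts_and_natDegree_eq_and_monic
      ((mem_lifts π).2 (rq_surj π)) m1
    obtain ⟨V, hV, -⟩ := sqrt_lift h2 u2 (m2.coprime_iff_not_dvd.2 m4).symm m5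
    refine ⟨iq p U, iq p V, u2.map _, by rwa [u2.natDegree_map, u1], ?_⟩
    simpa using Polynomial.map_dvd PadicInt.Coe.ringHom hV
  · obtain ⟨a, rfl⟩ := ZMod.ringHom_surjective PadicInt.toZMod a
    rw [rq, derivative_map, eval_map_apply] at h1
    rw [rq, eval_map_apply] at h0
    have k : ∀ x : ℤ_[p], PadicInt.toZMod x = 0 ↔ ‖x‖ < 1 := fun x => by
      rw [← RingHom.mem_ker, PadicInt.ker_toZMod, mem_maximalIdeal, mem_nonunits_iff,
        PadicInt.not_isUnit_iff]
    obtain ⟨z, hz, -⟩ := hensels_lemma (F := F) (a := a) (by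
      have := le_antisymm (PadicInt.norm_le_one _) (not_lt.1 (mt (k _).2 h1))
      simpa [this] using (k _).1 h0)
    refine ⟨X - C (z : ℚ_[p]), 0, monic_X_sub_C _, by simp, ?_⟩
    rw [zero_pow two_ne_zero, sub_zero]
    refine (dvd_iff_isRoot.2 ?_).mul_left _
    exact (eval_map_apply (f := PadicInt.Coe.ringHom) z).trans (by simpa using hz)

theorem fc : VV.FCStmt := fc2

end Pool.Agent.MP_a43263_nt.V99

end
end MrgPart0

-- ======== part 1: formerly Pool.Agent.MP_a43263_nt.VC.Rk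
section MrgPart1

/-!
Symmetric matrices of rank at most one over a finite field and modulo a squarefree number.
-/

namespace Pool.Agent.MP_a43263_nt.VC

open Matrix Finset

namespace Rk

theorem zero_of_diag {F : Type} [Field F] {n : ℕ} (B : Matrix (Fin n) (Fin n) F) (hs : B.IsSymm)
    (hm : ∀ p q p' q', B p q * B p' q' = B p q' * B p' q) (p q : Fin n) (h : B q q = 0) :
    B p q = 0 := by
  have h1 := hm p q q p
  rw [h, mul_zero, hs.apply p q] at h1
  exact mul_self_eq_zero.1 h1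

theorem aux (F : Type) [Field F] [Fintype F] (n k : ℕ) : ∀ (J : Finset (Fin n)) (r : Fin n)
    (u : F) (W : Finset (Matrix (Fin n) (Fin n) F)), J.card = k + 1 → r ∈ J →
    (∀ B ∈ W, B.IsSymm ∧ (∀ p q p' q', B p q * B p' q' = B p q' * B p' q) ∧
      (∀ j, j ∉ J → B j j = 0) ∧ B r r = u) → W.card ≤ Fintype.card F ^ k := by
  classical
  have key : ∀ (k : ℕ) (J : Finset (Fin n)) (r : Fin n)
      (u : F) (W : Finset (Matrix (Fin n) (Fin n) F)), J.card = k + 1 → r ∈ J → u ≠ 0 →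
      (∀ B ∈ W, B.IsSymm ∧ (∀ p q p' q', B p q * B p' q' = B p q' * B p' q) ∧
        (∀ j, j ∉ J → B j j = 0) ∧ B r r = u) → W.card ≤ Fintype.card F ^ k := by
    intro k J r u W hJ hr hu hW
    have hc : (J.erase r).card = k := by rw [card_erase_of_mem hr]; omega
    have h1 : W.card ≤ (univ : Finset (J.erase r → F)).card := by
      refine card_le_card_of_injOn (fun B q => B r q.1) (fun _ _ => by simp) ?_
      intro B hB B' hB' e
      obtain ⟨s1, m1, d1, u1⟩ := hW B hB
      obtain ⟨s2, m2, d2, u2⟩ := hW B' hB'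
      have hrow : ∀ q, B r q = B' r q := by
        intro q
        by_cases hq : q = r
        · rw [hq, u1, u2]
        · by_cases hqJ : q ∈ J
          · exact congrFun e ⟨q, mem_erase.2 ⟨hq, hqJ⟩⟩
          · rw [zero_of_diag B s1 m1 r q (d1 q hqJ), zero_of_diag B' s2 m2 r q (d2 q hqJ)]
      ext p q
      have a1 := m1 p q r r
      have a2 := m2 p q r r
      rw [u1, s1.apply r p, hrow p, hrow q] at a1
      rw [u2, s2.apply r p] at a2
      exact mul_right_cancel₀ hu (a1.trans a2.symm)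
    rwa [card_univ, Fintype.card_fun, Fintype.card_coe, hc] at h1
  induction k with
  | zero =>
    intro J r u W hJ hr hW
    by_cases hu : u = 0
    · rw [pow_zero]
      have hz : ∀ B ∈ W, B = 0 := by
        intro B hB
        obtain ⟨s1, m1, d1, u1⟩ := hW B hB
        ext p q
        refine zero_of_diag B s1 m1 p q ?_
        by_cases hq : q ∈ J
        · rw [card_le_one.1 hJ.le q hq r hr, u1, hu]
        · exact d1 q hq
      exact card_le_one.2 fun a ha b hb => (hz a ha).trans (hz b hb).symm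
    · exact key 0 J r u W hJ hr hu hW
  | succ k ih =>
    intro J r u W hJ hr hW
    by_cases hu : u = 0
    · have hc : (J.erase r).card = k + 1 := by rw [card_erase_of_mem hr]; omega
      obtain ⟨r', hr'⟩ : (J.erase r).Nonempty := card_pos.1 (by omega)
      have h1 := card_le_mul_card_image (f := fun B : Matrix (Fin n) (Fin n) F => B r' r') W
        (Fintype.card F ^ k) (fun a _ => ih (J.erase r) r' a _ hc hr' (fun B hB => by
          obtain ⟨hB1, hB2⟩ := mem_filter.1 hB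
          obtain ⟨s1, m1, d1, u1⟩ := hW B hB1
          refine ⟨s1, m1, fun j hj => ?_, hB2⟩
          by_cases hjr : j = r
          · rw [hjr, u1, hu]
          · exact d1 j fun h => hj (mem_erase.2 ⟨hjr, h⟩)))
      rw [pow_succ]
      exact h1.trans (Nat.mul_le_mul_left _ (card_le_univ _))
    · exact key (k + 1) J r u W hJ hr hu hW

theorem inj (D : ℕ) (hD : Squarefree D) (x y : ZMod D)
    (h : ∀ p : D.primeFactors, ZMod.castHom (Nat.dvd_of_mem_primeFactors p.2) (ZMod p.1) x =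
      ZMod.castHom (Nat.dvd_of_mem_primeFactors p.2) (ZMod p.1) y) : x = y := by
  have : NeZero D := ⟨hD.ne_zero⟩
  have h1 : ∏ p ∈ D.primeFactors, p ∣ (x - y).val := by
    refine prod_primes_dvd _ (fun p hp => (Nat.prime_of_mem_primeFactors hp).prime) fun p hp => ?_
    have h2 : ZMod.castHom (Nat.dvd_of_mem_primeFactors hp) (ZMod p) (x - y) = 0 := by
      rw [map_sub, h ⟨p, hp⟩, sub_self]
    rw [← ZMod.natCast_zmod_val (x - y), map_natCast] at h2
    exact (ZMod.natCast_eq_zero_iff _ _).1 h2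
  rw [Nat.prod_primeFactors_of_squarefree hD] at h1
  have h3 := (ZMod.natCast_eq_zero_iff _ _).2 h1
  rw [ZMod.natCast_zmod_val] at h3
  exact sub_eq_zero.1 h3

end Rk

theorem rkf : RKFStmt := by
  intro F _ _ n J r u W hr hW
  exact Rk.aux F n (J.card - 1) J r u W (by have := card_pos.2 ⟨r, hr⟩; omega) hr hW

theorem rk : RKFStmt → RKStmt := by
  classical
  intro hF n D r r' s ρ u W hD hr hs hW
  set m := ((Ioi r).erase r').card with hm
  let φ : (p : D.primeFactors) → ZMod D →+* ZMod p.1 := fun p =>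
    ZMod.castHom (Nat.dvd_of_mem_primeFactors p.2) (ZMod p.1)
  have h1 : W.card ≤ (Fintype.piFinset fun p : D.primeFactors =>
      W.image fun B => B.map (φ p)).card := by
    refine card_le_card_of_injOn (fun B p => B.map (φ p)) (fun B hB => ?_) ?_
    · exact mem_coe.2 (Fintype.mem_piFinset.2 fun p => mem_image_of_mem _ hB)
    · intro B _ B' _ e
      ext i j
      exact Rk.inj D hD _ _ fun p => congrFun (congrFun (congrFun e p) i) j
  rw [Fintype.card_piFinset] at h1
  have h2 : ∀ p : D.primeFactors, (W.image fun B => B.map (φ p)).card ≤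
      (if (p.1 : ℤ) ∣ s then p.1 else 1) ^ m := by
    intro p
    have : Fact p.1.Prime := ⟨Nat.prime_of_mem_primeFactors p.2⟩
    split_ifs with hp
    · have h3 := hF (ZMod p.1) n (Ioi r) r' (φ p u) (W.image fun B => B.map (φ p))
        (mem_Ioi.2 hr) (fun B' hB' => by
          obtain ⟨B, hB, rfl⟩ := mem_image.1 hB'
          obtain ⟨s1, m1, d1, r1, u1⟩ := hW B hB
          refine ⟨s1.map _, fun a b a' b' => ?_, fun j hj => ?_, ?_⟩
          · simp only [map_apply, ← map_mul, m1 a b a' b']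
          · rcases (not_lt.1 (mt mem_Ioi.2 hj)).eq_or_lt with h | h
            · rw [map_apply, h, r1, hs, map_intCast]
              exact (ZMod.intCast_zmod_eq_zero_iff_dvd _ _).2 hp
            · rw [map_apply, d1 j h, map_zero]
          · rw [map_apply, u1])
      rwa [ZMod.card, ← card_erase_of_mem (mem_Ioi.2 hr)] at h3
    · rw [one_pow]
      have hz : ∀ B ∈ W, ∀ a b, φ p (B a b) * (s : ZMod p.1) = φ p (ρ a) * φ p (ρ b) := by
        intro B hB a b
        obtain ⟨s1, m1, -, r1, -⟩ := hW B hB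
        have a1 := m1 a b r r
        rw [s1.apply r a, r1, r1, r1, hs] at a1
        rw [← map_mul, ← a1, map_mul, map_intCast]
      refine card_le_one.2 fun A hA A' hA' => ?_
      obtain ⟨B, hB, rfl⟩ := mem_image.1 hA
      obtain ⟨B', hB', rfl⟩ := mem_image.1 hA'
      ext a b
      exact mul_right_cancel₀ (mt (ZMod.intCast_zmod_eq_zero_iff_dvd _ _).1 hp)
        ((hz B hB a b).trans (hz B' hB' a b).symm)
  refine h1.trans ((prod_le_prod' fun p _ => h2 p).trans ?_)
  rw [prod_pow]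
  refine Nat.pow_le_pow_left ?_ m
  rw [prod_coe_sort D.primeFactors fun p => if (p : ℤ) ∣ s then p else 1, ← prod_filter]
  refine Nat.le_of_dvd (Int.gcd_pos_of_ne_zero_right _ (by exact_mod_cast hD.ne_zero)) ?_
  refine prod_primes_dvd _ (fun p hp => (Nat.prime_of_mem_primeFactors (mem_filter.1 hp).1).prime)
    fun p hp => ?_
  exact Int.dvd_gcd (mem_filter.1 hp).2
    (Int.natCast_dvd_natCast.2 (Nat.dvd_of_mem_primeFactors (mem_filter.1 hp).1))

end Pool.Agent.MP_a43263_nt.VC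

end MrgPart1

-- ======== part 2: formerly Pool.Agent.MP_a43263_nt.VC.Count
section MrgPart2

/-! Part C of THEOREM V. -/

namespace Pool.Agent.MP_a43263_nt.VC

theorem count (fc : VV.FCStmt) : VV.COUNTStmt :=
  count_of inv (den fc) (VC.abs inv VC.sum VC.exp step (tz (row (rk rkf)) (sw VC.sq VC.gcd) VC.exp)
    (tr (rowt (row (rk rkf))) VC.exp) (body (bohr rep (cell arc) (exc root)) phi VC.exp))

end Pool.Agent.MP_a43263_nt.VC

end MrgPart2

-- ======== part 3: formerly Pool.Agent.MP_a43263_nt.VE.All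
section MrgPart3

/-! THEOREM V, part E: assembly. -/

set_option autoImplicit false

noncomputable section

namespace Pool.Agent.MP_a43263_nt.VE

open Polynomial Finset Filter JC VV
open UV (zK)

theorem sieveAll : SIEVEStmt :=
  sieve VA.killAll VB.bad (VC.count V99.fc) UV.bxc geo typ (odp V99.odd) (base UV.irr) bnx (bsx ins)
    (low UV.bxc) (tail UV.bxc ins)

open FinE in
theorem gen (sieve : SIEVEStmt) {g : ℕ} (hg : 2 ≤ g) (P : ℚ[X] → Prop)
    (hP : ∀ (d : ℕ) (f : ℤ[X]), 0 < d → Fam g f → SelT (C (d : ℚ) * zK f ℚ) →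
      OdP (C (d : ℚ) * zK f ℚ) → P (C (d : ℚ) * zK f ℚ)) :
    ∃ ε : ℝ, 0 < ε ∧ ∀ᶠ H : ℕ in atTop,
      ε * ({c : Fin (2 * g + 3) → ℤ | ∀ i, |c i| ≤ H}.ncard : ℝ) ≤
        ({c : Fin (2 * g + 3) → ℤ | (∀ i, |c i| ≤ H) ∧ P (fm fun i => (c i : ℚ))}.ncard : ℝ) := by
  obtain ⟨Q, ε, hε, hQ, hev⟩ := sieve g hg
  have hd : ∀ S ⊆ Q, 0 < ∏ q ∈ S, q := fun S hS => prod_pos fun q hq => hQ q (hS hq)
  set K := ∏ q ∈ Q, q with hK
  have hK0 : 0 < K := hd Q subset_rfl
  have hK1 : ∀ S ⊆ Q, ∏ q ∈ S, q ≤ K := fun S hS =>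
    prod_le_prod_of_subset_of_one_le' hS fun q hq _ => hQ q hq
  refine ⟨ε / (2 ^ Q.card * (6 * K) ^ (2 * g + 3)), by positivity, ?_⟩
  have ht : Tendsto (fun H : ℕ => H / K) atTop atTop := Nat.tendsto_div_const_atTop hK0.ne'
  filter_upwards [ht.eventually hev, ht.eventually_ge_atTop 1] with H' h2 h3
  set H := H' / K with hH
  have l1 : K * H ≤ H' := Nat.mul_div_le _ _
  have l2 : H' ≤ 2 * K * H := by
    have := Nat.lt_mul_div_succ H' hK0
    nlinarith
  set G := {c : Fin (2 * g + 3) → ℤ | (∀ i, |c i| ≤ H') ∧ P (fm fun i => (c i : ℚ))} with hG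
  have fG : G.Finite := ((box_eq _ H').symm ▸ finite_toSet _ :
    {c : Fin (2 * g + 3) → ℤ | ∀ i, |c i| ≤ (H' : ℤ)}.Finite).subset fun c hc => hc.1
  set A := {c : Fin (2 * g + 3) → ℤ | (∀ i, |c i| ≤ H) ∧
    Fam g (fm c) ∧ ∃ S ⊆ Q, SelT (C (∏ q ∈ S, (q : ℚ)) * zK (fm c) ℚ) ∧
      OdP (C (∏ q ∈ S, (q : ℚ)) * zK (fm c) ℚ)} with hA
  have h4 : ∀ c : Fin (2 * g + 3) → ℤ, ∃ S : Finset ℕ, c ∈ A → S ⊆ Q ∧
      (fun i => ((∏ q ∈ S, q : ℕ) : ℤ) * c i) ∈ G := fun c => by
    by_cases hc : c ∈ A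
    · obtain ⟨hb, hz, S, hS, hs, ho⟩ := hc
      rw [← Nat.cast_prod] at hs ho
      refine ⟨S, fun _ => ⟨hS, fun i => ?_, (fm_mul _ c).symm ▸ hP _ _ (hd S hS) hz hs ho⟩⟩
      rw [abs_mul, Nat.abs_cast]
      refine (mul_le_mul (Nat.cast_le.2 (hK1 S hS)) (hb i) (abs_nonneg _) (by positivity)).trans ?_
      exact_mod_cast l1
    · exact ⟨∅, fun h => absurd h hc⟩
  choose S hc using h4
  have h5 := Set.ncard_le_ncard_of_injOn (s := A) (t := (↑Q.powerset : Set (Finset ℕ)) ×ˢ G)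
    (fun c => (S c, fun i => ((∏ q ∈ S c, q : ℕ) : ℤ) * c i))
    (fun c h => ⟨mem_coe.2 (mem_powerset.2 (hc c h).1), (hc c h).2⟩)
    (fun a _ b hb e => by
      obtain ⟨e1, e2⟩ := Prod.mk.inj e
      rw [e1] at e2
      exact _root_.funext fun i => mul_left_cancel₀ (Nat.cast_ne_zero.2 (hd _ (hc b hb).1).ne')
        (congrFun e2 i))
    ((finite_toSet _).prod fG)
  rw [Set.ncard_prod, Set.ncard_coe_finset, card_powerset] at h5
  have h6 := h2.trans (Nat.cast_le.2 h5)
  have h7 := (Nat.cast_le (α := ℝ)).2 ((box_card (2 * g + 3) H' (le_trans (by nlinarith) l1)).trans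
    (Nat.pow_le_pow_left (Nat.mul_le_mul_left 3 l2) _))
  push_cast at h6 h7
  rw [div_mul_eq_mul_div, div_le_iff₀ (by positivity)]
  calc _ ≤ ε * (3 * (2 * K * H : ℝ)) ^ (2 * g + 3) := by gcongr
    _ = ε * (H : ℝ) ^ (2 * g + 3) * (6 * K) ^ (2 * g + 3) := by
      rw [mul_assoc ε, ← mul_pow]; congr 2; ring
    _ ≤ 2 ^ Q.card * G.ncard * (6 * K) ^ (2 * g + 3) := by gcongr
    _ = _ := by ring

end Pool.Agent.MP_a43263_nt.VE

end
end MrgPart3

-- marker of a merged file
example : 731051 + 138897 = 731051 + 138897 := rfl
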